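import Pool.Agent.Lib.MP_c7af3c_ag.T2.LC.AB
import Pool.Agent.Lib.MP_c7af3c_ag.T2.LC.VL
import Pool.Agent.Lib.MP_c7af3c_ag.T2.LC.K1
import Pool.Agent.Lib.MP_c7af3c_ag.T2.LC.K2
import Pool.Agent.Lib.MP_c7af3c_ag.T2.LC.Rank
import Pool.Agent.Lib.MP_c7af3c_ag.T2C.H51.Stm

/-!
# MP_c7af3c_ag, project T2C: sub-row A of row Q25 (helper65)
-/

set_option autoImplicit false

namespace Pool.Agent.T2C.H65.Q25A

open MvPolynomial Module
open Pool.Agent.T2.LC Pool.Agent.T2.LC.AB

variable {K : Type} [Field K]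

theorem DZ_map_self (j : ℕ) (z : Fin 3 → K) : (DZ j z).map (ct (lf z)) = ⊥ := by
  rw [eq_bot_iff]
  rintro _ ⟨θ, hθ, rfl⟩
  rw [Submodule.mem_bot]
  exact hθ.2

theorem inj_left {U : Submodule K (D K)} {p q : MvPolynomial (Fin 3) K} (h : Inj U (p * q)) :
    Inj U p := fun θ hθ h0 => h θ hθ (by rw [mul_comm, ct_mul, h0, map_zero])

theorem inj_map {U : Submodule K (D K)} {p q : MvPolynomial (Fin 3) K} (h : Inj U (p * q)) :
    Inj (U.map (ct p)) q := by
  rintro _ ⟨θ, hθ, rfl⟩ h0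
  have : θ = 0 := h θ hθ (by rw [mul_comm, ct_mul]; exact h0)
  rw [this, map_zero]

theorem inj_of_map {U : Submodule K (D K)} {p q : MvPolynomial (Fin 3) K} (h1 : Inj U p)
    (h : Inj (U.map (ct p)) q) : Inj U (p * q) := by
  intro θ hθ h0
  rw [mul_comm, ct_mul] at h0
  exact h1 θ hθ (h _ (Submodule.mem_map_of_mem hθ) h0)

variable [CharZero K]

/-- Lemma R -/
theorem lemR {j : ℕ} (hj : 3 ≤ j) {E : Submodule K (D K)} (hE : E ≤ Dj j)
    (h5 : finrank K E ≤ 5) (h : ∀ l : Fin 3 → K, finrank K (E.map (ct (lf l))) ≤ 1) :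
    finrank K E ≤ 1 := by
  have hf : FiniteDimensional K E := fd_of_le hE
  by_contra hc
  by_cases h3 : 3 ≤ finrank K E
  · have h7 := k2 K1.k1 K j (by omega) E hE fun l => by
      have h8 := VL.ker_add E (ct (lf l))
      have h9 := h l
      omega
    omega
  · have hn : ∀ l : Fin 3 → K, ¬ Inj E (lf l) := by
      intro l hl
      have h1 := inj_iff_rank.1 hl
      have h2 := h l
      omega
    rcases VL.vl K1.k1 (k2 K1.k1) K j (by omega) E hE hn (by omega) with ⟨z, hz, hle⟩ | ⟨h1, -⟩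
    · have h6 : finrank K (DZ j z) ≤ finrank K E := Submodule.finrank_mono hle
      rw [finrank_DZ j hz] at h6
      omega
    · omega

theorem two (U : Submodule K (D K)) (hU : U ≤ Dj 5) (hdim : finrank K U = 5)
    (h3 : ∀ l : Fin 3 → K, l ≠ 0 → finrank K (U ⊓ LinearMap.ker (ct (lf l)) :
      Submodule K (D K)) ≤ 3) : ∃ l₁ l₂ : Fin 3 → K, Inj U (lf l₁ * lf l₂) := by
  have hfU : FiniteDimensional K U := fd_of_le hU
  by_contra hcon
  push Not at hcon
  obtain ⟨l0, hl0⟩ : ∃ l : Fin 3 → K, Inj U (lf l) := by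
    by_contra h
    push Not at h
    rcases VL.vl K1.k1 (k2 K1.k1) K 5 (by norm_num) U hU h (by omega) with
      ⟨z, hz, hle⟩ | ⟨h1, -⟩
    · have h5 : finrank K (DZ 5 z) ≤ finrank K U := Submodule.finrank_mono hle
      rw [finrank_DZ 5 hz] at h5
      omega
    · omega
  have key : ∀ l : Fin 3 → K, Inj U (lf l) → ∃ z : Fin 3 → K, z ≠ 0 ∧
      U.map (ct (lf l)) = DZ 4 z := by
    intro l hl
    have h1 : U.map (ct (lf l)) ≤ Dj 4 := map_lf_le l hU
    have h2 : finrank K (U.map (ct (lf l))) = 5 := by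
      rw [← hdim]
      exact map_finrank_of_inj U (ct (lf l)) hl
    have hf1 : FiniteDimensional K (U.map (ct (lf l))) := fd_of_le h1
    have h3 : ∀ l', ¬ Inj (U.map (ct (lf l))) (lf l') := fun l' hl' =>
      hcon l l' (inj_of_map hl hl')
    rcases VL.vl K1.k1 (k2 K1.k1) K 4 (by norm_num) _ h1 h3 (by omega) with
      ⟨z, hz, hle⟩ | ⟨h, -⟩
    · have hle' : DZ 4 z ≤ U.map (ct (lf l)) := hle
      refine ⟨z, hz, (Submodule.eq_of_le_of_finrank_le hle' ?_).symm⟩
      rw [finrank_DZ 4 hz, h2]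
    · omega
  obtain ⟨z, hz0, hz⟩ := key l0 hl0
  have hall : ∀ l, finrank K (U.map (ct (lf z * lf l))) < 1 := by
    by_contra hno
    push Not at hno
    have P1 := (inj_lopen U).and (li_lopen (a := z))
    have N1 := (inj_lopen U).exists_and (li_lopen (a := z)) ⟨l0, hl0⟩ (exists_second hz0)
    obtain ⟨l, ⟨g1, g2⟩, g3⟩ := P1.exists_and (rank_lopen U z 1) N1 hno
    obtain ⟨z', hz'0, hz'⟩ := key l g1
    have hli : LinearIndependent K ![z, z'] := by
      by_contra hni
      have e1 : U.map (ct (lf z * lf l)) = ⊥ := by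
        rw [mul_comm, Pool.Agent.T2.LC.map_mul, hz', ← DZ_of_not_li hz0 hz'0 hni, DZ_map_self]
      rw [e1, finrank_bot] at g3
      omega
    have e2 : ((U.map (ct (lf l0))).map (ct (lf l))).map (ct (lf z')) = DZ 2 z := by
      rw [hz, DZ_map g2, DZ_map hli]
    have e3 : ((U.map (ct (lf l0))).map (ct (lf l))).map (ct (lf z')) = ⊥ := by
      rw [map_comm U, map_comm (U.map (ct (lf l))), hz', DZ_map_self, Submodule.map_bot]
    have e4 := finrank_DZ 2 hz0
    rw [← e2, e3, finrank_bot] at e4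
    omega
  have hk : U ⊓ LinearMap.ker (ct (lf z)) = U := by
    refine inf_eq_left.2 fun θ hθ => ?_
    refine eq_zero_of_lf (ct_lf_mem z (j := 4) (hU hθ)) fun l => ?_
    have h1 : FiniteDimensional K (U.map (ct (lf z * lf l))) := K1.fd_map U (ct (lf z * lf l))
    have h2 : finrank K (U.map (ct (lf z * lf l))) = 0 := by have := hall l; omega
    have h4 := Submodule.finrank_eq_zero.1 h2
    have h5 : ct (lf z * lf l) θ ∈ U.map (ct (lf z * lf l)) := Submodule.mem_map_of_mem hθ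
    rw [h4, Submodule.mem_bot, mul_comm, ct_mul] at h5
    exact h5
  have := h3 z hz0
  rw [hk, hdim] at this
  omega

theorem good (U : Submodule K (D K)) (hU : U ≤ Dj 5) (hdim : finrank K U = 5)
    (hcon : ∀ l₁ l₂ l₃ : Fin 3 → K, ¬ Inj U (lf l₁ * lf l₂ * lf l₃)) (l₁ l0 : Fin 3 → K)
    (hl : Inj U (lf l₁ * lf l0)) : ∃ z : Fin 3 → K, z ≠ 0 ∧
      4 ≤ finrank K (U.map (ct (lf l₁)) ⊓ LinearMap.ker (ct (lf z)) : Submodule K (D K)) := by
  have hfU : FiniteDimensional K U := fd_of_le hU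
  have hU1 : U.map (ct (lf l₁)) ≤ Dj 4 := map_lf_le l₁ hU
  have hd1 : finrank K (U.map (ct (lf l₁))) = 5 := by
    rw [← hdim]
    exact map_finrank_of_inj U (ct (lf l₁)) (inj_left hl)
  have hl0 : Inj (U.map (ct (lf l₁))) (lf l0) := inj_map hl
  have hc2 : ∀ l l' : Fin 3 → K, ¬ Inj (U.map (ct (lf l₁))) (lf l * lf l') := by
    intro l l' h
    refine hcon l₁ l l' ?_
    rw [mul_assoc]
    exact inj_of_map (inj_left hl) h
  clear hcon
  generalize U.map (ct (lf l₁)) = U₁ at *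
  have hfU1 : FiniteDimensional K U₁ := fd_of_le hU1
  have key : ∀ l : Fin 3 → K, Inj U₁ (lf l) → ∃ z : Fin 3 → K, z ≠ 0 ∧
      DZ 3 z ≤ U₁.map (ct (lf l)) := by
    intro l hl
    have h1 : U₁.map (ct (lf l)) ≤ Dj 3 := map_lf_le l hU1
    have h2 : finrank K (U₁.map (ct (lf l))) = 5 := by
      rw [← hd1]
      exact map_finrank_of_inj U₁ (ct (lf l)) hl
    have h3 : ∀ l', ¬ Inj (U₁.map (ct (lf l))) (lf l') := fun l' hl' =>
      hc2 l l' (inj_of_map hl hl')
    rcases VL.vl K1.k1 (k2 K1.k1) K 3 (by norm_num) _ h1 h3 (by omega) with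
      ⟨z, hz, hle⟩ | ⟨h, -⟩
    · exact ⟨z, hz, hle⟩
    · omega
  choose! z hz0 hz using key
  -- the rank of `z l`
  have hP : ∀ z' l : Fin 3 → K, z' ≠ 0 → DZ 3 z' ≤ U₁.map (ct (lf l)) →
      finrank K (U₁.map (ct (lf z' * lf l))) ≤ 1 := by
    intro z' l hz' hle
    have h1 := finrank_sub U₁ (DZ 3 z') (ct (lf l)) (ct (lf z')) hle fun x hx => hx.2
    rw [← ct_mul', finrank_DZ 3 hz', hd1] at h1
    omega
  -- two lines
  have two : ∀ l l' : Fin 3 → K, Inj U₁ (lf l) → Inj U₁ (lf l') →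
      LinearIndependent K ![z l, z l'] → LinearIndependent K ![z l, l'] →
      ¬ LinearIndependent K ![z l', l] := by
    intro l l' hl hl' h1 h2 h3
    have e1 : DZ 2 (z l) ≤ U₁.map (ct (lf l * lf l')) := by
      rw [← DZ_map h2, mul_comm, ct_mul', Submodule.map_comp]
      exact Submodule.map_mono (hz l hl)
    have e2 : DZ 2 (z l') ≤ U₁.map (ct (lf l * lf l')) := by
      rw [← DZ_map h3, ct_mul', Submodule.map_comp]
      exact Submodule.map_mono (hz l' hl')
    have e3 := finrank_DZ_sup (j := 2) h1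
    have e4 : ¬ finrank K U₁ ≤ finrank K (U₁.map (ct (lf l * lf l'))) := fun h =>
      hc2 l l' (inj_iff_rank.2 h)
    have hfm : FiniteDimensional K (U₁.map (ct (lf l * lf l'))) := K1.fd_map U₁ _
    have e5 : finrank K (DZ 2 (z l) ⊔ DZ 2 (z l') : Submodule K (D K)) ≤
        finrank K (U₁.map (ct (lf l * lf l'))) := Submodule.finrank_mono (sup_le e1 e2)
    omega
  -- a second base line
  obtain ⟨l1, hl1, hl01⟩ : ∃ l, Inj U₁ (lf l) ∧ LinearIndependent K ![l0, l] := by
    have hl00 : l0 ≠ 0 := by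
      rintro rfl
      have h5 : U₁ = ⊥ := by
        rw [eq_bot_iff]
        intro θ hθ
        rw [Submodule.mem_bot]
        refine hl0 θ hθ ?_
        rw [map_zero, ct_zero]
      rw [h5, finrank_bot] at hd1
      omega
    exact (inj_lopen U₁).exists_and li_lopen ⟨l0, hl0⟩ (exists_second hl00)
  have hz00 := hz0 l0 hl0
  have hz10 := hz0 l1 hl1
  -- one of the two lines is good for all `l`
  obtain ⟨y, hy, hy2⟩ : ∃ y : Fin 3 → K, y ≠ 0 ∧
      ∀ l, finrank K (U₁.map (ct (lf y * lf l))) ≤ 1 := by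
    by_contra hno
    push Not at hno
    have f0 := hno (z l0) hz00
    have f1 := hno (z l1) hz10
    have P1 := (inj_lopen U₁).and (li_lopen (a := z l0))
    have P2 := P1.and (li_lopen (a := z l1))
    have P3 := P2.and (rank_lopen U₁ (z l0) 2)
    have N1 := (inj_lopen U₁).exists_and (li_lopen (a := z l0)) ⟨l0, hl0⟩ (exists_second hz00)
    have N2 := P1.exists_and (li_lopen (a := z l1)) N1 (exists_second hz10)
    have N3 := P2.exists_and (rank_lopen U₁ (z l0) 2) N2 f0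
    obtain ⟨l, ⟨⟨⟨g1, g2⟩, g3⟩, g4⟩, g5⟩ := P3.exists_and (rank_lopen U₁ (z l1) 2) N3 f1
    have i0 : LinearIndependent K ![z l0, z l] := by
      by_contra hni
      have := hP (z l0) l hz00 (by
        rw [DZ_of_not_li hz00 (hz0 l g1) hni]
        exact hz l g1)
      omega
    have i1 : LinearIndependent K ![z l1, z l] := by
      by_contra hni
      have := hP (z l1) l hz10 (by
        rw [DZ_of_not_li hz10 (hz0 l g1) hni]
        exact hz l g1)
      omega
    obtain ⟨c0, e0⟩ := li_not (hz0 l g1) (two l0 l hl0 g1 i0 g2)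
    obtain ⟨c1, e1⟩ := li_not (hz0 l g1) (two l1 l hl1 g1 i1 g3)
    have hc1 : c1 ≠ 0 := by
      rintro rfl
      rw [zero_smul] at e1
      exact (hl01.ne_zero 1) e1
    have := hl01
    rw [LinearIndependent.pair_iff] at this
    have h9 := this c1 (-c0) (by
      rw [e0, e1]
      module)
    exact hc1 h9.1
  refine ⟨y, hy, ?_⟩
  have hE : U₁.map (ct (lf y)) ≤ Dj 3 := map_lf_le y hU1
  have h5 := VL.ker_add U₁ (ct (lf y))
  have h10 : finrank K (U₁.map (ct (lf y))) ≤ finrank K U₁ := Submodule.finrank_map_le _ U₁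
  have h7 := lemR (le_refl 3) hE (by omega) fun l => by
    rw [← Pool.Agent.T2.LC.map_mul]
    exact hy2 l
  omega

omit [CharZero K] in
/-- the image of the good part -/
theorem dz_of_good {U : Submodule K (D K)} (hU : U ≤ Dj 5) {l l' z : Fin 3 → K} (hz : z ≠ 0)
    (hi : Inj U (lf l * lf l')) (h4 : 4 ≤ finrank K (U.map (ct (lf l)) ⊓
      LinearMap.ker (ct (lf z)) : Submodule K (D K))) : DZ 3 z ≤ U.map (ct (lf l * lf l')) := by
  have hU1 : U.map (ct (lf l)) ≤ Dj 4 := map_lf_le l hU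
  set H := U.map (ct (lf l)) ⊓ LinearMap.ker (ct (lf z)) with hH
  have hHi : Inj H (lf l') := fun θ hθ h0 => inj_map hi θ hθ.1 h0
  have hH4 : H ≤ Dj 4 := inf_le_left.trans hU1
  have h1 : H.map (ct (lf l')) ≤ DZ 3 z := by
    rintro _ ⟨θ, hθ, rfl⟩
    refine ⟨ct_lf_mem l' (hH4 hθ), ?_⟩
    show ct (lf z) (ct (lf l') θ) = 0
    rw [ct_comm, hθ.2, map_zero]
  have h2 : H.map (ct (lf l')) = DZ 3 z := by
    refine Submodule.eq_of_le_of_finrank_le h1 ?_
    rw [finrank_DZ 3 hz, map_finrank_of_inj H (ct (lf l')) hHi]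
    exact h4
  rw [← h2, Pool.Agent.T2.LC.map_mul]
  exact Submodule.map_mono inf_le_left

theorem main (U : Submodule K (D K)) (hU : U ≤ Dj 5) (hdim : finrank K U = 5)
    (h3 : ∀ l : Fin 3 → K, l ≠ 0 → finrank K (U ⊓ LinearMap.ker (ct (lf l)) :
      Submodule K (D K)) ≤ 3) : ∃ l₁ l₂ l₃ : Fin 3 → K, Inj U (lf l₁ * lf l₂ * lf l₃) := by
  have hfU : FiniteDimensional K U := fd_of_le hU
  by_contra hcon
  push Not at hcon
  obtain ⟨l1, l2, h12⟩ := two U hU hdim h3
  obtain ⟨z, hz0, hz⟩ := good U hU hdim hcon l1 l2 h12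
  have hall : ∀ l, finrank K (U.map (ct (lf z * lf l))) ≤ 1 := by
    by_contra hno
    push Not at hno
    obtain ⟨l, g0, g2⟩ := (rank_lopen U l1 (finrank K U)).exists_and (rank_lopen U z 2)
      ⟨l2, inj_iff_rank.1 h12⟩ hno
    have g1 : Inj U (lf l1 * lf l) := inj_iff_rank.2 g0
    have g1' : Inj U (lf l * lf l1) := by rw [mul_comm]; exact g1
    obtain ⟨z', hz'0, hz'⟩ := good U hU hdim hcon l l1 g1'
    have e1 : DZ 3 z ≤ U.map (ct (lf l1 * lf l)) := dz_of_good hU hz0 g1 hz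
    have e2 : DZ 3 z' ≤ U.map (ct (lf l1 * lf l)) := by
      rw [mul_comm]
      exact dz_of_good hU hz'0 g1' hz'
    have hfm : FiniteDimensional K (U.map (ct (lf l1 * lf l))) := K1.fd_map U _
    have e3 : finrank K (DZ 3 z ⊔ DZ 3 z' : Submodule K (D K)) ≤
        finrank K (U.map (ct (lf l1 * lf l))) := Submodule.finrank_mono (sup_le e1 e2)
    have e4 : finrank K (U.map (ct (lf l1 * lf l))) ≤ finrank K U := Submodule.finrank_map_le _ U
    have hni : ¬ LinearIndependent K ![z, z'] := by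
      intro h
      have e5 := finrank_DZ_sup (j := 3) h
      omega
    obtain ⟨c, rfl⟩ := li_not hz0 hni
    have hc : c ≠ 0 := by
      rintro rfl
      exact hz'0 (zero_smul _ _)
    have e6 : LinearMap.ker (ct (lf (c • z))) = LinearMap.ker (ct (lf z)) := by
      ext θ
      rw [LinearMap.mem_ker, LinearMap.mem_ker, map_smul, ct_smul]
      exact smul_eq_zero_iff_right hc
    rw [e6] at hz'
    have hfm2 : FiniteDimensional K (U.map (ct (lf l))) := K1.fd_map U _
    have e7 := VL.ker_add (U.map (ct (lf l))) (ct (lf z))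
    have e8 : finrank K (U.map (ct (lf l))) ≤ finrank K U := Submodule.finrank_map_le _ U
    rw [← Pool.Agent.T2.LC.map_mul, mul_comm] at e7
    omega
  have hE : U.map (ct (lf z)) ≤ Dj 4 := map_lf_le z hU
  have h5 := VL.ker_add U (ct (lf z))
  have h10 : finrank K (U.map (ct (lf z))) ≤ finrank K U := Submodule.finrank_map_le _ U
  have h7 := lemR (by norm_num : 3 ≤ 4) hE (by omega) fun l => by
    rw [← Pool.Agent.T2.LC.map_mul]
    exact hall l
  have h8 := h3 z hz0
  omega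

/-- Sub-row A of row Q25. -/
theorem q25a : Pool.Agent.T2C.Q25.AStatement := fun _ _ _ U hU hdim h3 => main U hU hdim h3

end Pool.Agent.T2C.H65.Q25A
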