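import Pool.Agent.Lib.MP_c7af3c_ag.T2C.H65.Line
import Pool.Agent.Lib.MP_c7af3c_ag.T2C.IfaceA

/-!
# MP_c7af3c_ag, project T2C: row LINE, statement of the interface (helper65)
-/

set_option autoImplicit false

namespace Pool.Agent.T2C.H65

open MvPolynomial

/-- Row LINE. -/
theorem lineSt : LineStatement := by
  classical
  intro Ω _ _ k Γ _ S n c d D x j0 hn hs hd2 _ h y κ hxy hb hG
  refine line hn hs hd2 h hxy κ (fun p q => hb _ (Or.inl ⟨p, q, rfl⟩)) ?_ fun G hG0 h0 => ?_
  · intro m m' I hm hI
    refine hb _ (Or.inr ⟨Pi.single m (monomial I 1 * D.F m'), ?_, ?_, (VT_VT D x _).symm⟩)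
    · intro i
      by_cases hi : i = m
      · subst hi
        rw [Pi.single_eq_same]
        refine ⟨?_, fun J => ?_⟩
        · have h2 := (isHomogeneous_monomial (1 : Ω) hI).mul (D.hom m')
          rwa [Nat.sub_add_cancel hm] at h2
        · rw [coeff_monomial_mul']
          split_ifs
          · rw [one_mul]
            exact h.kF _ _
          · exact k.zero_mem
      · rw [Pi.single_eq_of_ne hi]
        exact ⟨isHomogeneous_zero _ _ _, fun J => by rw [coeff_zero]; exact k.zero_mem⟩
    · intro i
      by_cases hi : i = m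
      · subst hi
        rw [Pi.single_eq_same, map_mul, h.h0, mul_zero]
      · rw [Pi.single_eq_of_ne hi, map_zero]
  · rw [← VT_VT]
    exact hG G hG0 h0

end Pool.Agent.T2C.H65
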