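import Pool.Agent.Lib.MP_c7af3c_ag.T2C.H65.Nab

/-!
# MP_c7af3c_ag, project T2C (tuples): lines with a small variation space, part A (helper65)

`U` contains `x`, the `W_x` and the `V_x(G)`, `G` zero on the line `x y`. `a` is a linear form
with `a(x) = 0`, `a(y) = 1`.
-/

set_option autoImplicit false

namespace Pool.Agent.T2C.H65

open MvPolynomial Pool.Agent.Gen Pool.Agent.Sharp.H75 Pool.Agent.T2.H65 Module

section CB

variable {L : Type} [Field L] {n c : ℕ} {d : Fin c → ℕ} (D : DSys L n c d)
  (x a : Fin (n + 1) → L) (U : Submodule L (Fin (n + 1) → L))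

/-- the tuple `l H` -/
noncomputable def mulT (l : MvPolynomial (Fin (n + 1)) L) : Tup L n c →ₗ[L] Tup L n c :=
  LinearMap.pi fun m => (LinearMap.mulLeft L l).comp (LinearMap.proj m)

theorem mulT_apply (l : MvPolynomial (Fin (n + 1)) L) (H : Tup L n c) (m : Fin c) :
    mulT l H m = l * H m := rfl

/-- the tuple `dH/dv` -/
noncomputable def dvT (v : Fin (n + 1) → L) : Tup L n c →ₗ[L] Tup L n c :=
  LinearMap.pi fun m => (dv v).toLinearMap.comp (LinearMap.proj m)

theorem dvT_apply (v : Fin (n + 1) → L) (H : Tup L n c) (m : Fin c) :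
    dvT v H m = dv v (H m) := rfl

theorem dvT_add (u v : Fin (n + 1) → L) (H : Tup L n c) : dvT (u + v) H = dvT u H + dvT v H := by
  funext m
  exact dv_add u v (H m)

theorem dvT_smul (s : L) (v : Fin (n + 1) → L) (H : Tup L n c) :
    dvT (s • v) H = s • dvT v H := by
  funext m
  exact dv_smul s v (H m)

theorem dvT_zero (H : Tup L n c) : dvT (0 : Fin (n + 1) → L) H = 0 := by
  funext m
  exact dv_zero (H m)

/-- `g -> V_x(a (dG/dv))` modulo `U` -/
noncomputable def tv (v : Fin (n + 1) → L) : GE L n c →ₗ[L] ((Fin (n + 1) → L) ⧸ U) :=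
  U.mkQ.comp ((VT D x).comp ((mulT (lf a)).comp ((dvT v).comp (LinearMap.fst L _ _))))

theorem tv_apply (v : Fin (n + 1) → L) (g : GE L n c) :
    tv D x a U v g = U.mkQ (VT D x (mulT (lf a) (dvT v g.1))) := rfl

theorem tv_zero {v : Fin (n + 1) → L} {g : GE L n c} :
    tv D x a U v g = 0 ↔ VT D x (mulT (lf a) (dvT v g.1)) ∈ U := by
  rw [tv_apply, Submodule.mkQ_apply, Submodule.Quotient.mk_eq_zero]

/-- homogeneous tuples -/
noncomputable def HS (e : Fin c → ℕ) : Submodule L (Tup L n c) where
  carrier := {B | Hom e B}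
  add_mem' := fun ha hb m => (ha m).add (hb m)
  zero_mem' := fun _ => isHomogeneous_zero _ _ _
  smul_mem' := fun s _ hB m => (homogeneousSubmodule (Fin (n + 1)) L (e m)).smul_mem s (hB m)

theorem mem_HS {e : Fin c → ℕ} {B : Tup L n c} : B ∈ HS e ↔ Hom e B := Iff.rfl

/-- the values `V_x(a B)` modulo `U` -/
noncomputable def RR (e : Fin c → ℕ) : Submodule L ((Fin (n + 1) → L) ⧸ U) :=
  (HS e).map (U.mkQ.comp ((VT D x).comp (mulT (lf a))))

theorem mem_RR {e : Fin c → ℕ} {r : (Fin (n + 1) → L) ⧸ U} (h : r ∈ RR D x a U e) :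
    ∃ B : Tup L n c, Hom e B ∧ U.mkQ (VT D x (mulT (lf a) B)) = r := by
  obtain ⟨B, hB, h1⟩ := h
  exact ⟨B, hB, h1⟩

/-- the directions `v` for which `V_x(a (dH/dv))` is in `U` for the `h` in `I` with `f h = 0` -/
def VS {A : Type} [AddCommGroup A] [Module L A] (f : GE L n c →ₗ[L] A)
    (I : Submodule L (GE L n c)) : Submodule L (Fin (n + 1) → L) where
  carrier := {v | ∀ h ∈ I, f h = 0 → VT D x (mulT (lf a) (dvT v h.1)) ∈ U}
  add_mem' := by
    intro u v hu hv h hI hf
    rw [dvT_add, map_add, map_add]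
    exact U.add_mem (hu h hI hf) (hv h hI hf)
  zero_mem' := by
    intro h _ _
    rw [dvT_zero, map_zero, map_zero]
    exact U.zero_mem
  smul_mem' := by
    intro s v hv h hI hf
    rw [dvT_smul, map_smul, map_smul]
    exact U.smul_mem _ (hv h hI hf)

variable {e : Fin c → ℕ} (he : ∀ m, d m = e m + 1)

include he in
theorem mulT_hom {l : Fin (n + 1) → L} {B : Tup L n c} (hB : Hom e B) :
    Hom d (mulT (lf l) B) := by
  intro m
  rw [he]
  exact lfm_hom l (hB m)

include he in
theorem dvT_hom {B : Tup L n c} (hB : Hom d B) (v : Fin (n + 1) → L) : Hom e (dvT v B) := by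
  intro m
  have h := hB m
  rw [he] at h
  exact dv_hom h v

include he in
/-- the count for the brackets -/
theorem cb {A : Type} [AddCommGroup A] [Module L A] [FiniteDimensional L A]
    (f : GE L n c →ₗ[L] A) (I : Submodule L (GE L n c)) (Pi : Submodule L (Fin (n + 1) → L))
    {r : ℕ} (P : Fin r → Fin (n + 1) → L)
    (hV : ∀ G : Tup L n c, Hom d G → (∀ m, rst P (G m) = 0) → VT D x G ∈ U)
    (hP : ∀ i, P i ∈ Pi)
    (hI : ∀ u : Fin (n + 1) → L, (∀ v ∈ Pi, dt u v = 0) →
      ∀ B : Tup L n c, Hom e B → ((mulT (lf u) B, 0, 0) : GE L n c) ∈ I) :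
    finrank L ((VS D x a U f I).map Pi.mkQ) * finrank L (RR D x a U e) ≤ finrank L (I.map f) := by
  classical
  set W := (VS D x a U f I).map Pi.mkQ with hW
  set b := finrank L W with hb
  let bs : Basis (Fin b) L W := Module.finBasis L W
  have h1 : ∀ i, ∃ v ∈ VS D x a U f I, Pi.mkQ v = (bs i : (Fin (n + 1) → L) ⧸ Pi) := fun i =>
    Submodule.mem_map.1 (bs i).2
  choose v hv hvb using h1
  have hli : LinearIndependent L fun i => Pi.mkQ (v i) := by
    simp only [hvb]
    exact bs.linearIndependent.map' W.subtype (Submodule.ker_subtype W)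
  obtain ⟨u, hu0, hu1⟩ := exists_forms Pi v hli
  let T : GE L n c →ₗ[L] (Fin b → (Fin (n + 1) → L) ⧸ U) :=
    LinearMap.pi fun i => tv D x a U (v i)
  have hT : ∀ g i, T g i = tv D x a U (v i) g := fun _ _ => rfl
  have h2 : finrank L (I.map T) ≤ finrank L (I.map f) := by
    refine rank_le f T I fun m hm hf => ?_
    funext i
    rw [hT, _root_.Pi.zero_apply, tv_zero]
    exact hv i m hm hf
  refine le_trans (rank_pi T I (RR D x a U e) fun r hr => ?_) h2
  choose B hB hBr using fun i => mem_RR D x a U (hr i)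
  refine ⟨∑ i, (mulT (lf (u i)) (B i), 0, 0),
    Submodule.sum_mem _ fun i _ => hI _ (hu0 i) _ (hB i), ?_⟩
  funext j
  rw [hT, tv_apply, ← hBr j, ← sub_eq_zero, ← map_sub, ← map_sub, Submodule.mkQ_apply,
    Submodule.Quotient.mk_eq_zero]
  have hfst : (∑ i, ((mulT (lf (u i)) (B i), 0, 0) : GE L n c)).1 =
      ∑ i, mulT (lf (u i)) (B i) := by
    rw [Prod.fst_sum]
  rw [hfst]
  have hrst : ∀ i, rst P (lf (u i)) = 0 := by
    intro i
    rw [rst_lf]
    refine Finset.sum_eq_zero fun k _ => ?_
    rw [hu0 i (P k) (hP k), C_0, zero_mul]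
  refine hV _ ?_ ?_
  · have h3 : Hom d (∑ i, mulT (lf (u i)) (B i)) := by
      refine (mem_HS (L := L) (e := d)).1 ?_
      refine Submodule.sum_mem _ fun i _ => ?_
      exact mulT_hom he (hB i)
    refine (mem_HS (L := L) (e := d)).1 (Submodule.sub_mem _ ?_ ?_)
    · exact mulT_hom he (dvT_hom he h3 (v j))
    · exact mulT_hom he (hB j)
  · intro m
    rw [_root_.Pi.sub_apply, mulT_apply, mulT_apply, dvT_apply, Finset.sum_apply]
    simp only [mulT_apply]
    rw [map_sub, map_mul, map_mul, map_sum, map_sum]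
    have h6 : ∀ i, rst P (dv (v j) (lf (u i) * B i m)) = if i = j then rst P (B i m) else 0 := by
      intro i
      rw [Derivation.leibniz, smul_eq_mul, smul_eq_mul, map_add, map_mul, map_mul, hrst i,
        zero_mul, zero_add, dv_lf, rst_C, hu1]
      split_ifs <;> simp
    simp only [h6]
    rw [Finset.sum_ite_eq' Finset.univ j, if_pos (Finset.mem_univ _), sub_self]

include he in
/-- the values `V_x(a B)`: the rank is at least `n + 1 - c - dim U` -/
theorem finrank_RR {y : Fin (n + 1) → L} {j0 : Fin (n + 1)} (hj : x j0 = 1)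
    (hxy : LinearIndependent L ![x, y]) (ha0 : dt a x = 0) (ha1 : dt a y = 1)
    (hW : ∀ E : Fin (n + 1) → Fin (n + 1) → L, nv D x (0, E, 0) ∈ U)
    (hV : ∀ G : Tup L n c, Hom d G → (∀ m, rst ![x, y] (G m) = 0) → VT D x G ∈ U) :
    n + 1 ≤ finrank L (RR D x a U e) + finrank L U + c := by
  classical
  -- the tangent space
  let φ : (Fin (n + 1) → L) →ₗ[L] (Fin c → L) :=
    { toFun := fun v m => eval x (dv v (D.F m))
      map_add' := fun u v => by funext m; rw [dv_add, map_add]; rfl
      map_smul' := fun s v => by funext m; rw [dv_smul, smul_eval]; rfl }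
  have hφ : ∀ v m, φ v m = eval x (dv v (D.F m)) := fun _ _ => rfl
  have h1 : n + 1 ≤ finrank L (LinearMap.ker φ) + c := by
    have h2 := φ.finrank_range_add_finrank_ker
    have h3 : finrank L (LinearMap.range φ) ≤ c := by
      have := Submodule.finrank_le (LinearMap.range φ)
      rwa [Module.finrank_fintype_fun_eq_card, Fintype.card_fin] at this
    rw [Module.finrank_fintype_fun_eq_card, Fintype.card_fin] at h2
    omega
  have h2 : (LinearMap.ker φ).map U.mkQ ≤ RR D x a U e := by
    rintro _ ⟨v, hv, rfl⟩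
    have hv0 : ∀ m, eval x (dv v (D.F m)) = 0 := fun m => by
      rw [← hφ, LinearMap.mem_ker.1 hv]; rfl
    -- the matrix
    let E : Fin (n + 1) → Fin (n + 1) → L := fun p q => if q = j0 then v p else 0
    have hE : ∀ p z, dt (E p) z = v p * z j0 := by
      intro p z
      unfold dt
      simp [E]
    have haf : ∀ m, af E (D.F m) = X j0 * dv v (D.F m) := by
      intro m
      unfold af
      rw [dv_eq, Finset.mul_sum]
      refine Finset.sum_congr rfl fun p _ => ?_
      have : (lf (E p) : MvPolynomial (Fin (n + 1)) L) = C (v p) * X j0 := by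
        unfold lf
        rw [Finset.sum_eq_single j0]
        · simp [E]
        · intro q _ hq
          simp [E, hq]
        · intro h; exact absurd (Finset.mem_univ _) h
      rw [this]
      ring
    have h3 := hW E
    have h4 : nv D x ((0 : Tup L n c), E, (0 : MB L n c)) = VT D x (afT D.F E) + v := by
      have hGF : GF D ((0 : Tup L n c), E, (0 : MB L n c)) = afT D.F E := by
        funext m
        rw [GF_apply, afT_apply]
        simp
      funext p
      rw [nv_apply, hE, hj, mul_one, Pi.add_apply, nD_apply, hGF]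
    rw [h4] at h3
    -- the form vanishes at `x`
    set H : Tup L n c := afT D.F E with hH
    have hHh : Hom d H := fun m => af_hom E (D.hom m)
    have hHx : ∀ m, eval x (H m) = 0 := by
      intro m
      rw [hH, afT_apply, haf, map_mul, hv0 m, mul_zero]
    have hex : ∀ m, ∃ B : MvPolynomial (Fin (n + 1)) L, B.IsHomogeneous (e m) ∧
        rst ![x, y] (lf a * B) = rst ![x, y] (H m) := by
      intro m
      -- divide by `X 1`
      have hx0 : eval ![1, 0] (rst ![x, y] (H m)) = 0 := by
        have h5 : ((eval (![1, 0] : Fin 2 → L)).comp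
            ((rst ![x, y]) : MvPolynomial (Fin (n + 1)) L →+* MvPolynomial (Fin 2) L)) =
            eval x := by
          apply MvPolynomial.ringHom_ext
          · intro r
            simp
          · intro i
            simp [rst_X]
        have h6 := congrArg (fun f : MvPolynomial (Fin (n + 1)) L →+* L => f (H m)) h5
        exact h6.trans (hHx m)
      have hHm : (H m).IsHomogeneous (e m + 1) := by
        rw [← he]
        exact hHh m
      obtain ⟨q', hq', hq1⟩ := div_X1 (rst_hom ![x, y] hHm) hx0
      obtain ⟨B, hB, hBr⟩ := rst_surj ![x, y] hxy hq'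
      refine ⟨B, hB, ?_⟩
      rw [map_mul, hBr, ← hq1, rst_lf, Fin.sum_univ_two]
      simp [ha0, ha1]
    choose B hB hBr using hex
    have h5 : VT D x (H - mulT (lf a) B) ∈ U := by
      refine hV _ ?_ ?_
      · exact (mem_HS (L := L) (e := d)).1 (Submodule.sub_mem _ hHh (mulT_hom he hB))
      · intro m
        rw [_root_.Pi.sub_apply, mulT_apply, map_sub, hBr, sub_self]
    refine Submodule.mem_map.2 ⟨-B, ?_, ?_⟩
    · exact Submodule.neg_mem _ hB
    · change U.mkQ (VT D x (mulT (lf a) (-B))) = U.mkQ v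
      rw [← sub_eq_zero, ← map_sub, Submodule.mkQ_apply, Submodule.Quotient.mk_eq_zero]
      have h7 := U.sub_mem h5 h3
      have h8 : VT D x (mulT (lf a) (-B)) - v =
          VT D x (H - mulT (lf a) B) - (VT D x H + v) := by
        rw [map_sub, map_neg, map_neg]
        abel
      rw [h8]
      exact h7
  have h3 := Submodule.finrank_mono h2
  have h4 := (U.mkQ.domRestrict (LinearMap.ker φ)).finrank_range_add_finrank_ker
  rw [LinearMap.range_domRestrict] at h4
  have h5 : finrank L (LinearMap.ker (U.mkQ.domRestrict (LinearMap.ker φ))) ≤ finrank L U := by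
    let j : LinearMap.ker (U.mkQ.domRestrict (LinearMap.ker φ)) →ₗ[L] U :=
      { toFun := fun z => ⟨z.1.1, by
          have := LinearMap.mem_ker.1 z.2
          rwa [LinearMap.domRestrict_apply, Submodule.mkQ_apply,
            Submodule.Quotient.mk_eq_zero] at this⟩
        map_add' := fun _ _ => rfl
        map_smul' := fun _ _ => rfl }
    refine LinearMap.finrank_le_finrank_of_injective (f := j) ?_
    intro z w hzw
    apply Subtype.ext
    apply Subtype.ext
    exact congrArg (fun u : U => (u : Fin (n + 1) → L)) hzw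
  omega

end CB

end Pool.Agent.T2C.H65
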