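import Pool.Agent.Lib.MP_c7af3c_ag.T2C.H65.A

/-!
# MP_c7af3c_ag, project T2C (tuples): lines with a small variation space, part B (helper65)

The brackets: if `V(I_l)`, the `W` and the `V(B F)` are in a space `U = <x, kappa>` then either the
variation space of the line is small or there is a direction `e0` (the plane) such that the triples
which fix the point and the line are those with `V_x(a dH/de0)` in `U`, and those with `dH/de0 = 0`
on the line fix the plane.
-/

set_option autoImplicit false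

namespace Pool.Agent.T2C.H65

open MvPolynomial Pool.Agent.Gen Pool.Agent.Sharp.H75 Pool.Agent.T2.H65 Module

section

variable {L : Type} [Field L] {n c : ℕ} {d : Fin c → ℕ} (D : DSys L n c d)

/-- homogeneous triples with a tuple which is zero on the space of `P` -/
noncomputable def IP {r : ℕ} (d : Fin c → ℕ) (P : Fin r → Fin (n + 1) → L) :
    Submodule L (GE L n c) where
  carrier := {g | Gd d g ∧ ∀ m, rst P (g.1 m) = 0}
  add_mem' := by
    rintro g h ⟨⟨hg1, hg2⟩, hg3⟩ ⟨⟨hh1, hh2⟩, hh3⟩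
    refine ⟨⟨fun m => (hg1 m).add (hh1 m), fun m m' => ⟨(hg2 m m').1.add (hh2 m m').1, ?_⟩⟩, ?_⟩
    · intro hm
      change g.2.2 m m' + h.2.2 m m' = 0
      rw [(hg2 m m').2 hm, (hh2 m m').2 hm, add_zero]
    · intro m
      change rst P (g.1 m + h.1 m) = 0
      rw [map_add, hg3, hh3, add_zero]
  zero_mem' := ⟨⟨fun _ => isHomogeneous_zero _ _ _, fun _ _ => ⟨isHomogeneous_zero _ _ _,
    fun _ => rfl⟩⟩, fun _ => map_zero _⟩
  smul_mem' := by
    rintro s g ⟨⟨hg1, hg2⟩, hg3⟩
    refine ⟨⟨fun m => (homogeneousSubmodule _ L _).smul_mem s (hg1 m),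
      fun m m' => ⟨(homogeneousSubmodule _ L _).smul_mem s (hg2 m m').1, ?_⟩⟩, ?_⟩
    · intro hm
      change s • g.2.2 m m' = 0
      rw [(hg2 m m').2 hm, smul_zero]
    · intro m
      change rst P (s • g.1 m) = 0
      rw [rst_smul, hg3, smul_zero]

theorem mem_IP {r : ℕ} {P : Fin r → Fin (n + 1) → L} {g : GE L n c} :
    g ∈ IP d P ↔ Gd d g ∧ ∀ m, rst P (g.1 m) = 0 := Iff.rfl

theorem BH_zero : BH d (0 : MB L n c) := fun _ _ => ⟨isHomogeneous_zero _ _ _, fun _ => rfl⟩

theorem Gd_left {G : Tup L n c} (hG : Hom d G) : Gd d ((G, 0, 0) : GE L n c) :=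
  ⟨hG, BH_zero⟩

variable (x y : Fin (n + 1) → L)

/-- the action on the flag of the point and the line -/
noncomputable def ff : GE L n c →ₗ[L] ((Fin (n + 1) → L) ⧸ Submodule.span L {x}) ×
    ((Fin (n + 1) → L) ⧸ Submodule.span L (Set.range ![x, y])) :=
  ((Submodule.span L {x}).mkQ.comp (nv D x)).prod
    ((Submodule.span L (Set.range ![x, y])).mkQ.comp (nv D y))

theorem ff_eq_zero {g : GE L n c} : ff D x y g = 0 ↔
    nv D x g ∈ Submodule.span L {x} ∧ nv D y g ∈ Submodule.span L (Set.range ![x, y]) := by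
  have h : ff D x y g = ((Submodule.span L {x}).mkQ (nv D x g),
    (Submodule.span L (Set.range ![x, y])).mkQ (nv D y g)) := rfl
  rw [h, Prod.mk_eq_zero, Submodule.mkQ_apply, Submodule.mkQ_apply,
    Submodule.Quotient.mk_eq_zero, Submodule.Quotient.mk_eq_zero]

variable {x y}

theorem stab_x {g : GE L n c} (h : nv D x g ∈ Submodule.span L {x}) :
    Stab D g (Submodule.span L {x}) := by
  refine stab_span D fun v hv => ?_
  rw [Set.mem_singleton_iff] at hv
  rw [hv]
  exact h

theorem stab_l {g : GE L n c} (h : nv D x g ∈ Submodule.span L {x})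
    (h' : nv D y g ∈ Submodule.span L (Set.range ![x, y])) :
    Stab D g (Submodule.span L (Set.range ![x, y])) := by
  refine stab_span D ?_
  rintro v ⟨i, rfl⟩
  fin_cases i
  · exact span_x_le h
  · exact h'

variable {U : Submodule L (Fin (n + 1) → L)} {a : Fin (n + 1) → L} {e : Fin c → ℕ}

/-- a triple which fixes `x` has its `V_x` in `U` -/
theorem V_mem (hxU : x ∈ U)
    (hW : ∀ (E : Fin (n + 1) → Fin (n + 1) → L) (B : MB L n c), BH d B → nv D x (0, E, B) ∈ U)
    {g : GE L n c} (hgd : BH d g.2.2) (hg : nv D x g ∈ Submodule.span L {x}) :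
    VT D x g.1 ∈ U := by
  have h1 : g = (g.1, 0, 0) + (0, g.2.1, g.2.2) := by
    rw [Prod.mk_add_mk, add_zero]
    refine Prod.ext rfl ?_
    change g.2 = 0 + (g.2.1, g.2.2)
    rw [zero_add]
  have h2 : nv D x g = VT D x g.1 + nv D x (0, g.2.1, g.2.2) := by
    conv_lhs => rw [h1]
    rw [map_add, nv_zero_right]
  have h3 : nv D x g ∈ U := by
    have : Submodule.span L {x} ≤ U := by
      rw [Submodule.span_singleton_le_iff_mem]
      exact hxU
    exact this hg
  rw [h2] at h3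
  have h4 := U.sub_mem h3 (hW g.2.1 g.2.2 hgd)
  rwa [add_sub_cancel_right] at h4

/-- the first bracket -/
theorem bracket1 (hc : Lines.Comm D) (he : ∀ m, d m = e m + 1) (ha0 : dt a x = 0)
    (ha1 : dt a y = 1) (hxU : x ∈ U)
    (hW : ∀ (E : Fin (n + 1) → Fin (n + 1) → L) (B : MB L n c), BH d B → nv D x (0, E, B) ∈ U)
    (hV : ∀ G : Tup L n c, Hom d G → (∀ m, rst ![x, y] (G m) = 0) → VT D x G ∈ U)
    {g h : GE L n c} (hg : g ∈ IP d ![x, y]) (hh : h ∈ IP d ![x, y])
    (hgx : nv D x g ∈ Submodule.span L {x}) (hhf : ff D x y h = 0) :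
    VT D x (mulT (lf a) (dvT (nv D y g) h.1)) ∈ U := by
  rw [mem_IP] at hg hh
  rw [ff_eq_zero] at hhf
  have hKd := br_Gd D hg.1 hh.1
  have hK := stab_br D hc hg.1 hh.1 (stab_x D hgx) (stab_x D hhf.1) x
    (Submodule.mem_span_singleton_self x)
  have h1 := V_mem D hxU hW hKd.2 hK
  rw [br_fst] at h1
  have h2 : ∀ m, rst ![x, y] (nT D h g.1 m) = 0 := by
    intro m
    rw [nT_apply, map_sub, rst_bT hg.2 m, sub_zero]
    refine rst_nF_zero D (hg.2 m) fun i => ?_
    fin_cases i
    · exact span_x_le hhf.1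
    · exact hhf.2
  have h3 : ∀ m, rst ![x, y] (nT D g h.1 m) =
      - (X 1 * rst ![x, y] (dv (nv D y g) (h.1 m))) := by
    intro m
    rw [nT_apply, map_sub, rst_bT hh.2 m, sub_zero]
    refine rst_nF_one D (hh.2 m) 1 fun i hi => ?_
    fin_cases i
    · exact span_x_le hgx
    · exact absurd rfl hi
  have h4 : VT D x (nT D g h.1 - nT D h g.1 + mulT (lf a) (dvT (nv D y g) h.1)) ∈ U := by
    refine hV _ ?_ ?_
    · exact (mem_HS (L := L) (e := d)).1 (Submodule.add_mem _ (Submodule.sub_mem _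
        (nT_hom D hg.1.2 hh.1.1) (nT_hom D hh.1.2 hg.1.1)) (mulT_hom he (dvT_hom he hh.1.1 _)))
    · intro m
      rw [_root_.Pi.add_apply, _root_.Pi.sub_apply, mulT_apply, dvT_apply, map_add, map_sub, h2, h3,
        map_mul, rst_a ha0 ha1]
      ring
  rw [map_add] at h4
  have h5 := U.sub_mem h4 h1
  rwa [add_sub_cancel_left] at h5

/-- the second bracket -/
theorem bracket2 (hc : Lines.Comm D) (he : ∀ m, d m = e m + 1)
    (hV : ∀ G : Tup L n c, Hom d G → (∀ m, rst ![x, y] (G m) = 0) → VT D x G ∈ U)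
    {e0 : Fin (n + 1) → L}
    (hN : ∀ h ∈ IP d ![x, y], ff D x y h = 0 ↔ VT D x (mulT (lf a) (dvT e0 h.1)) ∈ U)
    {g h : GE L n c} (hg : g ∈ IP d ![x, y]) (hh : h ∈ IP d ![x, y])
    (hge : ∀ m, rst ![x, y] (dv e0 (g.1 m)) = 0) (hhe : ∀ m, rst ![x, y] (dv e0 (h.1 m)) = 0)
    (hhf : nv D e0 h ∈ Submodule.span L (Set.range ![x, y, e0])) :
    VT D x (mulT (lf a) (dvT (nv D e0 g) h.1)) ∈ U := by
  have hfix : ∀ g ∈ IP d ![x, y], (∀ m, rst ![x, y] (dv e0 (g.1 m)) = 0) → ff D x y g = 0 := by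
    intro g hg hge
    rw [hN g hg]
    rw [mem_IP] at hg
    refine hV _ (mulT_hom he (dvT_hom he hg.1.1 _)) fun m => ?_
    rw [mulT_apply, dvT_apply, map_mul, hge, mul_zero]
  have hgf := hfix g hg hge
  have hhf' := hfix h hh hhe
  rw [ff_eq_zero] at hgf hhf'
  rw [mem_IP] at hg hh
  have hgi : ∀ i, nv D (![x, y] i) g ∈ Submodule.span L (Set.range ![x, y]) := by
    intro i
    fin_cases i
    · exact span_x_le hgf.1
    · exact hgf.2
  have hhi : ∀ i, nv D (![x, y] i) h ∈ Submodule.span L (Set.range ![x, y]) := by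
    intro i
    fin_cases i
    · exact span_x_le hhf'.1
    · exact hhf'.2
  -- the bracket
  set K := br D g h with hK
  have hKd : Gd d K := br_Gd D hg.1 hh.1
  have hK0 : ∀ m, rst ![x, y] (K.1 m) = 0 := by
    intro m
    rw [hK, br_fst, _root_.Pi.sub_apply, nT_apply, nT_apply, map_sub, map_sub, map_sub,
      rst_bT hh.2 m, rst_bT hg.2 m, rst_nF_zero D (hh.2 m) hgi, rst_nF_zero D (hg.2 m) hhi]
    simp
  have hKf : ff D x y K = 0 := by
    rw [ff_eq_zero]
    exact ⟨stab_br D hc hg.1 hh.1 (stab_x D hgf.1) (stab_x D hhf'.1) x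
      (Submodule.mem_span_singleton_self x),
      stab_br D hc hg.1 hh.1 (stab_l D hgf.1 hgf.2) (stab_l D hhf'.1 hhf'.2) y y_mem2⟩
  have h1 := (hN K ⟨hKd, hK0⟩).1 hKf
  have h2 : ∀ m, rst ![x, y] (dv e0 (K.1 m)) = - rst ![x, y] (dv (nv D e0 g) (h.1 m)) := by
    intro m
    rw [hK, br_fst, _root_.Pi.sub_apply, nT_apply, nT_apply, map_sub, map_sub, map_sub, map_sub,
      map_sub, map_sub, rst_dv_bT hh.2 hhe m, rst_dv_bT hg.2 hge m, rst_dv_nF D (hhe m) hgi,
      rst_dv_nF D (hge m) hhi]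
    have h3 : rst ![x, y] (dv (nv D e0 h) (g.1 m)) = 0 := by
      have h4 : ∀ v ∈ Submodule.span L (Set.range ![x, y, e0]),
          rst ![x, y] (dv v (g.1 m)) = 0 := by
        intro v hv
        induction hv using Submodule.span_induction with
        | mem v hv =>
          obtain ⟨i, rfl⟩ := hv
          fin_cases i
          · exact rst_dv_of_mem _ (hg.2 m) x_mem2
          · exact rst_dv_of_mem _ (hg.2 m) y_mem2
          · exact hge m
        | zero => rw [dv_zero, map_zero]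
        | add u v _ _ hu hv => rw [dv_add, map_add, hu, hv, add_zero]
        | smul c v _ hv => rw [dv_smul, rst_smul, hv, smul_zero]
      exact h4 _ hhf
    rw [h3]
    ring
  have h4 : VT D x (mulT (lf a) (dvT e0 K.1) + mulT (lf a) (dvT (nv D e0 g) h.1)) ∈ U := by
    refine hV _ ?_ ?_
    · exact (mem_HS (L := L) (e := d)).1 (Submodule.add_mem _ (mulT_hom he (dvT_hom he hKd.1 _))
        (mulT_hom he (dvT_hom he hh.1.1 _)))
    · intro m
      rw [_root_.Pi.add_apply, mulT_apply, mulT_apply, dvT_apply, dvT_apply, map_add, map_mul,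
        map_mul, h2]
      ring
  rw [map_add] at h4
  have h5 := U.sub_mem h4 h1
  rwa [add_sub_cancel_left] at h5

/-- the main statement on the brackets -/
theorem exists_e0 (hc : Lines.Comm D) (he : ∀ m, d m = e m + 1) (ha0 : dt a x = 0)
    (ha1 : dt a y = 1) {κ : Fin (n + 1) → L} (hU : U = Submodule.span L {x, κ})
    (hW : ∀ (E : Fin (n + 1) → Fin (n + 1) → L) (B : MB L n c), BH d B → nv D x (0, E, B) ∈ U)
    (hV : ∀ G : Tup L n c, Hom d G → (∀ m, rst ![x, y] (G m) = 0) → VT D x G ∈ U)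
    (hR : 2 ≤ finrank L (RR D x a U e))
    (hρ : 2 ≤ finrank L ((IP d ![x, y]).map (ff D x y))) :
    ∃ e0 : Fin (n + 1) → L, e0 ∉ Submodule.span L (Set.range ![x, y]) ∧
      finrank L ((IP d ![x, y]).map (ff D x y)) ≤ 2 ∧
      (∀ h ∈ IP d ![x, y], ff D x y h = 0 ↔ VT D x (mulT (lf a) (dvT e0 h.1)) ∈ U) ∧
      (∀ h ∈ IP d ![x, y], (∀ m, rst ![x, y] (dv e0 (h.1 m)) = 0) →
        nv D e0 h ∈ Submodule.span L (Set.range ![x, y, e0])) ∧
      2 ≤ finrank L ((IP d ![x, y]).map (tv D x a U e0)) := by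
  classical
  have hxU : x ∈ U := by
    rw [hU]
    exact Submodule.subset_span (Set.mem_insert _ _)
  -- rank of the first component
  have hr1 : finrank L ((IP d ![x, y]).map ((Submodule.span L {x}).mkQ.comp (nv D x))) ≤ 1 := by
    have h1 : (IP d ![x, y]).map ((Submodule.span L {x}).mkQ.comp (nv D x)) ≤
        Submodule.span L {(Submodule.span L {x}).mkQ κ} := by
      rintro _ ⟨g, hg, rfl⟩
      have hg' := mem_IP.1 hg
      have h2 : nv D x g ∈ U := by
        have h3 : g = (g.1, 0, 0) + (0, g.2.1, g.2.2) := by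
          rw [Prod.mk_add_mk, add_zero]
          refine Prod.ext rfl ?_
          change g.2 = 0 + (g.2.1, g.2.2)
          rw [zero_add]
        rw [h3, map_add, nv_zero_right]
        exact U.add_mem (hV _ hg'.1.1 hg'.2) (hW _ _ hg'.1.2)
      rw [hU, Submodule.mem_span_pair] at h2
      obtain ⟨s, t, hst⟩ := h2
      rw [Submodule.mem_span_singleton]
      refine ⟨t, ?_⟩
      rw [LinearMap.comp_apply, ← hst, map_add, map_smul, map_smul]
      have : (Submodule.span L {x}).mkQ x = 0 := by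
        rw [Submodule.mkQ_apply, Submodule.Quotient.mk_eq_zero]
        exact Submodule.mem_span_singleton_self x
      rw [this, smul_zero, zero_add]
    refine le_trans (Submodule.finrank_mono h1) ?_
    exact finrank_span_one _
  -- the directions
  have hP2 : ∀ i, ![x, y] i ∈ Submodule.span L (Set.range ![x, y]) :=
    fun i => Submodule.subset_span ⟨i, rfl⟩
  have hru : ∀ u : Fin (n + 1) → L, (∀ v ∈ Submodule.span L (Set.range ![x, y]), dt u v = 0) →
      rst ![x, y] (lf u) = 0 := by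
    intro u hu
    rw [rst_lf]
    refine Finset.sum_eq_zero fun i _ => ?_
    rw [hu _ (hP2 i), C_0, zero_mul]
  have hcb := cb D x a U he (ff D x y) (IP d ![x, y]) (Submodule.span L (Set.range ![x, y]))
    ![x, y] hV hP2 (by
    intro u hu B hB
    refine mem_IP.2 ⟨Gd_left (mulT_hom he hB), fun m => ?_⟩
    change rst ![x, y] (mulT (lf u) B m) = 0
    rw [mulT_apply, map_mul, hru u hu, zero_mul])
  have hle : ((IP d ![x, y]) ⊓ LinearMap.ker ((Submodule.span L {x}).mkQ.comp (nv D x))).map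
      ((Submodule.span L (Set.range ![x, y])).mkQ.comp (nv D y)) ≤
      (VS D x a U (ff D x y) (IP d ![x, y])).map (Submodule.span L (Set.range ![x, y])).mkQ := by
    rintro _ ⟨g, ⟨hg, hg1⟩, rfl⟩
    refine Submodule.mem_map.2 ⟨nv D y g, ?_, rfl⟩
    intro h hh hhf
    have hgx : nv D x g ∈ Submodule.span L {x} := by
      have := LinearMap.mem_ker.1 hg1
      rwa [LinearMap.comp_apply, Submodule.mkQ_apply, Submodule.Quotient.mk_eq_zero] at this
    exact bracket1 D hc he ha0 ha1 hxU hW hV hg hh hgx hhf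
  have hb := Submodule.finrank_mono hle
  have hpair := rank_pair ((Submodule.span L {x}).mkQ.comp (nv D x))
    ((Submodule.span L (Set.range ![x, y])).mkQ.comp (nv D y)) (IP d ![x, y])
  rw [show ((Submodule.span L {x}).mkQ.comp (nv D x)).prod
    ((Submodule.span L (Set.range ![x, y])).mkQ.comp (nv D y)) = (ff D x y) from rfl] at hpair
  set ρ := finrank L ((IP d ![x, y]).map (ff D x y)) with hρdef
  set β := finrank L (((IP d ![x, y]) ⊓ LinearMap.ker ((Submodule.span L {x}).mkQ.comp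
    (nv D x))).map ((Submodule.span L (Set.range ![x, y])).mkQ.comp (nv D y)))
    with hβ
  have hβ2 : β * 2 ≤ ρ := by
    refine le_trans ?_ hcb
    exact Nat.mul_le_mul hb hR
  have hβ1 : β = 1 := by omega
  have hρ2 : ρ = 2 := by omega
  -- the direction `e0`
  obtain ⟨e0, he0, hVS⟩ : ∃ e0, e0 ∉ Submodule.span L (Set.range ![x, y]) ∧
      e0 ∈ VS D x a U (ff D x y) (IP d ![x, y]) := by
    by_contra hne
    push Not at hne
    have h0 : (VS D x a U (ff D x y) (IP d ![x, y])).map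
        (Submodule.span L (Set.range ![x, y])).mkQ = ⊥ := by
      rw [Submodule.eq_bot_iff]
      rintro _ ⟨v, hv, rfl⟩
      rw [Submodule.mkQ_apply, Submodule.Quotient.mk_eq_zero]
      by_contra hv2
      exact hne v hv2 hv
    rw [h0, finrank_bot] at hb
    omega
  -- the rank of `tv e0`
  have htv : ρ ≤ finrank L ((IP d ![x, y]).map (tv D x a U e0)) := by
    rw [hρ2]
    refine le_trans hR (Submodule.finrank_mono ?_)
    intro r hr
    obtain ⟨B, hB, hBr⟩ := mem_RR D x a U hr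
    have hli : LinearIndependent L
        fun i => (Submodule.span L (Set.range ![x, y])).mkQ ((fun _ : Fin 1 => e0) i) := by
      rw [linearIndependent_unique_iff, Ne, Submodule.mkQ_apply, Submodule.Quotient.mk_eq_zero]
      exact he0
    obtain ⟨u, hu0, hu1⟩ := exists_forms (Submodule.span L (Set.range ![x, y]))
      (fun _ : Fin 1 => e0) hli
    refine ⟨(mulT (lf (u 0)) B, 0, 0), ?_, ?_⟩
    · refine mem_IP.2 ⟨Gd_left (mulT_hom he hB), fun m => ?_⟩
      change rst ![x, y] (mulT (lf (u 0)) B m) = 0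
      rw [mulT_apply, map_mul, hru (u 0) (hu0 0), zero_mul]
    · rw [tv_apply, ← hBr, ← sub_eq_zero, ← map_sub, ← map_sub, Submodule.mkQ_apply,
        Submodule.Quotient.mk_eq_zero]
      refine hV _ ((mem_HS (L := L) (e := d)).1 (Submodule.sub_mem _
        (mulT_hom he (dvT_hom he (mulT_hom he hB) _)) (mulT_hom he hB))) fun m => ?_
      have h6 := hu1 0 0
      rw [if_pos rfl] at h6
      have h7 : rst ![x, y] (dv e0 (lf (u 0) * B m)) = rst ![x, y] (B m) := by
        rw [Derivation.leibniz, smul_eq_mul, smul_eq_mul, map_add,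
          map_mul, map_mul, dv_lf, rst_C, hru (u 0) (hu0 0), h6, C_1]
        ring
      rw [_root_.Pi.sub_apply, mulT_apply, mulT_apply, dvT_apply]
      change rst ![x, y] (lf a * dv e0 (lf (u 0) * B m) - lf a * B m) = 0
      rw [map_sub, map_mul, h7, map_mul, sub_self]
  have hN : ∀ h ∈ (IP d ![x, y]), (ff D x y) h = 0 ↔ VT D x (mulT (lf a) (dvT e0 h.1)) ∈ U := by
    intro h hh
    constructor
    · intro hf0
      exact hVS h hh hf0
    · intro h1
      refine ker_of_rank (ff D x y) (tv D x a U e0) (IP d ![x, y]) (fun m hm hm0 => ?_) htv h hh ?_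
      · rw [tv_zero]
        exact hVS m hm hm0
      · rw [tv_zero]
        exact h1
  refine ⟨e0, he0, hρ2.le, hN, ?_, hρ2 ▸ htv⟩
  -- the plane
  set S3 := Submodule.span L (Set.range ![x, y, e0]) with hS3
  let q : GE L n c →ₗ[L] (Fin c → MvPolynomial (Fin 2) L) :=
    LinearMap.pi fun m => (rst ![x, y]).toLinearMap.comp ((LinearMap.proj m).comp
      ((dvT e0).comp (LinearMap.fst L _ _)))
  have hq : ∀ g m, q g m = rst ![x, y] (dv e0 (g.1 m)) := fun _ _ => rfl
  let M1 : Submodule L (GE L n c) := (IP d ![x, y]) ⊓ LinearMap.ker q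
  have hM1 : ∀ g, g ∈ M1 ↔ g ∈ (IP d ![x, y]) ∧ ∀ m, rst ![x, y] (dv e0 (g.1 m)) = 0 := by
    intro g
    constructor
    · rintro ⟨h1, h2⟩
      exact ⟨h1, fun m => by rw [← hq, LinearMap.mem_ker.1 h2]; rfl⟩
    · rintro ⟨h1, h2⟩
      exact ⟨h1, LinearMap.mem_ker.2 (by funext m; exact h2 m)⟩
  let Y : GE L n c →ₗ[L] ((Fin (n + 1) → L) ⧸ S3) := S3.mkQ.comp (nv D e0)
  have hY : ∀ g, Y g = 0 ↔ nv D e0 g ∈ S3 := by
    intro g
    change S3.mkQ (nv D e0 g) = 0 ↔ _
    rw [Submodule.mkQ_apply, Submodule.Quotient.mk_eq_zero]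
  have hx3 : x ∈ S3 := Submodule.subset_span ⟨0, rfl⟩
  have hy3 : y ∈ S3 := Submodule.subset_span ⟨1, rfl⟩
  have he3 : e0 ∈ S3 := Submodule.subset_span ⟨2, rfl⟩
  have hcb2 := cb D x a U he Y M1 S3 ![x, y] hV (by
      intro i
      fin_cases i
      · exact hx3
      · exact hy3) (by
    intro u hu B hB
    have hru : rst ![x, y] (lf u) = 0 := by
      rw [rst_lf, Fin.sum_univ_two]
      have e1 : dt u (![x, y] 0) = 0 := hu _ hx3
      have e2 : dt u (![x, y] 1) = 0 := hu _ hy3
      rw [e1, e2]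
      simp
    refine (hM1 _).2 ⟨mem_IP.2 ⟨Gd_left (mulT_hom he hB), fun m => ?_⟩, fun m => ?_⟩
    · change rst ![x, y] (mulT (lf u) B m) = 0
      rw [mulT_apply, map_mul, hru, zero_mul]
    · change rst ![x, y] (dv e0 (mulT (lf u) B m)) = 0
      rw [mulT_apply, Derivation.leibniz, smul_eq_mul, smul_eq_mul, map_add, map_mul, map_mul,
        dv_lf, hu _ he3, hru]
      simp)
  have hle2 : M1.map Y ≤ (VS D x a U Y M1).map S3.mkQ := by
    rintro _ ⟨g, hg, rfl⟩
    refine Submodule.mem_map.2 ⟨nv D e0 g, ?_, rfl⟩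
    intro h hh hhf
    have hg' := (hM1 g).1 hg
    have hh' := (hM1 h).1 hh
    exact bracket2 D hc he hV hN hg'.1 hh'.1 hg'.2 hh'.2 ((hY h).1 hhf)
  have hb2 := Submodule.finrank_mono hle2
  have h0 : finrank L (M1.map Y) = 0 := by
    have h1 : finrank L (M1.map Y) * 2 ≤ finrank L (M1.map Y) :=
      le_trans (Nat.mul_le_mul hb2 hR) hcb2
    omega
  intro h hh hhe
  rw [← hY]
  exact zero_of_rank Y M1 h0 h ((hM1 h).2 ⟨hh, hhe⟩)

end

end Pool.Agent.T2C.H65
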