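import Pool.Agent.Lib.MP_c7af3c_ag.T2C.H65.B

/-!
# MP_c7af3c_ag, project T2C (tuples): lines with a small variation space, part C (helper65)

Three tuples which fix the point and the line have dependent restrictions to the line; three
tuples which vanish on the line and fix the point, the line and the plane have dependent
derivatives in the direction of the plane.
-/

set_option autoImplicit false

namespace Pool.Agent.T2C.H65

open MvPolynomial Pool.Agent.Gen Pool.Agent.Sharp.H75 Pool.Agent.T2.H65 Module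

section

variable {L : Type} [Field L] {n c : ℕ} {d : Fin c → ℕ} (D : DSys L n c d)
  {x y : Fin (n + 1) → L}

theorem nv_GF (z : Fin (n + 1) → L) (g : GE L n c) :
    nv D z (GF D g, 0, 0) = nv D z g - mvL z g.2.1 := by
  rw [nv_zero_right]
  have : nv D z g = VT D z (GF D g) + mvL z g.2.1 := rfl
  rw [this, add_sub_cancel_right]

theorem finrank_quotn (S : Submodule L (Fin (n + 1) → L)) :
    finrank L ((Fin (n + 1) → L) ⧸ S) + finrank L S = n + 1 := by
  have := S.finrank_quotient_add_finrank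
  rw [Module.finrank_fintype_fun_eq_card, Fintype.card_fin] at this
  omega

theorem finrank_spanr {r : ℕ} (P : Fin r → Fin (n + 1) → L) :
    finrank L (Submodule.span L (Set.range P)) ≤ r := by
  have := finrank_range_le_card (R := L) P
  rwa [Fintype.card_fin, Set.finrank] at this

/-- the coefficients of a tuple of binary forms of degrees `d m` -/
noncomputable def coT (L : Type) [Field L] {c : ℕ} (d : Fin c → ℕ) :
    (Fin c → MvPolynomial (Fin 2) L) →ₗ[L] ((m : Fin c) → (Fin (d m + 1) → L)) :=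
  LinearMap.pi fun m => (coB L (d m)).comp (LinearMap.proj m)

theorem coT_apply (q : Fin c → MvPolynomial (Fin 2) L) (m : Fin c) :
    coT L d q m = coB L (d m) (q m) := rfl

theorem coT_zero {q : Fin c → MvPolynomial (Fin 2) L} (hq : ∀ m, (q m).IsHomogeneous (d m))
    (h : coT L d q = 0) (m : Fin c) : q m = 0 :=
  coB_zero (hq m) (by rw [← coT_apply, h]; rfl)

theorem finrank_coT : finrank L ((m : Fin c) → (Fin (d m + 1) → L)) = ∑ m, (d m + 1) := by
  rw [Module.finrank_pi_fintype]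
  simp

/-- the restriction of a tuple -/
noncomputable def rstT {r : ℕ} (P : Fin r → Fin (n + 1) → L) :
    Tup L n c →ₗ[L] (Fin c → MvPolynomial (Fin r) L) :=
  LinearMap.pi fun m => (rst P).toLinearMap.comp (LinearMap.proj m)

theorem rstT_apply {r : ℕ} (P : Fin r → Fin (n + 1) → L) (G : Tup L n c) (m : Fin c) :
    rstT P G m = rst P (G m) := rfl

/-- the action of tuples on the flag -/
theorem ff_GF {E : Fin (n + 1) → Fin (n + 1) → L} {B : MB L n c}
    (h : ff D x y (0, E, B) = 0) (hx : mvL x E ∈ Submodule.span L {x})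
    (hy : mvL y E ∈ Submodule.span L (Set.range ![x, y])) :
    ff D x y (GF D (0, E, B), 0, 0) = 0 := by
  rw [ff_eq_zero] at h ⊢
  rw [nv_GF, nv_GF]
  exact ⟨Submodule.sub_mem _ h.1 hx, Submodule.sub_mem _ h.2 hy⟩

/-- three tuples which fix the flag -/
theorem rel1 (hnum : ∑ m, (d m + 1) + 1 ≤ 2 * n) (hxy : LinearIndependent L ![x, y])
    (hE : ∀ (E : Fin (n + 1) → Fin (n + 1) → L) (B : MB L n c), BH d B → ff D x y (0, E, B) = 0)
    (hr : finrank L ((IP d ![x, y]).map (ff D x y)) ≤ 2)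
    (G : Fin 3 → Tup L n c) (hG : ∀ i, Hom d (G i)) (hf : ∀ i, ff D x y (G i, 0, 0) = 0) :
    ∃ g : Fin 3 → L, (∃ i, g i ≠ 0) ∧ ∀ m, ∑ i, g i • rst ![x, y] (G i m) = 0 := by
  classical
  obtain ⟨φ, hφ⟩ := rst_dual ![x, y] hxy
  have hφ00 : dt (φ 0) x = 1 := by have := hφ 0 0; simpa using this
  have hφ01 : dt (φ 0) y = 0 := by have := hφ 0 1; simpa using this
  have hφ10 : dt (φ 1) x = 0 := by have := hφ 1 0; simpa using this
  have hφ11 : dt (φ 1) y = 1 := by have := hφ 1 1; simpa using this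
  let S : Submodule L (Tup L n c) := HS d
  let f1 : Tup L n c →ₗ[L] ((Fin (n + 1) → L) ⧸ Submodule.span L {x}) ×
    ((Fin (n + 1) → L) ⧸ Submodule.span L (Set.range ![x, y])) :=
    (ff D x y).comp (LinearMap.inl L _ _)
  have hf1 : ∀ G, f1 G = ff D x y (G, 0, 0) := fun _ => rfl
  let r' : Tup L n c →ₗ[L] ((m : Fin c) → (Fin (d m + 1) → L)) := (coT L d).comp (rstT ![x, y])
  have hr' : ∀ G, r' G = coT L d (rstT ![x, y] G) := fun _ => rfl
  have hrc := rank_pair_comm f1 r' S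
  -- the values on `E * F`
  have hval : ∀ E : Fin (n + 1) → Fin (n + 1) → L, f1 (GF D (0, E, 0)) =
      - ((Submodule.span L {x}).mkQ (mvL x E),
        (Submodule.span L (Set.range ![x, y])).mkQ (mvL y E)) := by
    intro E
    have h1 := (ff_eq_zero D x y).1 (hE E 0 BH_zero)
    have h2 : f1 (GF D (0, E, 0)) =
        ((Submodule.span L {x}).mkQ (nv D x (GF D (0, E, 0), 0, 0)),
          (Submodule.span L (Set.range ![x, y])).mkQ (nv D y (GF D (0, E, 0), 0, 0))) := rfl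
    rw [h2, nv_GF, nv_GF, map_sub, map_sub]
    have h3 : (Submodule.span L {x}).mkQ (nv D x (0, E, 0)) = 0 := by
      rw [Submodule.mkQ_apply, Submodule.Quotient.mk_eq_zero]
      exact h1.1
    have h4 : (Submodule.span L (Set.range ![x, y])).mkQ (nv D y (0, E, 0)) = 0 := by
      rw [Submodule.mkQ_apply, Submodule.Quotient.mk_eq_zero]
      exact h1.2
    rw [h3, h4, zero_sub, zero_sub]
    rfl
  have h1 : 2 * n ≤ finrank L (S.map f1) + 1 := by
    have htop : S.map f1 = ⊤ := by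
      rw [Submodule.eq_top_iff']
      rintro ⟨α, β⟩
      obtain ⟨α, rfl⟩ := Submodule.mkQ_surjective _ α
      obtain ⟨β, rfl⟩ := Submodule.mkQ_surjective _ β
      refine Submodule.mem_map.2 ⟨-(GF D (0, ten (φ 0) α + ten (φ 1) β, 0)), ?_, ?_⟩
      · refine S.neg_mem ?_
        exact GF_hom D ⟨fun _ => isHomogeneous_zero _ _ _, BH_zero⟩
      · rw [map_neg, hval, neg_neg, map_add (mvL x), map_add (mvL y), mvL_ten, mvL_ten, mvL_ten,
          mvL_ten, hφ00, hφ01, hφ10, hφ11]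
        simp
    rw [htop, finrank_top, Module.finrank_prod]
    have e1 := finrank_quotn (Submodule.span L {x})
    have e2 := finrank_quotn (Submodule.span L (Set.range ![x, y]))
    have e3 := finrank_span_one (L := L) x
    have e4 := finrank_spanr (L := L) ![x, y]
    omega
  have h2 : finrank L (S.map r') ≤ ∑ m, (d m + 1) := by
    have := Submodule.finrank_le (S.map r')
    rwa [finrank_coT] at this
  have h3 : finrank L ((S ⊓ LinearMap.ker r').map f1) ≤ 2 := by
    refine le_trans (Submodule.finrank_mono ?_) hr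
    rintro _ ⟨G, ⟨hG, hG1⟩, rfl⟩
    refine Submodule.mem_map.2 ⟨(G, 0, 0), mem_IP.2 ⟨Gd_left hG, fun m => ?_⟩, rfl⟩
    exact coT_zero (fun m => rst_hom _ (hG m)) (LinearMap.mem_ker.1 hG1) m
  have h4 : finrank L ((S ⊓ LinearMap.ker f1).map r') ≤ 2 := by omega
  have hmem : ∀ i, r' (G i) ∈ (S ⊓ LinearMap.ker f1).map r' := fun i =>
    Submodule.mem_map_of_mem ⟨hG i, LinearMap.mem_ker.2 (hf i)⟩
  obtain ⟨g, hg, hgi⟩ := dep3 _ h4 _ hmem
  refine ⟨g, hgi, fun m => ?_⟩
  have h5 : r' (∑ i, g i • G i) = 0 := by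
    rw [map_sum, ← hg]
    exact Finset.sum_congr rfl fun i _ => by rw [map_smul]
  have h6 : (∑ i, g i • G i) ∈ S := Submodule.sum_mem _ fun i _ => S.smul_mem _ (hG i)
  have h7 := coT_zero (fun m => rst_hom ![x, y] (h6 m)) h5 m
  rw [Finset.sum_apply, map_sum] at h7
  rw [← h7]
  refine Finset.sum_congr rfl fun i _ => ?_
  rw [_root_.Pi.smul_apply, rst_smul]

/-- three tuples which vanish on the line and fix the flag and the plane -/
theorem rel2 {U : Submodule L (Fin (n + 1) → L)} {a : Fin (n + 1) → L} {e : Fin c → ℕ}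
    (he : ∀ m, d m = e m + 1) (hnum : ∑ m, d m ≤ n + 2)
    (hV : ∀ G : Tup L n c, Hom d G → (∀ m, rst ![x, y] (G m) = 0) → VT D x G ∈ U)
    {e0 : Fin (n + 1) → L} (he0 : e0 ∉ Submodule.span L (Set.range ![x, y]))
    (hN : ∀ h ∈ IP d ![x, y], ff D x y h = 0 ↔ VT D x (mulT (lf a) (dvT e0 h.1)) ∈ U)
    (hM : ∀ h ∈ IP d ![x, y], (∀ m, rst ![x, y] (dv e0 (h.1 m)) = 0) →
      nv D e0 h ∈ Submodule.span L (Set.range ![x, y, e0]))
    (htv : 2 ≤ finrank L ((IP d ![x, y]).map (tv D x a U e0)))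
    (hE : ∀ (E : Fin (n + 1) → Fin (n + 1) → L) (B : MB L n c), BH d B → ff D x y (0, E, B) = 0)
    (G : Fin 3 → Tup L n c) (hG : ∀ i, Hom d (G i)) (hG0 : ∀ i m, rst ![x, y] (G i m) = 0)
    (hf : ∀ i, ff D x y (G i, 0, 0) = 0)
    (hG1 : ∀ i, nv D e0 (G i, 0, 0) ∈ Submodule.span L (Set.range ![x, y, e0])) :
    ∃ g : Fin 3 → L, (∃ i, g i ≠ 0) ∧ ∀ m, ∑ i, g i • rst ![x, y] (dv e0 (G i m)) = 0 := by
  classical
  -- the form `u`
  obtain ⟨u, hu0, hu1⟩ : ∃ u : Fin (n + 1) → L,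
      (∀ w ∈ Submodule.span L (Set.range ![x, y]), dt u w = 0) ∧ dt u e0 = 1 := by
    have hli : LinearIndependent L
        fun i => (Submodule.span L (Set.range ![x, y])).mkQ ((fun _ : Fin 1 => e0) i) := by
      rw [linearIndependent_unique_iff, Ne, Submodule.mkQ_apply, Submodule.Quotient.mk_eq_zero]
      exact he0
    obtain ⟨u, hu0, hu1⟩ := exists_forms _ (fun _ : Fin 1 => e0) hli
    have := hu1 0 0
    rw [if_pos rfl] at this
    exact ⟨u 0, hu0 0, this⟩
  have hux : dt u x = 0 := hu0 _ x_mem2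
  have huy : dt u y = 0 := hu0 _ y_mem2
  have hru : rst ![x, y] (lf u) = 0 := by
    rw [rst_lf, Fin.sum_univ_two]
    simp [hux, huy]
  let τ : GE L n c →ₗ[L] ((m : Fin c) → (Fin (e m + 1) → L)) :=
    (coT L e).comp ((rstT ![x, y]).comp ((dvT e0).comp (LinearMap.fst L _ _)))
  have hτ : ∀ g : GE L n c, τ g = coT L e (rstT ![x, y] (dvT e0 g.1)) := fun g => rfl
  have hτ0 : ∀ g ∈ IP (L := L) (n := n) d ![x, y], τ g = 0 →
      ∀ m, rst ![x, y] (dv e0 (g.1 m)) = 0 := by
    intro g hg h m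
    exact coT_zero (fun m => rst_hom _ (dvT_hom he (mem_IP.1 hg).1.1 e0 m)) h m
  let Y : GE L n c →ₗ[L] ((Fin (n + 1) → L) ⧸ Submodule.span L (Set.range ![x, y, e0])) :=
    (Submodule.span L (Set.range ![x, y, e0])).mkQ.comp (nv D e0)
  have hY : ∀ g, Y g = (Submodule.span L (Set.range ![x, y, e0])).mkQ (nv D e0 g) := fun g => rfl
  have hY0 : ∀ g, Y g = 0 ↔ nv D e0 g ∈ Submodule.span L (Set.range ![x, y, e0]) := by
    intro g
    rw [hY, Submodule.mkQ_apply, Submodule.Quotient.mk_eq_zero]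
  -- the ranks
  have hr1 := rank_pair_comm τ (tv D x a U e0) (IP d ![x, y])
  have z1 : (IP d ![x, y] ⊓ LinearMap.ker τ).map (tv D x a U e0) = ⊥ := by
    rw [Submodule.eq_bot_iff]
    rintro _ ⟨m, ⟨hm, hm1⟩, rfl⟩
    rw [tv_zero]
    refine hV _ (mulT_hom he (dvT_hom he (mem_IP.1 hm).1.1 _)) fun k => ?_
    rw [mulT_apply, dvT_apply, map_mul, hτ0 m hm (LinearMap.mem_ker.1 hm1), mul_zero]
  have k1 : (IP d ![x, y] ⊓ LinearMap.ker (tv D x a U e0)) =
      IP d ![x, y] ⊓ LinearMap.ker (ff D x y) := by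
    ext g
    constructor
    · rintro ⟨hg, hg1⟩
      refine ⟨hg, LinearMap.mem_ker.2 ((hN g hg).2 ?_)⟩
      exact (tv_zero D x a U).1 (LinearMap.mem_ker.1 hg1)
    · rintro ⟨hg, hg1⟩
      refine ⟨hg, LinearMap.mem_ker.2 ((tv_zero D x a U).2 ?_)⟩
      exact (hN g hg).1 (LinearMap.mem_ker.1 hg1)
  rw [z1, finrank_bot, k1] at hr1
  have hτ6 : finrank L ((IP d ![x, y]).map τ) ≤ n + 2 := by
    have h1 := Submodule.finrank_le ((IP d ![x, y]).map τ)
    rw [finrank_coT] at h1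
    refine le_trans h1 (le_trans (le_of_eq ?_) hnum)
    exact Finset.sum_congr rfl fun m _ => (he m).symm
  set N0 := IP d ![x, y] ⊓ LinearMap.ker (ff D x y) with hN0
  have hr2 := rank_pair_comm Y τ N0
  have z2 : (N0 ⊓ LinearMap.ker τ).map Y = ⊥ := by
    rw [Submodule.eq_bot_iff]
    rintro _ ⟨m, ⟨⟨hm, _⟩, hm1⟩, rfl⟩
    rw [hY0]
    exact hM m hm (hτ0 m hm (LinearMap.mem_ker.1 hm1))
  rw [z2, finrank_bot] at hr2
  -- the elements `h_v`
  have hGten : ∀ v : Fin (n + 1) → L, GF D (0, ten u v, 0) = mulT (lf u) (dvT v D.F) := by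
    intro v
    funext m
    rw [GF_apply, mulT_apply, dvT_apply, ← af_ten]
    simp
  have hvI : ∀ v : Fin (n + 1) → L, ((GF D (0, ten u v, 0), 0, 0) : GE L n c) ∈ N0 := by
    intro v
    have hmem : ((GF D (0, ten u v, 0), 0, 0) : GE L n c) ∈ IP (L := L) (n := n) d ![x, y] := by
      refine mem_IP.2 ⟨Gd_left (GF_hom D ⟨fun _ => isHomogeneous_zero _ _ _, BH_zero⟩),
        fun m => ?_⟩
      change rst ![x, y] (GF D (0, ten u v, 0) m) = 0
      rw [hGten, mulT_apply, map_mul, hru, zero_mul]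
    refine ⟨hmem, LinearMap.mem_ker.2 (ff_GF D (hE _ _ BH_zero) ?_ ?_)⟩
    · rw [mvL_ten, hux, zero_smul]
      exact Submodule.zero_mem _
    · rw [mvL_ten, huy, zero_smul]
      exact Submodule.zero_mem _
  have hE0 : ∀ E : Fin (n + 1) → Fin (n + 1) → L,
      nv D e0 (0, E, 0) ∈ Submodule.span L (Set.range ![x, y, e0]) := by
    intro E
    refine hM (0, E, 0) (mem_IP.2 ⟨⟨fun _ => isHomogeneous_zero _ _ _, BH_zero⟩,
      fun _ => map_zero _⟩) fun m => ?_
    change rst ![x, y] (dv e0 0) = 0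
    rw [map_zero, map_zero]
  have hvY : ∀ v : Fin (n + 1) → L, Y (GF D (0, ten u v, 0), 0, 0) =
      - (Submodule.span L (Set.range ![x, y, e0])).mkQ v := by
    intro v
    rw [hY, nv_GF, mvL_ten, hu1, one_smul, map_sub]
    have : (Submodule.span L (Set.range ![x, y, e0])).mkQ (nv D e0 (0, ten u v, 0)) = 0 := by
      rw [Submodule.mkQ_apply, Submodule.Quotient.mk_eq_zero]
      exact hE0 _
    rw [this, zero_sub]
  have hYr : n + 1 ≤ finrank L (N0.map Y) + 3 := by
    have htop : N0.map Y = ⊤ := by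
      rw [Submodule.eq_top_iff']
      intro α
      obtain ⟨α, rfl⟩ := Submodule.mkQ_surjective _ α
      refine Submodule.mem_map.2 ⟨-(GF D (0, ten u α, 0), 0, 0), N0.neg_mem (hvI α), ?_⟩
      rw [map_neg, hvY, neg_neg]
    rw [htop, finrank_top]
    have e1 := finrank_quotn (Submodule.span L (Set.range ![x, y, e0]))
    have e2 := finrank_spanr (L := L) ![x, y, e0]
    omega
  have h2 : finrank L ((N0 ⊓ LinearMap.ker Y).map τ) ≤ 2 := by omega
  have hmem : ∀ k, τ (G k, 0, 0) ∈ (N0 ⊓ LinearMap.ker Y).map τ := by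
    intro k
    refine Submodule.mem_map_of_mem ⟨⟨mem_IP.2 ⟨Gd_left (hG k), hG0 k⟩,
      LinearMap.mem_ker.2 (hf k)⟩, LinearMap.mem_ker.2 ?_⟩
    rw [hY0]
    exact hG1 k
  obtain ⟨g, hg, hgi⟩ := dep3 _ h2 _ hmem
  refine ⟨g, hgi, fun m => ?_⟩
  have h6 : (∑ i, g i • G i) ∈ HS d := Submodule.sum_mem _ fun i _ => (HS d).smul_mem _ (hG i)
  have h5 : coT L e (rstT ![x, y] (dvT e0 (∑ i, g i • G i))) = 0 := by
    rw [map_sum, map_sum, map_sum, ← hg]
    refine Finset.sum_congr rfl fun i _ => ?_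
    rw [map_smul, map_smul, map_smul]
    rfl
  have h7 := coT_zero (fun m => rst_hom ![x, y] (dvT_hom he h6 e0 m)) h5 m
  rw [map_sum, Finset.sum_apply, map_sum] at h7
  rw [← h7]
  refine Finset.sum_congr rfl fun i _ => ?_
  rw [map_smul, _root_.Pi.smul_apply, rst_smul]
  rfl

end

end Pool.Agent.T2C.H65
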