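import Pool.Agent.Lib.MP_c7af3c_ag.T2C.H65.C

/-!
# MP_c7af3c_ag, project T2C (tuples): lines with a small variation space, part C2 (helper65)

The relations of part C in terms of binary forms.
-/

set_option autoImplicit false

namespace Pool.Agent.T2C.H65

open MvPolynomial Pool.Agent.Gen Pool.Agent.Sharp.H75 Pool.Agent.T2.H65 Module

section

variable {L : Type} [Field L] {n c : ℕ} {d : Fin c → ℕ}

/-- a matrix with given values on independent vectors -/
theorem exists_E {r : ℕ} {P : Fin r → Fin (n + 1) → L} (hP : LinearIndependent L P)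
    (w : Fin r → Fin (n + 1) → L) :
    ∃ E : Fin (n + 1) → Fin (n + 1) → L, ∀ i, mvL (P i) E = w i := by
  classical
  obtain ⟨Q, hQ⟩ := rst_dual P hP
  refine ⟨∑ i, ten (Q i) (w i), fun j => ?_⟩
  rw [map_sum, Finset.sum_eq_single j]
  · rw [mvL_ten, hQ, if_pos rfl, one_smul]
  · intro i _ hi
    rw [mvL_ten, hQ, if_neg hi, zero_smul]
  · intro h
    exact absurd (Finset.mem_univ _) h

/-- binary forms as forms constant in the direction `e` -/
theorem exists_lift {x y e : Fin (n + 1) → L} (h : LinearIndependent L ![x, y, e]) :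
    ∃ l : MvPolynomial (Fin 2) L →ₐ[L] MvPolynomial (Fin (n + 1)) L,
      (∀ q k, q.IsHomogeneous k → (l q).IsHomogeneous k) ∧ (∀ q, rst ![x, y] (l q) = q) ∧
      ∀ q, dv e (l q) = 0 := by
  classical
  obtain ⟨Q, hQ⟩ := rst_dual ![x, y, e] h
  have h00 : dt (Q 0) x = 1 := by have := hQ 0 0; simpa using this
  have h01 : dt (Q 0) y = 0 := by have := hQ 0 1; simpa using this
  have h02 : dt (Q 0) e = 0 := by have := hQ 0 2; simpa using this
  have h10 : dt (Q 1) x = 0 := by have := hQ 1 0; simpa using this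
  have h11 : dt (Q 1) y = 1 := by have := hQ 1 1; simpa using this
  have h12 : dt (Q 1) e = 0 := by have := hQ 1 2; simpa using this
  refine ⟨aeval ![lf (Q 0), lf (Q 1)], ?_, ?_, ?_⟩
  · intro q k hq
    have h := hq.aeval ![lf (Q 0), lf (Q 1)] (n := 1) fun i => by
      fin_cases i
      · exact lf_hom _
      · exact lf_hom _
    rwa [one_mul] at h
  · intro q
    have h : (rst ![x, y]).comp (aeval ![lf (Q 0), lf (Q 1)]) = AlgHom.id L _ := by
      apply MvPolynomial.algHom_ext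
      intro i
      rw [AlgHom.comp_apply, aeval_X, AlgHom.id_apply]
      fin_cases i
      · change rst ![x, y] (lf (Q 0)) = X 0
        rw [rst_lf, Fin.sum_univ_two]
        simp [h00, h01]
      · change rst ![x, y] (lf (Q 1)) = X 1
        rw [rst_lf, Fin.sum_univ_two]
        simp [h10, h11]
    exact AlgHom.congr_fun h q
  · intro q
    induction q using MvPolynomial.induction_on with
    | C a =>
      rw [aeval_C]
      exact Derivation.map_algebraMap _ _
    | add p q hp hq => rw [map_add, map_add, hp, hq, add_zero]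
    | mul_X p i hp =>
      rw [map_mul, Derivation.leibniz, hp, smul_zero, add_zero, aeval_X]
      fin_cases i
      · change _ • dv e (lf (Q 0)) = 0
        rw [dv_lf, h02, C_0, smul_zero]
      · change _ • dv e (lf (Q 1)) = 0
        rw [dv_lf, h12, C_0, smul_zero]

/-- the operator `a_0 X_0 d/dX_0 + a_1 X_1 d/dX_0 + a_2 X_1 d/dX_1` -/
noncomputable def op (a : Fin 3 → L) (q : MvPolynomial (Fin 2) L) : MvPolynomial (Fin 2) L :=
  C (a 0) * (X 0 * pderiv 0 q) + C (a 1) * (X 1 * pderiv 0 q) + C (a 2) * (X 1 * pderiv 1 q)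

/-- graded matrices of binary forms -/
def B2 (d : Fin c → ℕ) (β : Fin c → Fin c → MvPolynomial (Fin 2) L) : Prop :=
  ∀ m m', (β m m').IsHomogeneous (d m - d m') ∧ (d m < d m' → β m m' = 0)

/-- the facts on the frame `x, y, e` -/
structure Frm (D : DSys L n c d) (x y e : Fin (n + 1) → L) : Prop where
  ind : LinearIndependent L ![x, y, e]
  hE : ∀ (E : Fin (n + 1) → Fin (n + 1) → L) (B : MB L n c), BH d B → ff D x y (0, E, B) = 0
  hE0 : ∀ (E : Fin (n + 1) → Fin (n + 1) → L) (B : MB L n c), BH d B →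
    nv D e (0, E, B) ∈ Submodule.span L (Set.range ![x, y, e])
  r1 : ∀ (G : Fin 3 → Tup L n c), (∀ i, Hom d (G i)) → (∀ i, ff D x y (G i, 0, 0) = 0) →
    ∃ g : Fin 3 → L, (∃ i, g i ≠ 0) ∧ ∀ m, ∑ i, g i • rst ![x, y] (G i m) = 0
  r2 : ∀ (G : Fin 3 → Tup L n c), (∀ i, Hom d (G i)) → (∀ i m, rst ![x, y] (G i m) = 0) →
    (∀ i, ff D x y (G i, 0, 0) = 0) →
    (∀ i, nv D e (G i, 0, 0) ∈ Submodule.span L (Set.range ![x, y, e])) →
    ∃ g : Fin 3 → L, (∃ i, g i ≠ 0) ∧ ∀ m, ∑ i, g i • rst ![x, y] (dv e (G i m)) = 0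

variable {D : DSys L n c d} {x y e : Fin (n + 1) → L}

theorem rst_afE {E : Fin (n + 1) → Fin (n + 1) → L} {a : Fin 3 → L}
    (hx : mvL x E = a 0 • x) (hy : mvL y E = a 1 • x + a 2 • y)
    (H : MvPolynomial (Fin (n + 1)) L) : rst ![x, y] (af E H) = op a (rst ![x, y] H) := by
  rw [rst_af, Fin.sum_univ_two]
  have h0 : rst ![x, y] (dv x H) = pderiv 0 (rst ![x, y] H) := by rw [pderiv_rst]; rfl
  have h1 : rst ![x, y] (dv y H) = pderiv 1 (rst ![x, y] H) := by rw [pderiv_rst]; rfl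
  change X 0 * rst ![x, y] (dv (mvL x E) H) + X 1 * rst ![x, y] (dv (mvL y E) H) = _
  rw [hx, hy, dv_add, dv_smul, dv_smul, dv_smul, map_add, rst_smul, rst_smul, rst_smul, h0, h1]
  unfold op
  simp only [smul_eq_C_mul]
  ring

theorem exists_lifts (h : LinearIndependent L ![x, y, e]) (a b : Fin 3 → L)
    {β : Fin c → Fin c → MvPolynomial (Fin 2) L} (hβ : B2 d β) :
    ∃ (E : Fin (n + 1) → Fin (n + 1) → L) (B : MB L n c), BH d B ∧
      mvL x E = a 0 • x ∧ mvL y E = a 1 • x + a 2 • y ∧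
      mvL e E = b 0 • x + b 1 • y + b 2 • e ∧
      (∀ H : Tup L n c, ∀ m, rst ![x, y] (∑ m', B m m' * H m') =
        ∑ m', β m m' * rst ![x, y] (H m')) ∧
      ∀ H : Tup L n c, ∀ m, rst ![x, y] (dv e (∑ m', B m m' * H m')) =
        ∑ m', β m m' * rst ![x, y] (dv e (H m')) := by
  obtain ⟨E, hE⟩ := exists_E h ![a 0 • x, a 1 • x + a 2 • y, b 0 • x + b 1 • y + b 2 • e]
  obtain ⟨l, hl1, hl2, hl3⟩ := exists_lift h
  refine ⟨E, fun m m' => l (β m m'), fun m m' => ⟨hl1 _ _ (hβ m m').1, fun hm => ?_⟩,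
    hE 0, hE 1, hE 2, fun H m => ?_, fun H m => ?_⟩
  · change l (β m m') = 0
    rw [(hβ m m').2 hm, map_zero]
  · rw [map_sum]
    refine Finset.sum_congr rfl fun m' _ => ?_
    rw [map_mul, hl2]
  · rw [map_sum, map_sum]
    refine Finset.sum_congr rfl fun m' _ => ?_
    rw [Derivation.leibniz, hl3, smul_zero, add_zero, smul_eq_mul, map_mul, hl2]

/-- the first relation -/
theorem Frm.R1 (h : Frm D x y e) (a : Fin 3 → Fin 3 → L)
    (β : Fin 3 → Fin c → Fin c → MvPolynomial (Fin 2) L) (hβ : ∀ i, B2 d (β i)) :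
    ∃ g : Fin 3 → L, (∃ i, g i ≠ 0) ∧ ∀ m, ∑ i, g i • (op (a i) (rst ![x, y] (D.F m)) +
      ∑ m', β i m m' * rst ![x, y] (D.F m')) = 0 := by
  choose E B hB hEx hEy _ hBr _ using fun i => exists_lifts h.ind (a i) 0 (hβ i)
  obtain ⟨g, hg, hg2⟩ := h.r1 (fun i => GF D (0, E i, B i))
    (fun i => GF_hom D ⟨fun _ => isHomogeneous_zero _ _ _, hB i⟩) (fun i => by
      refine ff_GF D (h.hE _ _ (hB i)) ?_ ?_
      · rw [hEx]
        exact Submodule.smul_mem _ _ (Submodule.mem_span_singleton_self x)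
      · rw [hEy]
        exact Submodule.add_mem _ (Submodule.smul_mem _ _ x_mem2)
          (Submodule.smul_mem _ _ y_mem2))
  refine ⟨g, hg, fun m => ?_⟩
  rw [← hg2 m]
  refine Finset.sum_congr rfl fun i _ => ?_
  rw [GF_apply]
  simp only [zero_add, _root_.Pi.zero_apply]
  rw [map_add, hBr, rst_afE (hEx i) (hEy i)]

/-- the second relation -/
theorem Frm.R2 (h : Frm D x y e) (a b : Fin 3 → Fin 3 → L)
    (β : Fin 3 → Fin c → Fin c → MvPolynomial (Fin 2) L) (hβ : ∀ i, B2 d (β i))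
    (h0 : ∀ i m, op (a i) (rst ![x, y] (D.F m)) + ∑ m', β i m m' * rst ![x, y] (D.F m') = 0) :
    ∃ g : Fin 3 → L, (∃ i, g i ≠ 0) ∧ ∀ m, ∑ i, g i • (op (a i) (rst ![x, y] (dv e (D.F m))) +
      C (b i 0) * pderiv 0 (rst ![x, y] (D.F m)) + C (b i 1) * pderiv 1 (rst ![x, y] (D.F m)) +
      C (b i 2) * rst ![x, y] (dv e (D.F m)) +
      ∑ m', β i m m' * rst ![x, y] (dv e (D.F m'))) = 0 := by
  choose E B hB hEx hEy hEe hBr hBd using fun i => exists_lifts h.ind (a i) (b i) (hβ i)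
  have hx3 : x ∈ Submodule.span L (Set.range ![x, y, e]) := Submodule.subset_span ⟨0, rfl⟩
  have hy3 : y ∈ Submodule.span L (Set.range ![x, y, e]) := Submodule.subset_span ⟨1, rfl⟩
  have he3 : e ∈ Submodule.span L (Set.range ![x, y, e]) := Submodule.subset_span ⟨2, rfl⟩
  obtain ⟨g, hg, hg2⟩ := h.r2 (fun i => GF D (0, E i, B i))
    (fun i => GF_hom D ⟨fun _ => isHomogeneous_zero _ _ _, hB i⟩)
    (fun i m => by
      rw [GF_apply]
      simp only [zero_add, _root_.Pi.zero_apply]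
      rw [map_add, hBr, rst_afE (hEx i) (hEy i), h0])
    (fun i => by
      refine ff_GF D (h.hE _ _ (hB i)) ?_ ?_
      · rw [hEx]
        exact Submodule.smul_mem _ _ (Submodule.mem_span_singleton_self x)
      · rw [hEy]
        exact Submodule.add_mem _ (Submodule.smul_mem _ _ x_mem2)
          (Submodule.smul_mem _ _ y_mem2))
    (fun i => by
      rw [nv_GF]
      refine Submodule.sub_mem _ (h.hE0 _ _ (hB i)) ?_
      change mvL e (E i) ∈ _
      rw [hEe]
      exact Submodule.add_mem _ (Submodule.add_mem _ (Submodule.smul_mem _ _ hx3)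
        (Submodule.smul_mem _ _ hy3)) (Submodule.smul_mem _ _ he3))
  refine ⟨g, hg, fun m => ?_⟩
  rw [← hg2 m]
  refine Finset.sum_congr rfl fun i _ => ?_
  rw [GF_apply]
  simp only [zero_add, _root_.Pi.zero_apply]
  rw [map_add, map_add, hBd, af_dv, map_add, rst_afE (hEx i) (hEy i), hEe, dv_add, dv_add,
    dv_smul, dv_smul, dv_smul, map_add, map_add, rst_smul, rst_smul, rst_smul]
  have e0 : rst ![x, y] (dv x (D.F m)) = pderiv 0 (rst ![x, y] (D.F m)) := by
    rw [pderiv_rst]; rfl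
  have e1 : rst ![x, y] (dv y (D.F m)) = pderiv 1 (rst ![x, y] (D.F m)) := by
    rw [pderiv_rst]; rfl
  rw [e0, e1]
  simp only [smul_eq_C_mul]
  congr 1
  ring

end

end Pool.Agent.T2C.H65
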