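import Pool.Agent.Lib.MP_c7af3c_ag.T2C.H65.Fin

/-!
# MP_c7af3c_ag, project T2C (tuples): lines, the components (helper65)

Which components of `F` are non-zero on the line, and their shape.
-/

set_option autoImplicit false

namespace Pool.Agent.T2C.H65

open MvPolynomial Pool.Agent.Gen Pool.Agent.Sharp.H75 Pool.Agent.T2.H65 Module

section

variable {L : Type} [Field L] {n c : ℕ} {d : Fin c → ℕ}

theorem core3 {q : MvPolynomial (Fin 2) L} (hq : q ≠ 0) {k : ℕ} (hk : k ≠ 0) {c0 c1 c2 : L}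
    (h0 : C c0 * q = 0) (h1 : (C c1 * X 0 ^ k + C c2 * X 1 ^ k) * q = 0) :
    c0 = 0 ∧ c1 = 0 ∧ c2 = 0 := by
  classical
  have e0 := (mul_eq_zero.1 h0).resolve_right hq
  have e1 := (mul_eq_zero.1 h1).resolve_right hq
  have c0' := C_eq_zero.1 e0
  have s1 : ¬ (Finsupp.single (0 : Fin 2) k = Finsupp.single (1 : Fin 2) k) := by
    intro h
    have := DFunLike.congr_fun h 0
    simp at this
    exact hk this
  have a0 := congrArg (coeff (Finsupp.single 0 k)) e1
  have a1 := congrArg (coeff (Finsupp.single 1 k)) e1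
  rw [coeff_add, coeff_C_mul, coeff_C_mul, coeff_X_pow, coeff_X_pow, if_pos rfl,
    if_neg (Ne.symm s1), coeff_zero] at a0
  rw [coeff_add, coeff_C_mul, coeff_C_mul, coeff_X_pow, coeff_X_pow, if_pos rfl,
    if_neg s1, coeff_zero] at a1
  refine ⟨c0', ?_, ?_⟩
  · simpa using a0
  · simpa using a1

/-- the matrix with one entry -/
noncomputable def s1 (m m' : Fin c) (q : MvPolynomial (Fin 2) L) : Fin c → Fin c → MvPolynomial (Fin 2) L :=
  fun i j => if i = m then (if j = m' then q else 0) else 0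

theorem s1_B2 {m m' : Fin c} (hm : d m' ≤ d m) {q : MvPolynomial (Fin 2) L}
    (hq : q.IsHomogeneous (d m - d m')) : B2 d (s1 m m' q) := by
  intro i j
  unfold s1
  constructor
  · split_ifs with h1 h2
    · rw [h1, h2]
      exact hq
    · exact isHomogeneous_zero _ _ _
    · exact isHomogeneous_zero _ _ _
  · intro h
    split_ifs with h1 h2
    · rw [h1, h2] at h
      omega
    · rfl
    · rfl

theorem s1_sum (m m' : Fin c) (q : MvPolynomial (Fin 2) L) (f : Fin c → MvPolynomial (Fin 2) L)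
    (i : Fin c) : ∑ j, s1 m m' q i j * f j = if i = m then q * f m' else 0 := by
  unfold s1
  split_ifs with h
  · rw [Finset.sum_eq_single m']
    · rw [if_pos rfl]
    · intro j _ hj
      rw [if_neg hj, zero_mul]
    · intro h; exact absurd (Finset.mem_univ _) h
  · exact Finset.sum_eq_zero fun j _ => by rw [zero_mul]

theorem B2_zero : B2 d (0 : Fin c → Fin c → MvPolynomial (Fin 2) L) :=
  fun _ _ => ⟨isHomogeneous_zero _ _ _, fun _ => rfl⟩

theorem op_zero (q : MvPolynomial (Fin 2) L) : op (0 : Fin 3 → L) q = 0 := by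
  unfold op
  simp

theorem op_zero_right (a : Fin 3 → L) : op a (0 : MvPolynomial (Fin 2) L) = 0 := by
  unfold op
  simp

variable {D : DSys L n c d} {x y e : Fin (n + 1) → L}

/-- a non-zero component has maximal degree -/
theorem Frm.max (h : Frm D x y e) {m' : Fin c} (hf : rst ![x, y] (D.F m') ≠ 0) (m : Fin c) :
    d m ≤ d m' := by
  by_contra hlt
  push Not at hlt
  have hne : m ≠ m' := fun h => by rw [h] at hlt; exact lt_irrefl _ hlt
  obtain ⟨g, ⟨i, hi⟩, hg⟩ := h.R1 0 ![s1 m' m' 1, s1 m m' (X 0 ^ (d m - d m')),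
    s1 m m' (X 1 ^ (d m - d m'))] (fun i => by
      fin_cases i
      · exact s1_B2 le_rfl (by rw [Nat.sub_self]; exact isHomogeneous_one _ _)
      · exact s1_B2 hlt.le (by
          have := (isHomogeneous_X L (0 : Fin 2)).pow (d m - d m'); rwa [one_mul] at this)
      · exact s1_B2 hlt.le (by
          have := (isHomogeneous_X L (1 : Fin 2)).pow (d m - d m'); rwa [one_mul] at this))
  have a0 := hg m'
  have a1 := hg m
  rw [Fin.sum_univ_three] at a0 a1
  simp only [Matrix.cons_val_zero, Matrix.cons_val_one, Matrix.cons_val_two, Matrix.head_cons,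
    Matrix.tail_cons, s1_sum, _root_.Pi.zero_apply, op_zero, zero_add, if_true,
    if_neg hne, if_neg (Ne.symm hne), smul_zero, add_zero, smul_eq_C_mul] at a0 a1
  have r := core3 hf (show d m - d m' ≠ 0 by omega) (c0 := g 0) (c1 := g 1) (c2 := g 2)
    (by rw [← a0]; ring) (by rw [← a1]; ring)
  fin_cases i
  · exact hi r.1
  · exact hi r.2.1
  · exact hi r.2.2

/-- at most two components of maximal degree -/
theorem Frm.two (h : Frm D x y e) {m0 m1 m2 : Fin c} (hf : rst ![x, y] (D.F m0) ≠ 0)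
    (h01 : m0 ≠ m1) (h02 : m0 ≠ m2) (h12 : m1 ≠ m2) (d1 : d m1 = d m0) (d2 : d m2 = d m0) :
    False := by
  obtain ⟨g, ⟨i, hi⟩, hg⟩ := h.R1 0 ![s1 m0 m0 1, s1 m1 m0 1, s1 m2 m0 1] (fun i => by
      fin_cases i
      · exact s1_B2 le_rfl (by rw [Nat.sub_self]; exact isHomogeneous_one _ _)
      · exact s1_B2 d1.ge (by rw [d1, Nat.sub_self]; exact isHomogeneous_one _ _)
      · exact s1_B2 d2.ge (by rw [d2, Nat.sub_self]; exact isHomogeneous_one _ _))
  have a0 := hg m0
  have a1 := hg m1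
  have a2 := hg m2
  rw [Fin.sum_univ_three] at a0 a1 a2
  simp only [Matrix.cons_val_zero, Matrix.cons_val_one, Matrix.cons_val_two, Matrix.head_cons,
    Matrix.tail_cons, s1_sum, _root_.Pi.zero_apply, op_zero, zero_add, if_true,
    if_neg h01, if_neg h02, if_neg h12, if_neg (Ne.symm h01), if_neg (Ne.symm h02),
    if_neg (Ne.symm h12), smul_zero, add_zero, one_mul] at a0 a1 a2
  fin_cases i
  · exact hi ((smul_eq_zero.1 a0).resolve_right hf)
  · exact hi ((smul_eq_zero.1 a1).resolve_right hf)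
  · exact hi ((smul_eq_zero.1 a2).resolve_right hf)

/-- the form is a pure power -/
theorem pure_of_pderiv [CharZero L] {f : MvPolynomial (Fin 2) L} {k : ℕ} (hf : f.IsHomogeneous k)
    (h : pderiv 0 f = 0) : ∃ t : L, f = C t * X 1 ^ k := by
  classical
  refine ⟨coeff (m2 0 k) f, ?_⟩
  have h1 : (C (coeff (m2 0 k) f) * X 1 ^ k : MvPolynomial (Fin 2) L) =
      monomial (m2 0 k) (coeff (m2 0 k) f) := by
    have h2 : (Finsupp.single 1 k : Fin 2 →₀ ℕ) = m2 0 k := by
      unfold m2
      rw [Finsupp.single_zero, zero_add]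
    rw [X_pow_eq_monomial, C_mul_monomial, mul_one, h2]
  rw [h1]
  ext J
  rw [coeff_monomial]
  split_ifs with hJ
  · rw [hJ]
  · by_contra hne
    have h2 := degree_of_hom hf hne
    rw [Finsupp.degree_eq_sum, Fin.sum_univ_two] at h2
    have h3 := coeff_X_mul_pderiv (L := L) (0 : Fin 2) f J
    rw [h, mul_zero, coeff_zero] at h3
    rcases mul_eq_zero.1 h3.symm with h4 | h4
    · have h5 : J 0 = 0 := by exact_mod_cast h4
      apply hJ
      rw [eq_m2 J, h5, m2_inj]
      omega
    · exact hne h4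

/-- two components of maximal degree: pure powers -/
theorem Frm.pure [CharZero L] (h : Frm D x y e) {m0 m1 : Fin c}
    (hf : rst ![x, y] (D.F m0) ≠ 0) (h01 : m0 ≠ m1) (d1 : d m1 = d m0) (hd0 : d m0 ≠ 0) :
    ∃ t0 t1 : L, rst ![x, y] (D.F m0) = C t0 * X 1 ^ d m0 ∧
      rst ![x, y] (D.F m1) = C t1 * X 1 ^ d m0 := by
  have hF0 : (rst ![x, y] (D.F m0)).IsHomogeneous (d m0) := rst_hom _ (D.hom m0)
  -- proportional
  obtain ⟨c1, hc1⟩ : ∃ c1 : L, rst ![x, y] (D.F m1) = c1 • rst ![x, y] (D.F m0) := by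
    obtain ⟨g, ⟨i, hi⟩, hg⟩ := h.R1 0 ![s1 m0 m0 1, s1 m1 m0 1, s1 m0 m1 1] (fun i => by
      fin_cases i
      · exact s1_B2 le_rfl (by rw [Nat.sub_self]; exact isHomogeneous_one _ _)
      · exact s1_B2 d1.ge (by rw [d1, Nat.sub_self]; exact isHomogeneous_one _ _)
      · exact s1_B2 d1.le (by rw [d1, Nat.sub_self]; exact isHomogeneous_one _ _))
    have a0 := hg m0
    have a1 := hg m1
    rw [Fin.sum_univ_three] at a0 a1
    simp only [Matrix.cons_val_zero, Matrix.cons_val_one, Matrix.cons_val_two, Matrix.head_cons,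
      Matrix.tail_cons, s1_sum, _root_.Pi.zero_apply, op_zero, zero_add,
      if_true, if_neg h01, if_neg (Ne.symm h01), smul_zero, add_zero, one_mul] at a0 a1
    have g1 := (smul_eq_zero.1 a1).resolve_right hf
    have g2 : g 2 ≠ 0 := by
      intro g2
      rw [g2, zero_smul, add_zero] at a0
      have g0 := (smul_eq_zero.1 a0).resolve_right hf
      fin_cases i
      · exact hi g0
      · exact hi g1
      · exact hi g2
    refine ⟨-(g 0 / g 2), ?_⟩
    have h2 : g 2 • rst ![x, y] (D.F m1) = -(g 0 • rst ![x, y] (D.F m0)) := by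
      rw [eq_neg_iff_add_eq_zero, add_comm]
      exact a0
    have h3 := congrArg (fun q => (g 2)⁻¹ • q) h2
    simp only [smul_smul, inv_mul_cancel₀ g2, one_smul, smul_neg] at h3
    rw [h3, neg_smul]
    congr 2
    ring
  -- the derivative
  obtain ⟨g, ⟨i, hi⟩, hg⟩ := h.R1 ![0, 0, ![0, 1, 0]] ![s1 m0 m0 1, s1 m1 m0 1, 0] (fun i => by
    fin_cases i
    · exact s1_B2 le_rfl (by rw [Nat.sub_self]; exact isHomogeneous_one _ _)
    · exact s1_B2 d1.ge (by rw [d1, Nat.sub_self]; exact isHomogeneous_one _ _)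
    · exact B2_zero)
  have a0 := hg m0
  have a1 := hg m1
  rw [Fin.sum_univ_three] at a0 a1
  have hop : ∀ q : MvPolynomial (Fin 2) L, op ![0, 1, 0] q = X 1 * pderiv 0 q := by
    intro q
    unfold op
    simp
  simp only [Matrix.cons_val_zero, Matrix.cons_val_one, Matrix.cons_val_two, Matrix.head_cons,
    Matrix.tail_cons, s1_sum, _root_.Pi.zero_apply, op_zero, zero_add, hop,
    if_true, if_neg h01, if_neg (Ne.symm h01), smul_zero, add_zero, one_mul, zero_mul,
    Finset.sum_const_zero] at a0 a1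
  have g0 : g 0 = 0 := by
    by_contra hne
    apply hf
    have hdL : (d m0 : L) ≠ 0 := by exact_mod_cast hd0
    refine zero_nil (m := d m0) hd0 (a := g 0 / d m0) (b := g 2) (div_ne_zero hne hdL) ?_
    rw [mul_div_cancel₀ _ hdL]
    rw [smul_eq_C_mul, smul_eq_C_mul] at a0
    exact a0
  have g2 : g 2 ≠ 0 := by
    intro g2
    rw [g2, zero_smul, add_zero] at a1
    have g1 := (smul_eq_zero.1 a1).resolve_right hf
    fin_cases i
    · exact hi g0
    · exact hi g1
    · exact hi g2
  rw [g0, zero_smul, zero_add] at a0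
  have h4 := (smul_eq_zero.1 a0).resolve_left g2
  have h5 := (mul_eq_zero.1 h4).resolve_left (X_ne_zero _)
  obtain ⟨t, ht⟩ := pure_of_pderiv hF0 h5
  refine ⟨t, c1 * t, ht, ?_⟩
  rw [hc1, ht, smul_eq_C_mul, C_mul, mul_assoc]

/-- the derivative of a component of smaller degree which vanishes on the line -/
theorem Frm.gzero (h : Frm D x y e) {m0 m : Fin c} (hm : d m < d m0)
    (hf : rst ![x, y] (D.F m) = 0) : rst ![x, y] (dv e (D.F m)) = 0 := by
  by_contra hg0
  have hne : m ≠ m0 := fun h => by rw [h] at hm; exact lt_irrefl _ hm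
  obtain ⟨g, ⟨i, hi⟩, hg⟩ := h.R2 0 0 ![s1 m m 1, s1 m0 m (X 0 ^ (d m0 - d m)),
    s1 m0 m (X 1 ^ (d m0 - d m))] (fun i => by
      fin_cases i
      · exact s1_B2 le_rfl (by rw [Nat.sub_self]; exact isHomogeneous_one _ _)
      · exact s1_B2 hm.le (by
          have := (isHomogeneous_X L (0 : Fin 2)).pow (d m0 - d m); rwa [one_mul] at this)
      · exact s1_B2 hm.le (by
          have := (isHomogeneous_X L (1 : Fin 2)).pow (d m0 - d m); rwa [one_mul] at this))
    (fun i k => by
      rw [_root_.Pi.zero_apply, op_zero, zero_add]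
      fin_cases i
      · change ∑ j, s1 m m 1 k j * rst ![x, y] (D.F j) = 0
        rw [s1_sum, hf, mul_zero, ite_self]
      · change ∑ j, s1 m0 m _ k j * rst ![x, y] (D.F j) = 0
        rw [s1_sum, hf, mul_zero, ite_self]
      · change ∑ j, s1 m0 m _ k j * rst ![x, y] (D.F j) = 0
        rw [s1_sum, hf, mul_zero, ite_self])
  have a0 := hg m
  have a1 := hg m0
  rw [Fin.sum_univ_three] at a0 a1
  simp only [Matrix.cons_val_zero, Matrix.cons_val_one, Matrix.cons_val_two, Matrix.head_cons,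
    Matrix.tail_cons, s1_sum, _root_.Pi.zero_apply, op_zero, zero_add, if_true,
    if_neg hne, if_neg (Ne.symm hne), smul_zero, add_zero, smul_eq_C_mul, C_0, zero_mul] at a0 a1
  have r := core3 hg0 (show d m0 - d m ≠ 0 by omega) (c0 := g 0) (c1 := g 1) (c2 := g 2)
    (by rw [← a0]; ring) (by rw [← a1]; ring)
  fin_cases i
  · exact hi r.1
  · exact hi r.2.1
  · exact hi r.2.2

end

end Pool.Agent.T2C.H65
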