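import Pool.Agent.Lib.MP_c7af3c_ag.T2C.H65.E

/-!
# MP_c7af3c_ag, project T2C (tuples): lines, the final cases (helper65)

Pure powers; one monomial.
-/

set_option autoImplicit false

namespace Pool.Agent.T2C.H65

open MvPolynomial Pool.Agent.Gen Pool.Agent.Sharp.H75 Pool.Agent.T2.H65 Module

section

variable {L : Type} [Field L]

theorem coeff_X1_pd0 (g : MvPolynomial (Fin 2) L) (i j : ℕ) :
    coeff (m2 i (j + 1)) (X 1 * pderiv 0 g) = ((i : L) + 1) * coeff (m2 (i + 1) j) g := by
  have h1 : (m2 i (j + 1) : Fin 2 →₀ ℕ) = Finsupp.single 1 1 + m2 i j := by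
    ext k
    fin_cases k <;> simp [m2, add_comm]
  have h2 : (m2 (i + 1) j : Fin 2 →₀ ℕ) = Finsupp.single 0 1 + m2 i j := by
    ext k
    fin_cases k <;> simp [m2, add_comm]
  have h3 := coeff_X_mul_pderiv (L := L) (0 : Fin 2) g (m2 (i + 1) j)
  rw [h2, coeff_X_mul, ← h2, m2_0] at h3
  rw [h1, coeff_X_mul, h3]
  push_cast
  ring

theorem eq_shape {g : MvPolynomial (Fin 2) L} {K : ℕ} (hK : 1 ≤ K) (hg : g.IsHomogeneous K)
    (h : ∀ i j, i + j = K → 2 ≤ i → coeff (m2 i j) g = 0) :
    g = C (coeff (m2 1 (K - 1)) g) * (X 0 * X 1 ^ (K - 1)) + C (coeff (m2 0 K) g) * X 1 ^ K := by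
  classical
  have e1 : (C (coeff (m2 1 (K - 1)) g) * (X 0 * X 1 ^ (K - 1)) : MvPolynomial (Fin 2) L) =
      monomial (m2 1 (K - 1)) (coeff (m2 1 (K - 1)) g) := by
    have h2 : (X 0 : MvPolynomial (Fin 2) L) * X 1 ^ (K - 1) = monomial (m2 1 (K - 1)) 1 := by
      rw [X_pow_eq_monomial]
      unfold m2
      rw [show (X 0 : MvPolynomial (Fin 2) L) = monomial (Finsupp.single 0 1) 1 from rfl,
        monomial_mul, mul_one]
    rw [h2, C_mul_monomial, mul_one]
  have e2 : (C (coeff (m2 0 K) g) * X 1 ^ K : MvPolynomial (Fin 2) L) =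
      monomial (m2 0 K) (coeff (m2 0 K) g) := by
    have h2 : (Finsupp.single 1 K : Fin 2 →₀ ℕ) = m2 0 K := by
      unfold m2
      rw [Finsupp.single_zero, zero_add]
    rw [X_pow_eq_monomial, C_mul_monomial, mul_one, h2]
  rw [e1, e2]
  ext J
  rw [coeff_add, coeff_monomial, coeff_monomial]
  by_cases hJ : coeff J g = 0
  · rw [hJ]
    split_ifs with h1 h2 h2
    · rw [h1, h2, hJ, add_zero]
    · rw [h1, hJ, add_zero]
    · rw [h2, hJ, add_zero]
    · rw [add_zero]
  · have h2 := degree_of_hom hg hJ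
    rw [Finsupp.degree_eq_sum, Fin.sum_univ_two] at h2
    have h3 : J 0 < 2 := by
      by_contra h4
      push Not at h4
      apply hJ
      rw [eq_m2 J]
      exact h _ _ h2 h4
    have h5 : J 0 = 0 ∨ J 0 = 1 := by omega
    rcases h5 with h5 | h5
    · have h6 : J = m2 0 K := by
        rw [eq_m2 J, m2_inj]
        omega
      have h7 : ¬ (m2 1 (K - 1) = J) := by
        rw [h6, m2_inj]
        omega
      rw [if_neg h7, if_pos h6.symm, zero_add, h6]
    · have h6 : J = m2 1 (K - 1) := by
        rw [eq_m2 J, m2_inj]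
        omega
      have h7 : ¬ (m2 0 K = J) := by
        rw [h6, m2_inj]
        omega
      rw [if_pos h6.symm, if_neg h7, add_zero, h6]

/-- the shape of the second order part at a pure power -/
theorem shape [CharZero L] {c : ℕ} {K : ℕ} (hK : 1 ≤ K) {g : Fin c → MvPolynomial (Fin 2) L}
    {γ : Fin c → L} (m0 : Fin c) (hγ : γ m0 ≠ 0)
    (hγg : ∀ m, (γ m = 0 ∧ g m = 0) ∨ (g m).IsHomogeneous K) {c0 c1 c2 : L}
    (hc : c0 ≠ 0 ∨ c1 ≠ 0 ∨ c2 ≠ 0)
    (hrel : ∀ m, C c0 * (X 0 * pderiv 0 (g m)) + C c1 * (X 1 * pderiv 0 (g m)) +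
      C (c2 * ((K : L) + 1) * γ m) * X 1 ^ K = 0) :
    ∃ (β : L) (ν : Fin c → L), ∀ m, g m = C (β * γ m) * (X 0 * X 1 ^ (K - 1)) + C (ν m) * X 1 ^ K := by
  classical
  have hX : ∀ (a : L) (i j : ℕ), coeff (m2 i j) (C a * X 1 ^ K : MvPolynomial (Fin 2) L) =
      if i = 0 ∧ j = K then a else 0 := by
    intro a i j
    have h2 : (Finsupp.single 1 K : Fin 2 →₀ ℕ) = m2 0 K := by
      unfold m2
      rw [Finsupp.single_zero, zero_add]
    rw [X_pow_eq_monomial, C_mul_monomial, mul_one, h2, coeff_monomial]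
    have : m2 0 K = m2 i j ↔ i = 0 ∧ j = K := by
      rw [m2_inj]
      constructor
      · rintro ⟨h1, h2⟩
        exact ⟨h1.symm, h2.symm⟩
      · rintro ⟨h1, h2⟩
        exact ⟨h1.symm, h2.symm⟩
    simp only [this]
  -- the relation for the coefficients
  have hco : ∀ m i j, i + (j + 1) = K → c0 * ((i : L) * coeff (m2 i (j + 1)) (g m)) +
      c1 * (((i : L) + 1) * coeff (m2 (i + 1) j) (g m)) +
      (if i = 0 then c2 * ((K : L) + 1) * γ m else 0) = 0 := by
    intro m i j hij
    have h1 := congrArg (coeff (m2 i (j + 1))) (hrel m)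
    rw [coeff_add, coeff_add, coeff_C_mul, coeff_C_mul, coeff_X_mul_pderiv, coeff_X1_pd0, hX,
      coeff_zero, m2_0] at h1
    have h2 : (i = 0 ∧ j + 1 = K) ↔ i = 0 := by
      constructor
      · exact fun h => h.1
      · intro h
        exact ⟨h, by omega⟩
    simp only [h2] at h1
    exact h1
  have hK0 : ((K : L) + 1) ≠ 0 := by exact_mod_cast Nat.succ_ne_zero K
  have hz : ∀ m, γ m = 0 ∧ g m = 0 → ∀ β : L,
      g m = C (β * γ m) * (X 0 * X 1 ^ (K - 1)) + C (coeff (m2 0 K) (g m)) * X 1 ^ K := by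
    rintro m ⟨h1, h2⟩ β
    rw [h1, h2]
    simp
  by_cases h0 : c0 = 0
  · by_cases h1 : c1 = 0
    · exfalso
      have h2 : c2 ≠ 0 := by
        rcases hc with h | h | h
        · exact absurd h0 h
        · exact absurd h1 h
        · exact h
      have h3 := hco m0 0 (K - 1) (by omega)
      rw [h0, h1, if_pos rfl] at h3
      rw [zero_mul, zero_mul, zero_add, zero_add] at h3
      exact mul_ne_zero (mul_ne_zero h2 hK0) hγ h3
    · -- `g_i = 0` for `i >= 2`
      refine ⟨-(c2 * ((K : L) + 1)) / c1, fun m => coeff (m2 0 K) (g m), fun m => ?_⟩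
      rcases hγg m with hgm | hgm
      · exact hz m hgm _
      · have e1 := eq_shape hK hgm (fun i j hij hi => by
          obtain ⟨i', rfl⟩ : ∃ i', i = i' + 1 := ⟨i - 1, by omega⟩
          have h3 := hco m i' j (by omega)
          rw [h0, zero_mul, zero_add, if_neg (by omega), add_zero] at h3
          have h4 : ((i' : L) + 1) ≠ 0 := by exact_mod_cast Nat.succ_ne_zero i'
          exact (mul_eq_zero.1 ((mul_eq_zero.1 h3).resolve_left h1)).resolve_left h4)
        have h3 := hco m 0 (K - 1) (by omega)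
        rw [h0, zero_mul, zero_add, if_pos rfl] at h3
        simp only [Nat.cast_zero, zero_add, one_mul] at h3
        have h5 : coeff (m2 1 (K - 1)) (g m) = -(c2 * ((K : L) + 1)) / c1 * γ m := by
          field_simp
          linear_combination h3
        rw [h5] at e1
        exact e1
  · -- `g_i = 0` for `i >= 1`
    refine ⟨0, fun m => coeff (m2 0 K) (g m), fun m => ?_⟩
    rcases hγg m with hgm | hgm
    · exact hz m hgm _
    · have hall : ∀ j i, i + j = K → 1 ≤ i → coeff (m2 i j) (g m) = 0 := by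
        intro j
        induction j with
        | zero =>
          intro i hij hi
          have h1 := congrArg (coeff (m2 i 0)) (hrel m)
          have h2 : coeff (m2 i 0) (X 1 * pderiv 0 (g m)) = 0 := by
            rw [coeff_X_mul', if_neg]
            rw [Finsupp.mem_support_iff, m2_1]
            simp
          rw [coeff_add, coeff_add, coeff_C_mul, coeff_C_mul, coeff_X_mul_pderiv, h2, hX,
            coeff_zero, m2_0, if_neg (by omega), mul_zero, add_zero, add_zero] at h1
          have h3 : (i : L) ≠ 0 := by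
            have : i ≠ 0 := by omega
            exact_mod_cast this
          exact (mul_eq_zero.1 ((mul_eq_zero.1 h1).resolve_left h0)).resolve_left h3
        | succ j ih =>
          intro i hij hi
          have h1 := hco m i j hij
          rw [ih (i + 1) (by omega) (by omega), if_neg (by omega), mul_zero, mul_zero, add_zero,
            add_zero] at h1
          have h3 : (i : L) ≠ 0 := by
            have : i ≠ 0 := by omega
            exact_mod_cast this
          exact (mul_eq_zero.1 ((mul_eq_zero.1 h1).resolve_left h0)).resolve_left h3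
      have e1 := eq_shape hK hgm (fun i j hij hi => hall j i hij (by omega))
      rw [hall (K - 1) 1 (by omega) le_rfl] at e1
      rw [zero_mul]
      exact e1

end

end Pool.Agent.T2C.H65
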