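import Pool.Agent.Lib.MP_c7af3c_ag.T2C.H65.C2

/-!
# MP_c7af3c_ag, project T2C (tuples): the final count (helper65)

`f = F|l`, `g = (dF/de)|l`. If a space `T` of dimension at most 4 contains the images of `(f, g)`
under the stabiliser of the flag and under all derivations then the point is constant.
-/

set_option autoImplicit false

namespace Pool.Agent.T2C.H65

open MvPolynomial Pool.Agent.Gen Pool.Agent.Sharp.H75 Pool.Agent.T2.H65 Module

section

variable {L : Type} [Field L] {n c : ℕ} {d : Fin c → ℕ}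

/-- every vector is the vector of coefficients of a form -/
theorem coB_surj (m : ℕ) (w : Fin (m + 1) → L) :
    ∃ q : MvPolynomial (Fin 2) L, q.IsHomogeneous m ∧ coB L m q = w := by
  classical
  refine ⟨∑ i : Fin (m + 1), monomial (m2 (m - i) i) (w i), ?_, ?_⟩
  · refine IsHomogeneous.sum _ _ _ fun i _ => ?_
    refine isHomogeneous_monomial _ ?_
    rw [m2_degree]
    have := i.2
    omega
  · funext j
    rw [coB_apply, coeff_sum, Finset.sum_eq_single j]
    · rw [coeff_monomial, if_pos rfl]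
    · intro i _ hi
      rw [coeff_monomial, if_neg]
      intro h
      exact hi (Fin.ext (m2_inj.1 h).2)
    · intro h
      exact absurd (Finset.mem_univ _) h

/-- pairs of tuples of binary forms -/
abbrev TB (L : Type) [Field L] (c : ℕ) : Type :=
  Fin c → MvPolynomial (Fin 2) L × MvPolynomial (Fin 2) L

variable (F : Tup L n c) (x y e : Fin (n + 1) → L)

/-- the differential of the restriction to the double line -/
noncomputable def J2 : (Fin 3 → Fin (n + 1) → L) →ₗ[L] TB L c where
  toFun ξ := fun m => (X 0 * rst ![x, y] (dv (ξ 0) (F m)) + X 1 * rst ![x, y] (dv (ξ 1) (F m)),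
    X 0 * rst ![x, y] (dv e (dv (ξ 0) (F m))) + X 1 * rst ![x, y] (dv e (dv (ξ 1) (F m))) +
      rst ![x, y] (dv (ξ 2) (F m)))
  map_add' ξ ζ := by
    funext m
    refine Prod.ext ?_ ?_
    · simp only [Pi.add_apply, dv_add, map_add, Prod.fst_add]
      ring
    · simp only [Pi.add_apply, dv_add, map_add, Prod.snd_add]
      ring
  map_smul' s ξ := by
    funext m
    refine Prod.ext ?_ ?_
    · simp only [Pi.smul_apply, dv_smul, rst_smul, Prod.smul_fst, RingHom.id_apply, smul_add,
        mul_smul_comm]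
    · simp only [Pi.smul_apply, dv_smul, rst_smul, Prod.smul_snd, RingHom.id_apply, smul_add,
        mul_smul_comm, Derivation.map_smul]

theorem J2_apply (ξ : Fin 3 → Fin (n + 1) → L) (m : Fin c) : J2 F x y e ξ m =
    (X 0 * rst ![x, y] (dv (ξ 0) (F m)) + X 1 * rst ![x, y] (dv (ξ 1) (F m)),
    X 0 * rst ![x, y] (dv e (dv (ξ 0) (F m))) + X 1 * rst ![x, y] (dv e (dv (ξ 1) (F m))) +
      rst ![x, y] (dv (ξ 2) (F m))) := rfl

/-- derivations -/
theorem J2_der (δ : Derivation ℤ L L) (m : Fin c) :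
    J2 F x y e (fun i p => δ (![x, y, e] i p)) m =
      (dco δ (rst ![x, y] (F m)) - rst ![x, y] (dco δ (F m)),
        dco δ (rst ![x, y] (dv e (F m))) - rst ![x, y] (dv e (dco δ (F m)))) := by
  have h1 := dco_rst ![x, y] δ (F m)
  have h2 := dco_rst ![x, y] δ (dv e (F m))
  rw [Fin.sum_univ_two] at h1 h2
  rw [dco_dv, map_add] at h2
  rw [J2_apply]
  refine Prod.ext ?_ ?_
  · change X 0 * rst ![x, y] (dv (fun p => δ (x p)) (F m)) +
      X 1 * rst ![x, y] (dv (fun p => δ (y p)) (F m)) = _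
    have h3 : dco δ (rst ![x, y] (F m)) = rst ![x, y] (dco δ (F m)) +
        (X 0 * rst ![x, y] (dv (fun p => δ (x p)) (F m)) +
          X 1 * rst ![x, y] (dv (fun p => δ (y p)) (F m))) := h1
    rw [h3]
    ring
  · change X 0 * rst ![x, y] (dv e (dv (fun p => δ (x p)) (F m))) +
      X 1 * rst ![x, y] (dv e (dv (fun p => δ (y p)) (F m))) +
        rst ![x, y] (dv (fun p => δ (e p)) (F m)) = _
    have h3 : dco δ (rst ![x, y] (dv e (F m))) =
        rst ![x, y] (dv (fun p => δ (e p)) (F m)) + rst ![x, y] (dv e (dco δ (F m))) +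
        (X 0 * rst ![x, y] (dv (fun p => δ (x p)) (dv e (F m))) +
          X 1 * rst ![x, y] (dv (fun p => δ (y p)) (dv e (F m)))) := h2
    rw [h3, dv_comm e (fun p => δ (x p)), dv_comm e (fun p => δ (y p))]
    ring

/-- the elements of the stabiliser of the flag -/
noncomputable def bx : ((Fin 3 → L) × (Fin 3 → L)) →ₗ[L] (Fin 3 → Fin (n + 1) → L) where
  toFun ab := ![ab.1 0 • x, ab.1 1 • x + ab.1 2 • y, ab.2 0 • x + ab.2 1 • y + ab.2 2 • e]
  map_add' u v := by
    funext i
    fin_cases i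
    · change (u.1 0 + v.1 0) • x = u.1 0 • x + v.1 0 • x
      rw [add_smul]
    · change (u.1 1 + v.1 1) • x + (u.1 2 + v.1 2) • y =
        (u.1 1 • x + u.1 2 • y) + (v.1 1 • x + v.1 2 • y)
      rw [add_smul, add_smul]
      abel
    · change (u.2 0 + v.2 0) • x + (u.2 1 + v.2 1) • y + (u.2 2 + v.2 2) • e =
        (u.2 0 • x + u.2 1 • y + u.2 2 • e) + (v.2 0 • x + v.2 1 • y + v.2 2 • e)
      rw [add_smul, add_smul, add_smul]
      abel
  map_smul' s u := by
    funext i
    fin_cases i
    · change (s * u.1 0) • x = s • (u.1 0 • x)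
      rw [mul_smul]
    · change (s * u.1 1) • x + (s * u.1 2) • y = s • (u.1 1 • x + u.1 2 • y)
      rw [mul_smul, mul_smul, smul_add]
    · change (s * u.2 0) • x + (s * u.2 1) • y + (s * u.2 2) • e =
        s • (u.2 0 • x + u.2 1 • y + u.2 2 • e)
      rw [mul_smul, mul_smul, mul_smul, smul_add, smul_add]

theorem bx_inj (h : LinearIndependent L ![x, y, e]) : Function.Injective (bx x y e) := by
  have h' := Fintype.linearIndependent_iff.1 h
  rw [← LinearMap.ker_eq_bot, LinearMap.ker_eq_bot']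
  intro u hu
  have k : ∀ a b s : L, a • x + b • y + s • e = 0 → a = 0 ∧ b = 0 ∧ s = 0 := by
    intro a b s hs
    have h1 := h' ![a, b, s] (by rw [Fin.sum_univ_three]; exact hs)
    exact ⟨h1 0, h1 1, h1 2⟩
  have u0 : u.1 0 • x = 0 := congrFun hu 0
  have u1 : u.1 1 • x + u.1 2 • y = 0 := congrFun hu 1
  have u2 : u.2 0 • x + u.2 1 • y + u.2 2 • e = 0 := congrFun hu 2
  have r0 := k (u.1 0) 0 0 (by rw [u0, zero_smul, zero_smul, add_zero, add_zero])
  have r1 := k (u.1 1) (u.1 2) 0 (by rw [u1, zero_smul, add_zero])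
  have r2 := k _ _ _ u2
  refine Prod.ext ?_ ?_
  · funext i
    fin_cases i
    · exact r0.1
    · exact r1.1
    · exact r1.2.1
  · funext i
    fin_cases i
    · exact r2.1
    · exact r2.2.1
    · exact r2.2.2

theorem J2_bx (ab : (Fin 3 → L) × (Fin 3 → L)) (m : Fin c) : J2 F x y e (bx x y e ab) m =
    (op ab.1 (rst ![x, y] (F m)), op ab.1 (rst ![x, y] (dv e (F m))) +
      C (ab.2 0) * pderiv 0 (rst ![x, y] (F m)) + C (ab.2 1) * pderiv 1 (rst ![x, y] (F m)) +
      C (ab.2 2) * rst ![x, y] (dv e (F m))) := by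
  have e0 : ∀ H, rst ![x, y] (dv x H) = pderiv 0 (rst ![x, y] H) := by
    intro H; rw [pderiv_rst]; rfl
  have e1 : ∀ H, rst ![x, y] (dv y H) = pderiv 1 (rst ![x, y] H) := by
    intro H; rw [pderiv_rst]; rfl
  rw [J2_apply]
  have b0 : bx x y e ab 0 = ab.1 0 • x := rfl
  have b1 : bx x y e ab 1 = ab.1 1 • x + ab.1 2 • y := rfl
  have b2 : bx x y e ab 2 = ab.2 0 • x + ab.2 1 • y + ab.2 2 • e := rfl
  rw [b0, b1, b2]
  refine Prod.ext ?_ ?_
  · simp only [dv_add, dv_smul, map_add, rst_smul, e0, e1]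
    unfold op
    simp only [smul_eq_C_mul]
    ring
  · simp only [dv_add, dv_smul, map_add, rst_smul, e0, e1, Derivation.map_smul, dv_comm e x,
      dv_comm e y]
    unfold op
    simp only [smul_eq_C_mul]
    ring

/-- the coefficients -/
noncomputable def co2 (L : Type) [Field L] {c : ℕ} (d k : Fin c → ℕ) :
    TB L c →ₗ[L] ((m : Fin c) → (Fin (d m + 1) → L) × (Fin (k m + 1) → L)) :=
  LinearMap.pi fun m => (((coB L (d m)).comp (LinearMap.fst L _ _)).prod
    ((coB L (k m)).comp (LinearMap.snd L _ _))).comp (LinearMap.proj m)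

theorem co2_apply (d k : Fin c → ℕ) (q : TB L c) (m : Fin c) :
    co2 L d k q m = (coB L (d m) (q m).1, coB L (k m) (q m).2) := rfl

theorem finrank_co2 (d k : Fin c → ℕ) :
    finrank L ((m : Fin c) → (Fin (d m + 1) → L) × (Fin (k m + 1) → L)) =
      ∑ m, (d m + 1 + (k m + 1)) := by
  rw [Module.finrank_pi_fintype]
  simp

variable {x y e}

/-- a tuple with given restriction to the double line -/
theorem exists_G (h : LinearIndependent L ![x, y, e]) {k : Fin c → ℕ} (hk : ∀ m, d m = k m + 1)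
    {α β : Fin c → MvPolynomial (Fin 2) L} (hα : ∀ m, (α m).IsHomogeneous (d m))
    (hβ : ∀ m, (β m).IsHomogeneous (k m)) :
    ∃ G : Tup L n c, Hom d G ∧ (∀ m, rst ![x, y] (G m) = α m) ∧
      ∀ m, rst ![x, y] (dv e (G m)) = β m := by
  classical
  obtain ⟨Q, hQ⟩ := rst_dual ![x, y, e] h
  have h20 : dt (Q 2) x = 0 := by have := hQ 2 0; simpa using this
  have h21 : dt (Q 2) y = 0 := by have := hQ 2 1; simpa using this
  have h22 : dt (Q 2) e = 1 := by have := hQ 2 2; simpa using this
  have hru : rst ![x, y] (lf (Q 2)) = 0 := by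
    rw [rst_lf, Fin.sum_univ_two]
    simp [h20, h21]
  obtain ⟨l, hl1, hl2, hl3⟩ := exists_lift h
  refine ⟨fun m => l (α m) + lf (Q 2) * l (β m), fun m => ?_, fun m => ?_, fun m => ?_⟩
  · refine (hl1 _ _ (hα m)).add ?_
    rw [hk]
    exact lfm_hom _ (hl1 _ _ (hβ m))
  · rw [map_add, map_mul, hru, zero_mul, add_zero, hl2]
  · rw [map_add, map_add, hl3, map_zero, zero_add, Derivation.leibniz, hl3, smul_zero, zero_add,
      smul_eq_mul, map_mul, dv_lf, h22, C_1, map_one, mul_one, hl2]

variable {F}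

/-- the final count -/
theorem fin_count (D : DSys L n c d) (hn : n = c + 3) (hs : ∑ m, d m = n + 2)
    (h : LinearIndependent L ![x, y, e]) {k : Fin c → ℕ} (hk : ∀ m, d m = k m + 1)
    (t : Fin 4 → TB L c)
    (hδ : ∀ δ : Derivation ℤ L L, (fun m => (dco δ (rst ![x, y] (D.F m)),
      dco δ (rst ![x, y] (dv e (D.F m)))) : TB L c) ∈ Submodule.span L (Set.range t))
    (hb : ∀ a b : Fin 3 → L, (fun m => (op a (rst ![x, y] (D.F m)),
      op a (rst ![x, y] (dv e (D.F m))) +
      C (b 0) * pderiv 0 (rst ![x, y] (D.F m)) + C (b 1) * pderiv 1 (rst ![x, y] (D.F m)) +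
      C (b 2) * rst ![x, y] (dv e (D.F m))) : TB L c) ∈ Submodule.span L (Set.range t))
    (δ : Derivation ℤ L L) (hδk : ∀ m I, δ (coeff I (D.F m)) = 0) :
    (fun p => δ (x p)) ∈ Submodule.span L {x} := by
  classical
  set T0 := Submodule.span L (Set.range t) with hT0
  set T := T0.map (co2 L d k) with hT
  have hT4 : finrank L T ≤ 4 := by
    have h1 : T = Submodule.span L (Set.range fun i => co2 L d k (t i)) := by
      rw [hT, hT0, Submodule.map_span, ← Set.range_comp]
      rfl
    rw [h1]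
    have := finrank_range_le_card (R := L) fun i => co2 L d k (t i)
    rwa [Fintype.card_fin, Set.finrank] at this
  let q : (Fin 3 → Fin (n + 1) → L) →ₗ[L] _ := T.mkQ.comp ((co2 L d k).comp (J2 D.F x y e))
  have hq : ∀ ξ, q ξ = T.mkQ (co2 L d k (J2 D.F x y e ξ)) := fun _ => rfl
  have hq0 : ∀ ξ, J2 D.F x y e ξ ∈ T0 → q ξ = 0 := by
    intro ξ hξ
    rw [hq, Submodule.mkQ_apply, Submodule.Quotient.mk_eq_zero]
    exact Submodule.mem_map_of_mem hξ
  have hsurj : LinearMap.range q = ⊤ := by
    rw [LinearMap.range_eq_top]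
    intro w
    obtain ⟨w, rfl⟩ := Submodule.mkQ_surjective _ w
    choose α hα hαw using fun m => coB_surj (L := L) (d m) (-(w m).1)
    choose β hβ hβw using fun m => coB_surj (L := L) (k m) (-(w m).2)
    obtain ⟨G, hG, hGα, hGβ⟩ := exists_G h hk hα hβ
    refine ⟨fun i p => DG D G (![x, y, e] i p), ?_⟩
    rw [hq, ← sub_eq_zero, ← map_sub, Submodule.mkQ_apply, Submodule.Quotient.mk_eq_zero]
    have h1 : co2 L d k (J2 D.F x y e fun i p => DG D G (![x, y, e] i p)) - w =
        co2 L d k (fun m => (dco (DG D G) (rst ![x, y] (D.F m)),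
          dco (DG D G) (rst ![x, y] (dv e (D.F m)))) : TB L c) := by
      funext m
      rw [Pi.sub_apply, co2_apply, co2_apply, J2_der, dco_F D hG m, hGα, hGβ]
      refine Prod.ext ?_ ?_
      · rw [Prod.fst_sub]
        change coB L (d m) (_ - α m) - (w m).1 = _
        rw [map_sub, hαw]
        abel
      · rw [Prod.snd_sub]
        change coB L (k m) (_ - β m) - (w m).2 = _
        rw [map_sub, hβw]
        abel
    rw [h1]
    exact Submodule.mem_map_of_mem (hδ _)
  have hker : finrank L (LinearMap.ker q) ≤ 6 := by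
    have h1 := q.finrank_range_add_finrank_ker
    rw [hsurj, finrank_top] at h1
    have h2 := T.finrank_quotient_add_finrank
    rw [finrank_co2] at h2
    have h3 : finrank L (Fin 3 → Fin (n + 1) → L) = 3 * (n + 1) := by
      rw [Module.finrank_pi_fintype]
      simp
    have h4 : ∑ m, (d m + 1 + (k m + 1)) = 2 * (n + 2) + c := by
      have h5 : ∀ m, d m + 1 + (k m + 1) = 2 * d m + 1 := fun m => by rw [← hk]; ring
      simp only [h5]
      rw [Finset.sum_add_distrib, ← Finset.mul_sum, hs]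
      simp
    omega
  -- the stabiliser of the flag
  have hle : LinearMap.range (bx x y e) ≤ LinearMap.ker q := by
    rintro _ ⟨ab, rfl⟩
    refine LinearMap.mem_ker.2 (hq0 _ ?_)
    have h1 : J2 D.F x y e (bx x y e ab) = fun m => (op ab.1 (rst ![x, y] (D.F m)),
        op ab.1 (rst ![x, y] (dv e (D.F m))) +
        C (ab.2 0) * pderiv 0 (rst ![x, y] (D.F m)) + C (ab.2 1) * pderiv 1 (rst ![x, y] (D.F m)) +
        C (ab.2 2) * rst ![x, y] (dv e (D.F m))) := by
      funext m
      exact J2_bx D.F x y e ab m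
    rw [h1]
    exact hb _ _
  have h6 : finrank L (LinearMap.range (bx x y e)) = 6 := by
    rw [LinearMap.finrank_range_of_inj (bx_inj x y e h), Module.finrank_prod]
    simp
  have heq : LinearMap.range (bx x y e) = LinearMap.ker q :=
    Submodule.eq_of_le_of_finrank_le hle (by rw [h6]; exact hker)
  have hmem : (fun i p => δ (![x, y, e] i p)) ∈ LinearMap.ker q := by
    refine LinearMap.mem_ker.2 (hq0 _ ?_)
    have h1 : J2 D.F x y e (fun i p => δ (![x, y, e] i p)) =
        fun m => (dco δ (rst ![x, y] (D.F m)), dco δ (rst ![x, y] (dv e (D.F m)))) := by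
      funext m
      have h2 : dco δ (D.F m) = 0 := by
        ext I
        rw [coeff_dco, hδk, coeff_zero]
      rw [J2_der, h2, map_zero, map_zero, map_zero, sub_zero, sub_zero]
    rw [h1]
    exact hδ δ
  rw [← heq] at hmem
  obtain ⟨ab, hab⟩ := hmem
  have h7 : ab.1 0 • x = fun p => δ (x p) := congrFun hab 0
  rw [← h7]
  exact Submodule.smul_mem _ _ (Submodule.mem_span_singleton_self x)

end

end Pool.Agent.T2C.H65
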