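import Pool.Agent.Lib.MP_c7af3c_ag.T2C.H65.F

/-!
# MP_c7af3c_ag, project T2C (tuples): lines, pure powers (helper65)
-/

set_option autoImplicit false

namespace Pool.Agent.T2C.H65

open MvPolynomial Pool.Agent.Gen Pool.Agent.Sharp.H75 Pool.Agent.T2.H65 Module

section

variable {L : Type} [Field L]

theorem dco_pow1 (δ : Derivation ℤ L L) (k : ℕ) :
    dco δ (X 1 ^ k : MvPolynomial (Fin 2) L) = 0 := by
  induction k with
  | zero =>
    rw [pow_zero, ← C_1, dco_C]
    simp
  | succ k ih => rw [pow_succ, dco_mul, ih, dco_X, zero_mul, mul_zero, add_zero]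

theorem pd0_pow (k : ℕ) : pderiv 0 (X 1 ^ k : MvPolynomial (Fin 2) L) = 0 := by
  rw [Derivation.leibniz_pow, pderiv_X_of_ne (by decide), smul_zero, smul_zero]

theorem pd1_pow (k : ℕ) : pderiv 1 (X 1 ^ (k + 1) : MvPolynomial (Fin 2) L) =
    C ((k : L) + 1) * X 1 ^ k := by
  rw [Derivation.leibniz_pow, pderiv_X_self, smul_eq_mul, mul_one, Nat.add_sub_cancel,
    ← Nat.cast_smul_eq_nsmul L, smul_eq_C_mul]
  push_cast
  rfl

theorem X1pd1_pow (k : ℕ) : X 1 * pderiv 1 (X 1 ^ k : MvPolynomial (Fin 2) L) =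
    C (k : L) * X 1 ^ k := by
  cases k with
  | zero => simp
  | succ k =>
    rw [pd1_pow, pow_succ]
    push_cast
    ring

theorem op_pow (a : Fin 3 → L) (t : L) (k : ℕ) :
    op a (C t * X 1 ^ k) = C (a 2 * k * t) * X 1 ^ k := by
  unfold op
  rw [pderiv_C_mul, pderiv_C_mul, pd0_pow, C_mul, C_mul]
  linear_combination C (a 2) * C t * X1pd1_pow (L := L) k

theorem op_mix (a : Fin 3 → L) (t : L) (k : ℕ) :
    op a (C t * (X 0 * X 1 ^ k)) = C ((a 0 + a 2 * k) * t) * (X 0 * X 1 ^ k) +
      C (a 1 * t) * X 1 ^ (k + 1) := by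
  have h0 : pderiv 0 (C t * (X 0 * X 1 ^ k) : MvPolynomial (Fin 2) L) = C t * X 1 ^ k := by
    rw [pderiv_C_mul, Derivation.leibniz, pd0_pow, pderiv_X_self, smul_zero, zero_add,
      smul_eq_mul, mul_one]
  have h1 : X 1 * pderiv 1 (C t * (X 0 * X 1 ^ k) : MvPolynomial (Fin 2) L) =
      C (k * t) * (X 0 * X 1 ^ k) := by
    rw [pderiv_C_mul, Derivation.leibniz, pderiv_X_of_ne (by decide), smul_zero, add_zero,
      smul_eq_mul, C_mul]
    linear_combination C t * X 0 * X1pd1_pow (L := L) k
  unfold op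
  rw [h0, h1]
  simp only [C_mul, C_add, pow_succ]
  ring

theorem op_add (a : Fin 3 → L) (p q : MvPolynomial (Fin 2) L) :
    op a (p + q) = op a p + op a q := by
  unfold op
  simp only [map_add]
  ring

/-- a family supported in two places -/
theorem two_single {c : ℕ} {V : Type} [AddCommGroup V] [Module L V] (w : V) {m0 m1 : Fin c}
    {p : Fin c → L} (hp : ∀ m, m ≠ m0 → m ≠ m1 → p m = 0) :
    (fun m => p m • w) = p m0 • (Pi.single m0 w : Fin c → V) +
      (if m0 = m1 then (0 : L) else p m1) • (Pi.single m1 w : Fin c → V) := by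
  classical
  funext m
  rw [Pi.add_apply, Pi.smul_apply, Pi.smul_apply]
  by_cases h0 : m = m0
  · subst h0
    rw [Pi.single_eq_same]
    by_cases h1 : m = m1
    · rw [if_pos h1, zero_smul, add_zero]
    · rw [Pi.single_eq_of_ne h1, smul_zero, add_zero]
  · rw [Pi.single_eq_of_ne h0, smul_zero, zero_add]
    by_cases h1 : m = m1
    · subst h1
      rw [Pi.single_eq_same, if_neg (Ne.symm h0)]
    · rw [Pi.single_eq_of_ne h1, smul_zero, hp m h0 h1, zero_smul]

variable {n c : ℕ} {d : Fin c → ℕ} {D : DSys L n c d} {x y e : Fin (n + 1) → L}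

/-- the case of pure powers -/
theorem Frm.power [CharZero L] (h : Frm D x y e) (hn : n = c + 3) (hs : ∑ m, d m = n + 2)
    {k : Fin c → ℕ} (hk : ∀ m, d m = k m + 1) {m0 m1 : Fin c} {J : ℕ} (d0 : d m0 = J + 2)
    (d1 : d m1 = J + 2) {γ : Fin c → L} (hγ : γ m0 ≠ 0)
    (hf : ∀ m, rst ![x, y] (D.F m) = C (γ m) * X 1 ^ (J + 2))
    (hout : ∀ m, m ≠ m0 → m ≠ m1 → γ m = 0 ∧ rst ![x, y] (dv e (D.F m)) = 0)
    (δ : Derivation ℤ L L) (hδk : ∀ m I, δ (coeff I (D.F m)) = 0) :
    (fun p => δ (x p)) ∈ Submodule.span L {x} := by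
  classical
  -- the first relation
  have hγg : ∀ m, (γ m = 0 ∧ rst ![x, y] (dv e (D.F m)) = 0) ∨
      (rst ![x, y] (dv e (D.F m))).IsHomogeneous (J + 1) := by
    intro m
    by_cases h0 : m = m0
    · right
      refine rst_hom _ (dv_hom ?_ e)
      have := D.hom m
      rw [h0, d0] at this
      rw [h0]
      exact this
    · by_cases h1 : m = m1
      · right
        refine rst_hom _ (dv_hom ?_ e)
        have := D.hom m
        rw [h1, d1] at this
        rw [h1]
        exact this
      · exact Or.inl (hout m h0 h1)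
  obtain ⟨β, ν, hg⟩ : ∃ (β : L) (ν : Fin c → L), ∀ m, rst ![x, y] (dv e (D.F m)) =
      C (β * γ m) * (X 0 * X 1 ^ J) + C (ν m) * X 1 ^ (J + 1) := by
    obtain ⟨g, ⟨i, hi⟩, hg⟩ := h.R2 ![![1, 0, 0], ![0, 1, 0], 0] ![0, 0, ![0, 1, 0]] 0
      (fun i => B2_zero) (fun i m => by
        rw [hf]
        have : ∑ m', (0 : Fin 3 → Fin c → Fin c → MvPolynomial (Fin 2) L) i m m' *
            rst ![x, y] (D.F m') = 0 := Finset.sum_eq_zero fun j _ => by
          rw [_root_.Pi.zero_apply, _root_.Pi.zero_apply, _root_.Pi.zero_apply, zero_mul]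
        rw [this, add_zero, op_pow]
        fin_cases i
        · simp
        · simp
        · simp)
    have hrel : ∀ m, C (g 0) * (X 0 * pderiv 0 (rst ![x, y] (dv e (D.F m)))) +
        C (g 1) * (X 1 * pderiv 0 (rst ![x, y] (dv e (D.F m)))) +
        C (g 2 * (((J + 1 : ℕ) : L) + 1) * γ m) * X 1 ^ (J + 1) = 0 := by
      intro m
      have h1 := hg m
      rw [Fin.sum_univ_three] at h1
      have hp : pderiv 1 (rst ![x, y] (D.F m)) = C ((((J + 1 : ℕ) : L) + 1) * γ m) *
          X 1 ^ (J + 1) := by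
        rw [hf, pderiv_C_mul, pd1_pow, C_mul]
        ring
      have o0 : ∀ q : MvPolynomial (Fin 2) L, op ![1, 0, 0] q = X 0 * pderiv 0 q := by
        intro q; unfold op; simp
      have o1 : ∀ q : MvPolynomial (Fin 2) L, op ![0, 1, 0] q = X 1 * pderiv 0 q := by
        intro q; unfold op; simp
      simp only [Matrix.cons_val_zero, Matrix.cons_val_one, Matrix.cons_val_two,
        Matrix.head_cons, Matrix.tail_cons, _root_.Pi.zero_apply, op_zero, o0, o1, hp, C_0,
        zero_mul, add_zero, zero_add, C_1, one_mul, Finset.sum_const_zero, smul_eq_C_mul] at h1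
      rw [← h1]
      simp only [C_mul]
      ring
    have := shape (K := J + 1) (by omega) m0 hγ hγg (c0 := g 0) (c1 := g 1) (c2 := g 2) (by
      fin_cases i
      · exact Or.inl hi
      · exact Or.inr (Or.inl hi)
      · exact Or.inr (Or.inr hi)) hrel
    simpa only [Nat.add_sub_cancel] using this
  by_cases hβ : β = 0
  · -- the first space
    have hν : ∀ m, m ≠ m0 → m ≠ m1 → ν m = 0 := by
      intro m h0 h1
      have h2 := hg m
      rw [(hout m h0 h1).2, hβ, zero_mul, C_0, zero_mul, zero_add] at h2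
      have h3 := (mul_eq_zero.1 h2.symm).resolve_right (pow_ne_zero _ (X_ne_zero _))
      exact C_eq_zero.1 h3
    let t : Fin 4 → TB L c := ![Pi.single m0 (X 1 ^ (J + 2), 0), Pi.single m1 (X 1 ^ (J + 2), 0),
      Pi.single m0 (0, X 1 ^ (J + 1)), Pi.single m1 (0, X 1 ^ (J + 1))]
    have hmem : ∀ p q : Fin c → L, (∀ m, m ≠ m0 → m ≠ m1 → p m = 0) →
        (∀ m, m ≠ m0 → m ≠ m1 → q m = 0) →
        (fun m => (C (p m) * X 1 ^ (J + 2), C (q m) * X 1 ^ (J + 1)) : TB L c) ∈
          Submodule.span L (Set.range t) := by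
      intro p q hp hq
      have e1 : (fun m => (C (p m) * X 1 ^ (J + 2), C (q m) * X 1 ^ (J + 1)) : TB L c) =
          (fun m => p m • ((X 1 ^ (J + 2), 0) : MvPolynomial (Fin 2) L × MvPolynomial (Fin 2) L)) +
          fun m => q m • ((0, X 1 ^ (J + 1)) :
            MvPolynomial (Fin 2) L × MvPolynomial (Fin 2) L) := by
        funext m
        refine Prod.ext ?_ ?_
        · simp [smul_eq_C_mul]
        · simp [smul_eq_C_mul]
      rw [e1, two_single _ hp, two_single _ hq]
      refine Submodule.add_mem _ (Submodule.add_mem _ (Submodule.smul_mem _ _ ?_)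
        (Submodule.smul_mem _ _ ?_)) (Submodule.add_mem _ (Submodule.smul_mem _ _ ?_)
        (Submodule.smul_mem _ _ ?_))
      · exact Submodule.subset_span ⟨0, rfl⟩
      · exact Submodule.subset_span ⟨1, rfl⟩
      · exact Submodule.subset_span ⟨2, rfl⟩
      · exact Submodule.subset_span ⟨3, rfl⟩
    have hg' : ∀ m, rst ![x, y] (dv e (D.F m)) = C (ν m) * X 1 ^ (J + 1) := by
      intro m
      rw [hg, hβ, zero_mul, C_0, zero_mul, zero_add]
    refine fin_count D hn hs h.ind hk t (fun δ => ?_) (fun a b => ?_) δ hδk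
    · have e1 : (fun m => (dco δ (rst ![x, y] (D.F m)),
          dco δ (rst ![x, y] (dv e (D.F m)))) : TB L c) =
          fun m => (C (δ (γ m)) * X 1 ^ (J + 2), C (δ (ν m)) * X 1 ^ (J + 1)) := by
        funext m
        rw [hf, hg', dco_mul, dco_mul, dco_C, dco_C, dco_pow1, dco_pow1, mul_zero, mul_zero,
          add_zero, add_zero]
      rw [e1]
      refine hmem _ _ (fun m h0 h1 => ?_) (fun m h0 h1 => ?_)
      · rw [(hout m h0 h1).1, map_zero]
      · rw [hν m h0 h1, map_zero]
    · have e1 : (fun m => (op a (rst ![x, y] (D.F m)), op a (rst ![x, y] (dv e (D.F m))) +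
          C (b 0) * pderiv 0 (rst ![x, y] (D.F m)) + C (b 1) * pderiv 1 (rst ![x, y] (D.F m)) +
          C (b 2) * rst ![x, y] (dv e (D.F m))) : TB L c) =
          fun m => (C (a 2 * ((J + 2 : ℕ) : L) * γ m) * X 1 ^ (J + 2),
            C (a 2 * ((J + 1 : ℕ) : L) * ν m + b 1 * (((J + 1 : ℕ) : L) + 1) * γ m + b 2 * ν m) *
              X 1 ^ (J + 1)) := by
        funext m
        rw [hf, hg', op_pow, op_pow, pderiv_C_mul, pderiv_C_mul, pd0_pow, pd1_pow, mul_zero,
          mul_zero, add_zero]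
        refine Prod.ext rfl ?_
        simp only [C_add, C_mul]
        ring
      rw [e1]
      refine hmem _ _ (fun m h0 h1 => ?_) (fun m h0 h1 => ?_)
      · rw [(hout m h0 h1).1, mul_zero]
      · rw [(hout m h0 h1).1, hν m h0 h1]
        ring
  · -- the second relation
    obtain ⟨ν', hν'⟩ : ∃ ν' : L, ∀ m, ν m = ν' * γ m := by
      obtain ⟨g, ⟨i, hi⟩, hr⟩ := h.R2 ![![1, 0, 0], 0, 0] ![0, ![0, 1, 0], ![0, 0, 1]] 0
        (fun i => B2_zero) (fun i m => by
          rw [hf]
          have : ∑ m', (0 : Fin 3 → Fin c → Fin c → MvPolynomial (Fin 2) L) i m m' *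
              rst ![x, y] (D.F m') = 0 := Finset.sum_eq_zero fun j _ => by
            rw [_root_.Pi.zero_apply, _root_.Pi.zero_apply, _root_.Pi.zero_apply, zero_mul]
          rw [this, add_zero, op_pow]
          fin_cases i
          · simp
          · simp
          · simp)
      have hrel : ∀ m, (C ((g 0 + g 2) * (β * γ m)) * (X 0 * X 1 ^ J) +
          C (g 1 * (((J + 1 : ℕ) : L) + 1) * γ m + g 2 * ν m) * X 1 ^ (J + 1) :
            MvPolynomial (Fin 2) L) = 0 := by
        intro m
        have h1 := hr m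
        rw [Fin.sum_univ_three] at h1
        have hp : pderiv 1 (rst ![x, y] (D.F m)) = C ((((J + 1 : ℕ) : L) + 1) * γ m) *
            X 1 ^ (J + 1) := by
          rw [hf, pderiv_C_mul, pd1_pow, C_mul]
          ring
        have o0 : op ![1, 0, 0] (rst ![x, y] (dv e (D.F m))) = C (β * γ m) * (X 0 * X 1 ^ J) := by
          rw [hg, op_add, op_mix, op_pow]
          simp
        simp only [Matrix.cons_val_zero, Matrix.cons_val_one, Matrix.cons_val_two,
          Matrix.head_cons, Matrix.tail_cons, _root_.Pi.zero_apply, op_zero, o0, hp, C_0,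
          zero_mul, add_zero, zero_add, C_1, one_mul, Finset.sum_const_zero, smul_eq_C_mul] at h1
        rw [hg m] at h1
        rw [← h1]
        simp only [C_mul, C_add]
        ring
      -- coefficients
      have hco : ∀ m, (g 0 + g 2) * (β * γ m) = 0 ∧
          g 1 * (((J + 1 : ℕ) : L) + 1) * γ m + g 2 * ν m = 0 := by
        intro m
        have h1 := hrel m
        have h2 : (X 0 : MvPolynomial (Fin 2) L) * X 1 ^ J = monomial (m2 1 J) 1 := by
          rw [X_pow_eq_monomial]
          unfold m2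
          rw [show (X 0 : MvPolynomial (Fin 2) L) = monomial (Finsupp.single 0 1) 1 from rfl,
            monomial_mul, mul_one]
        have h3 : (X 1 ^ (J + 1) : MvPolynomial (Fin 2) L) = monomial (m2 0 (J + 1)) 1 := by
          rw [X_pow_eq_monomial]
          unfold m2
          rw [Finsupp.single_zero, zero_add]
        rw [h2, h3, C_mul_monomial, C_mul_monomial, mul_one, mul_one] at h1
        have c0 := congrArg (coeff (m2 1 J)) h1
        have c1 := congrArg (coeff (m2 0 (J + 1))) h1
        have n1 : ¬ (m2 0 (J + 1) = m2 1 J) := by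
          rw [m2_inj]
          omega
        rw [coeff_add, coeff_monomial, coeff_monomial, if_pos rfl, if_neg n1, add_zero,
          coeff_zero] at c0
        rw [coeff_add, coeff_monomial, coeff_monomial, if_neg (Ne.symm n1), if_pos rfl, zero_add,
          coeff_zero] at c1
        exact ⟨c0, c1⟩
      have hJ0 : (((J + 1 : ℕ) : L) + 1) ≠ 0 := by exact_mod_cast Nat.succ_ne_zero (J + 1)
      have h02 : g 0 + g 2 = 0 :=
        (mul_eq_zero.1 (hco m0).1).resolve_right (mul_ne_zero hβ hγ)
      have h2 : g 2 ≠ 0 := by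
        intro h2
        have h0 : g 0 = 0 := by rw [h2, add_zero] at h02; exact h02
        have h1 := (hco m0).2
        rw [h2, zero_mul, add_zero] at h1
        have h3 := (mul_eq_zero.1 ((mul_eq_zero.1 h1).resolve_right hγ)).resolve_right hJ0
        fin_cases i
        · exact hi h0
        · exact hi h3
        · exact hi h2
      refine ⟨-(g 1 * (((J + 1 : ℕ) : L) + 1)) / g 2, fun m => ?_⟩
      have h4 := (hco m).2
      field_simp
      linear_combination h4
    have hg' : ∀ m, rst ![x, y] (dv e (D.F m)) =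
        C (β * γ m) * (X 0 * X 1 ^ J) + C (ν' * γ m) * X 1 ^ (J + 1) := by
      intro m
      rw [hg, hν']
    let φ : MvPolynomial (Fin 2) L × MvPolynomial (Fin 2) L :=
      (X 1 ^ (J + 2), C β * (X 0 * X 1 ^ J) + C ν' * X 1 ^ (J + 1))
    let t : Fin 4 → TB L c := ![fun m => (0, C (γ m) * (X 0 * X 1 ^ J)),
      fun m => (0, C (γ m) * X 1 ^ (J + 1)), Pi.single m0 φ, Pi.single m1 φ]
    have hmem : ∀ (p : Fin c → L) (r s : L), (∀ m, m ≠ m0 → m ≠ m1 → p m = 0) →
        (fun m => (C (p m) * X 1 ^ (J + 2), C (p m) * (C β * (X 0 * X 1 ^ J) +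
          C ν' * X 1 ^ (J + 1)) + C (r * γ m) * (X 0 * X 1 ^ J) +
          C (s * γ m) * X 1 ^ (J + 1)) : TB L c) ∈ Submodule.span L (Set.range t) := by
      intro p r s hp
      have e1 : (fun m => (C (p m) * X 1 ^ (J + 2), C (p m) * (C β * (X 0 * X 1 ^ J) +
          C ν' * X 1 ^ (J + 1)) + C (r * γ m) * (X 0 * X 1 ^ J) +
          C (s * γ m) * X 1 ^ (J + 1)) : TB L c) = r • t 0 + s • t 1 + fun m => p m • φ := by
        funext m
        refine Prod.ext ?_ ?_
        · simp [t, φ, smul_eq_C_mul]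
        · simp only [t, φ, Matrix.cons_val_zero, Matrix.cons_val_one,
            Pi.add_apply, Pi.smul_apply, Prod.snd_add, Prod.smul_snd, smul_eq_C_mul, C_mul]
          ring
      rw [e1, two_single _ hp]
      refine Submodule.add_mem _ (Submodule.add_mem _ (Submodule.smul_mem _ _ ?_)
        (Submodule.smul_mem _ _ ?_)) (Submodule.add_mem _ (Submodule.smul_mem _ _ ?_)
        (Submodule.smul_mem _ _ ?_))
      · exact Submodule.subset_span ⟨0, rfl⟩
      · exact Submodule.subset_span ⟨1, rfl⟩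
      · exact Submodule.subset_span ⟨2, rfl⟩
      · exact Submodule.subset_span ⟨3, rfl⟩
    refine fin_count D hn hs h.ind hk t (fun δ => ?_) (fun a b => ?_) δ hδk
    · have e1 : (fun m => (dco δ (rst ![x, y] (D.F m)),
          dco δ (rst ![x, y] (dv e (D.F m)))) : TB L c) =
          fun m => (C (δ (γ m)) * X 1 ^ (J + 2), C (δ (γ m)) * (C β * (X 0 * X 1 ^ J) +
          C ν' * X 1 ^ (J + 1)) + C (δ β * γ m) * (X 0 * X 1 ^ J) +
          C (δ ν' * γ m) * X 1 ^ (J + 1)) := by
        funext m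
        refine Prod.ext ?_ ?_
        · change dco δ (rst ![x, y] (D.F m)) = _
          rw [hf, dco_mul, dco_C, dco_pow1, mul_zero, add_zero]
        · change dco δ (rst ![x, y] (dv e (D.F m))) = _
          rw [hg', dco_add, dco_mul, dco_mul, dco_mul, dco_C, dco_C, dco_pow1, dco_pow1, dco_X,
            Derivation.leibniz, Derivation.leibniz]
          simp only [smul_eq_mul, C_add, C_mul]
          ring
      rw [e1]
      exact hmem _ _ _ fun m h0 h1 => by rw [(hout m h0 h1).1, map_zero]
    · have e1 : (fun m => (op a (rst ![x, y] (D.F m)), op a (rst ![x, y] (dv e (D.F m))) +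
          C (b 0) * pderiv 0 (rst ![x, y] (D.F m)) + C (b 1) * pderiv 1 (rst ![x, y] (D.F m)) +
          C (b 2) * rst ![x, y] (dv e (D.F m))) : TB L c) =
          fun m => (C (a 2 * ((J + 2 : ℕ) : L) * γ m) * X 1 ^ (J + 2),
            C (a 2 * ((J + 2 : ℕ) : L) * γ m) * (C β * (X 0 * X 1 ^ J) +
              C ν' * X 1 ^ (J + 1)) +
            C (((a 0 + a 2 * J) * β + b 2 * β - a 2 * ((J + 2 : ℕ) : L) * β) * γ m) *
              (X 0 * X 1 ^ J) +
            C ((a 1 * β + a 2 * ((J + 1 : ℕ) : L) * ν' + b 1 * (((J + 1 : ℕ) : L) + 1) +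
              b 2 * ν' - a 2 * ((J + 2 : ℕ) : L) * ν') * γ m) * X 1 ^ (J + 1)) := by
        funext m
        refine Prod.ext ?_ ?_
        · change op a (rst ![x, y] (D.F m)) = _
          rw [hf, op_pow]
        · change op a (rst ![x, y] (dv e (D.F m))) +
            C (b 0) * pderiv 0 (rst ![x, y] (D.F m)) + C (b 1) * pderiv 1 (rst ![x, y] (D.F m)) +
            C (b 2) * rst ![x, y] (dv e (D.F m)) = _
          rw [hf, hg', op_add, op_mix, op_pow, pderiv_C_mul, pderiv_C_mul, pd0_pow, pd1_pow,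
            mul_zero, mul_zero, add_zero]
          simp only [C_add, C_sub, C_mul]
          ring
      rw [e1]
      exact hmem _ _ _ fun m h0 h1 => by rw [(hout m h0 h1).1, mul_zero]

end

end Pool.Agent.T2C.H65
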