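import Pool.Agent.Lib.MP_c7af3c_ag.T2C.H65.G

/-!
# MP_c7af3c_ag, project T2C (tuples): lines, one component of maximal degree (helper65)
-/

set_option autoImplicit false

namespace Pool.Agent.T2C.H65

open MvPolynomial Pool.Agent.Gen Pool.Agent.Sharp.H75 Pool.Agent.T2.H65 Module

section

variable {L : Type} [Field L] {n : ℕ} {x y : Fin (n + 1) → L}

theorem mono_e0 {i k : ℕ} {t : L} {f : MvPolynomial (Fin 2) L}
    (hf : f = monomial (m2 k i) t) : X 0 * pderiv 0 f = C (k : L) * f := by
  ext I
  rw [coeff_X_mul_pderiv, coeff_C_mul]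
  by_cases hI : coeff I f = 0
  · rw [hI]; ring
  · rw [hf, coeff_monomial] at hI
    have : m2 k i = I := by
      by_contra hne
      exact hI (if_neg hne)
    rw [← this, m2_0]

theorem mono_e1 {i k : ℕ} {t : L} {f : MvPolynomial (Fin 2) L}
    (hf : f = monomial (m2 k i) t) : X 1 * pderiv 1 f = C (i : L) * f := by
  ext I
  rw [coeff_X_mul_pderiv, coeff_C_mul]
  by_cases hI : coeff I f = 0
  · rw [hI]; ring
  · rw [hf, coeff_monomial] at hI
    have : m2 k i = I := by
      by_contra hne
      exact hI (if_neg hne)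
    rw [← this, m2_1]

/-- the partial derivatives of a monomial with two roots are independent -/
theorem pd_indepk [CharZero L] {i k : ℕ} (hk : k ≠ 0) (hi : i ≠ 0) {t : L} (ht : t ≠ 0)
    {f : MvPolynomial (Fin 2) L} (hf : f = monomial (m2 k i) t) {α β : L}
    (h : C α * pderiv 0 f + C β * pderiv 1 f = 0) : α = 0 ∧ β = 0 := by
  classical
  have e0 := mono_e0 hf
  have e1 := mono_e1 hf
  have hf0 : f ≠ 0 := by
    rw [hf]
    intro h0
    exact ht (monomial_eq_zero.1 h0)
  have h2 : (C (α * (k : L)) * X 1 + C (β * (i : L)) * X 0) * f = 0 := by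
    rw [C_mul, C_mul]
    linear_combination X 0 * X 1 * h - C α * X 1 * e0 - C β * X 0 * e1
  have h3 := (mul_eq_zero.1 h2).resolve_right hf0
  have c1 := congrArg (coeff (Finsupp.single 1 1)) h3
  have c0 := congrArg (coeff (Finsupp.single 0 1)) h3
  have n1 : (k : L) ≠ 0 := by exact_mod_cast hk
  have n2 : (i : L) ≠ 0 := by exact_mod_cast hi
  rw [coeff_add, coeff_C_mul, coeff_C_mul, coeff_X, coeff_X, coeff_zero] at c1 c0
  have s1 : ¬ (Finsupp.single (0 : Fin 2) 1 = Finsupp.single (1 : Fin 2) 1) := by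
    intro h
    have := DFunLike.congr_fun h 0
    simp at this
  rw [if_pos rfl, if_neg s1] at c1
  rw [if_neg (Ne.symm s1), if_pos rfl] at c0
  constructor
  · have : α * (k : L) = 0 := by linear_combination c1
    exact (mul_eq_zero.1 this).resolve_right n1
  · have : β * (i : L) = 0 := by linear_combination c0
    exact (mul_eq_zero.1 this).resolve_right n2

/-- the restriction is a monomial in a suitable frame -/
theorem exists_muk [CharZero L] {m : ℕ} (hm : m ≠ 0) {H : MvPolynomial (Fin (n + 1)) L}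
    (hF : H.IsHomogeneous m) (hxy : LinearIndependent L ![x, y])
    (hf : rst ![x, y] H ≠ 0) {g : Fin 3 → L} (hg : ∃ i, g i ≠ 0)
    (hrel : C (g 0) * (X 0 * pderiv 0 (rst ![x, y] H)) +
      C (g 1) * (X 1 * pderiv 0 (rst ![x, y] H)) +
      C (g 2) * (X 1 * pderiv 1 (rst ![x, y] H)) = 0) :
    ∃ μ : L, ∃ i ≤ m, ∃ t : L, t ≠ 0 ∧
      rst ![x, y + μ • x] H = monomial (m2 (m - i) i) t := by
  classical
  by_cases hac : g 0 = g 2
  · by_cases h0 : g 0 = 0
    · -- `X_1 df/dX_0 = 0`
      have h1 : g 1 ≠ 0 := by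
        obtain ⟨i, hi⟩ := hg
        fin_cases i
        · exact absurd h0 hi
        · exact hi
        · exact absurd (hac ▸ h0) hi
      rw [← hac, h0, C_0, zero_mul, zero_mul, zero_add, add_zero] at hrel
      have h2 : pderiv 0 (rst ![x, y] H) = 0 := by
        rcases mul_eq_zero.1 hrel with h | h
        · exact absurd h (by simpa using h1)
        · rcases mul_eq_zero.1 h with h | h
          · exact absurd h (X_ne_zero _)
          · exact h
      obtain ⟨i, hi, t, ht, h3⟩ := one_mono (rst_hom ![x, y] hF) hf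
        (show (1 : L) ≠ 0 from one_ne_zero) (fun I => by
          have h4 := coeff_X_mul_pderiv (L := L) (0 : Fin 2) (rst ![x, y] H) I
          rw [h2, mul_zero, coeff_zero] at h4
          rw [zero_mul, add_zero, one_mul, ← h4])
      refine ⟨0, i, hi, t, ht, ?_⟩
      rw [zero_smul, add_zero]
      exact h3
    · exfalso
      apply hf
      refine zero_nil (m := m) hm (b := g 1) h0 ?_
      have h4 : C (g 0) * (X 0 * pderiv 0 (rst ![x, y] H) +
          X 1 * pderiv 1 (rst ![x, y] H)) =
          C ((m : L) * g 0) * rst ![x, y] H := by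
        ext I
        rw [coeff_C_mul, coeff_add, coeff_X_mul_pderiv, coeff_X_mul_pderiv, coeff_C_mul]
        by_cases hI : coeff I (rst ![x, y] H) = 0
        · rw [hI]; ring
        · have h5 := degree_of_hom (rst_hom ![x, y] hF) hI
          rw [Finsupp.degree_eq_sum, Fin.sum_univ_two] at h5
          have h6 : (I 0 : L) + (I 1 : L) = m := by exact_mod_cast h5
          linear_combination g 0 * coeff I (rst ![x, y] H) * h6
      rw [← h4, ← hrel, ← hac]
      ring
  · -- diagonal
    set μ := g 1 / (g 2 - g 0) with hμ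
    have hne : g 2 - g 0 ≠ 0 := fun h => hac (sub_eq_zero.1 h).symm
    obtain ⟨φ, hφ⟩ := rst_dual ![x, y] hxy
    have hφ00 : dt (φ 0) x = 1 := by have := hφ 0 0; simpa using this
    have hφ01 : dt (φ 0) y = 0 := by have := hφ 0 1; simpa using this
    have hφ10 : dt (φ 1) x = 0 := by have := hφ 1 0; simpa using this
    have hφ11 : dt (φ 1) y = 1 := by have := hφ 1 1; simpa using this
    have h1 : rst ![x, y] (C (g 0) * (lf (φ 0) * dv x H) +
        C (g 1) * (lf (φ 1) * dv x H) + C (g 2) * (lf (φ 1) * dv y H)) = 0 := by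
      rw [← hrel, pderiv_rst, pderiv_rst]
      simp only [map_add, map_mul, rst_C, rst_lf, Fin.sum_univ_two]
      simp [hφ00, hφ01, hφ10, hφ11]
    have hsub : ∀ j, ![x, y + μ • x] j ∈ Submodule.span L (Set.range ![x, y]) := by
      intro j
      fin_cases j
      · exact x_mem2
      · exact Submodule.add_mem _ y_mem2 (Submodule.smul_mem _ _ x_mem2)
    have h2 := rst_span hsub h1
    set f' := rst ![x, y + μ • x] H with hf'
    have h3 : rst ![x, y + μ • x] (dv x H) = pderiv 0 f' := by
      rw [hf', pderiv_rst]; rfl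
    have h4 : rst ![x, y + μ • x] (dv y H) = pderiv 1 f' - C μ * pderiv 0 f' := by
      rw [hf', pderiv_rst, pderiv_rst]
      change _ = rst _ (dv (y + μ • x) H) - C μ * rst _ (dv x H)
      rw [dv_add, dv_smul, map_add, rst_smul, smul_eq_C_mul]
      ring
    have h5 : C (g 0) * (X 0 * pderiv 0 f') + C (g 2) * (X 1 * pderiv 1 f') = 0 := by
      have h6 : C (g 0) * C μ + C (g 1) - C (g 2) * C μ = (0 : MvPolynomial (Fin 2) L) := by
        rw [← C_mul, ← C_mul, ← C_add, ← C_sub]
        have : g 0 * μ + g 1 - g 2 * μ = 0 := by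
          rw [hμ]
          field_simp
          ring
        rw [this, C_0]
      simp only [map_add, map_mul, rst_C, rst_lf, Fin.sum_univ_two, h3, h4] at h2
      have e1 : dt (φ 0) (![x, y + μ • x] 0) = 1 := hφ00
      have e2 : dt (φ 0) (![x, y + μ • x] 1) = μ := by
        change dt (φ 0) (y + μ • x) = μ
        rw [dt_add, dt_smul, hφ01, hφ00]
        ring
      have e3 : dt (φ 1) (![x, y + μ • x] 0) = 0 := hφ10
      have e4 : dt (φ 1) (![x, y + μ • x] 1) = 1 := by
        change dt (φ 1) (y + μ • x) = 1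
        rw [dt_add, dt_smul, hφ11, hφ10]
        ring
      rw [e1, e2, e3, e4, C_1, C_0] at h2
      linear_combination h2 - X 1 * pderiv 0 f' * h6
    have hf'0 : f' ≠ 0 := by
      intro h
      apply hf
      have hsub' : ∀ j, ![x, y] j ∈ Submodule.span L (Set.range ![x, y + μ • x]) := by
        intro j
        fin_cases j
        · exact x_mem2
        · have h9 := Submodule.sub_mem _ (y_mem2 (x := x) (y := y + μ • x))
            (Submodule.smul_mem _ μ (x_mem2 (x := x) (y := y + μ • x)))
          rw [add_sub_cancel_right] at h9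
          exact h9
      exact rst_span hsub' h
    obtain ⟨i, hi, t, ht, h6⟩ := one_mono (rst_hom _ hF) hf'0 hac (fun I => by
      have h7 := congrArg (coeff I) h5
      rw [coeff_add, coeff_C_mul, coeff_C_mul, coeff_X_mul_pderiv, coeff_X_mul_pderiv,
        coeff_zero] at h7
      linear_combination h7)
    exact ⟨μ, i, hi, t, ht, h6⟩

variable {c : ℕ} {d : Fin c → ℕ} {D : DSys L n c d} {e : Fin (n + 1) → L}

/-- the relation on the line, one component -/
theorem Frm.rel (h : Frm D x y e) (m0 : Fin c) : ∃ g : Fin 3 → L, (∃ i, g i ≠ 0) ∧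
    C (g 0) * (X 0 * pderiv 0 (rst ![x, y] (D.F m0))) +
      C (g 1) * (X 1 * pderiv 0 (rst ![x, y] (D.F m0))) +
      C (g 2) * (X 1 * pderiv 1 (rst ![x, y] (D.F m0))) = 0 := by
  obtain ⟨g, hi, hg⟩ := h.R1 ![![1, 0, 0], ![0, 1, 0], ![0, 0, 1]] 0 (fun i => B2_zero)
  refine ⟨g, hi, ?_⟩
  have h1 := hg m0
  rw [Fin.sum_univ_three] at h1
  have o0 : ∀ q : MvPolynomial (Fin 2) L, op ![1, 0, 0] q = X 0 * pderiv 0 q := by
    intro q; unfold op; simp
  have o1 : ∀ q : MvPolynomial (Fin 2) L, op ![0, 1, 0] q = X 1 * pderiv 0 q := by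
    intro q; unfold op; simp
  have o2 : ∀ q : MvPolynomial (Fin 2) L, op ![0, 0, 1] q = X 1 * pderiv 1 q := by
    intro q; unfold op; simp
  simp only [Matrix.cons_val_zero, Matrix.cons_val_one, Matrix.cons_val_two,
    Matrix.head_cons, Matrix.tail_cons, _root_.Pi.zero_apply, o0, o1, o2,
    zero_mul, add_zero, Finset.sum_const_zero, smul_eq_C_mul] at h1
  exact h1

/-- the case of a monomial with two roots -/
theorem Frm.mono [CharZero L] (h : Frm D x y e) (hn : n = c + 3) (hs : ∑ m, d m = n + 2)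
    {k : Fin c → ℕ} (hk : ∀ m, d m = k m + 1) {m0 : Fin c} {i j : ℕ} (hi : i ≠ 0) (hj : j ≠ 0)
    {t0 : L} (ht : t0 ≠ 0) (hf : rst ![x, y] (D.F m0) = monomial (m2 j i) t0)
    (hf0 : ∀ m, m ≠ m0 → rst ![x, y] (D.F m) = 0)
    (δ : Derivation ℤ L L) (hδk : ∀ m I, δ (coeff I (D.F m)) = 0) :
    (fun p => δ (x p)) ∈ Submodule.span L {x} := by
  classical
  obtain ⟨g, ⟨l, hl⟩, hg⟩ := h.R2 0 ![![1, 0, 0], ![0, 1, 0], ![0, 0, 1]] 0
    (fun i => B2_zero) (fun i m => by
      rw [_root_.Pi.zero_apply, op_zero, zero_add]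
      exact Finset.sum_eq_zero fun j _ => by
        rw [_root_.Pi.zero_apply, _root_.Pi.zero_apply, _root_.Pi.zero_apply, zero_mul])
  have hrel : ∀ m, C (g 0) * pderiv 0 (rst ![x, y] (D.F m)) +
      C (g 1) * pderiv 1 (rst ![x, y] (D.F m)) + C (g 2) * rst ![x, y] (dv e (D.F m)) = 0 := by
    intro m
    have h1 := hg m
    rw [Fin.sum_univ_three] at h1
    simp only [Matrix.cons_val_zero, Matrix.cons_val_one, Matrix.cons_val_two,
      Matrix.head_cons, Matrix.tail_cons, _root_.Pi.zero_apply, op_zero, C_0, C_1, one_mul,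
      zero_mul, add_zero, zero_add, Finset.sum_const_zero, smul_eq_C_mul] at h1
    exact h1
  have g2 : g 2 ≠ 0 := by
    intro g2
    have h1 := hrel m0
    rw [g2, C_0, zero_mul, add_zero] at h1
    have h2 := pd_indepk hj hi ht hf h1
    fin_cases l
    · exact hl h2.1
    · exact hl h2.2
    · exact hl g2
  set e' := g 0 • x + g 1 • y + g 2 • e with he'
  have hind : LinearIndependent L ![x, y, e'] := by
    have h' := Fintype.linearIndependent_iff.1 h.ind
    rw [Fintype.linearIndependent_iff]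
    intro a ha
    rw [Fin.sum_univ_three] at ha
    change a 0 • x + a 1 • y + a 2 • e' = 0 at ha
    have h1 := h' ![a 0 + a 2 * g 0, a 1 + a 2 * g 1, a 2 * g 2] (by
      rw [Fin.sum_univ_three]
      change (a 0 + a 2 * g 0) • x + (a 1 + a 2 * g 1) • y + (a 2 * g 2) • e = 0
      rw [← ha, he', smul_add, smul_add, smul_smul, smul_smul, smul_smul, add_smul, add_smul]
      abel)
    have h2 : a 2 = 0 := (mul_eq_zero.1 (h1 2)).resolve_right g2
    have h3 : a 0 + a 2 * g 0 = 0 := h1 0
    have h4 : a 1 + a 2 * g 1 = 0 := h1 1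
    rw [h2, zero_mul, add_zero] at h3 h4
    intro i
    fin_cases i
    · exact h3
    · exact h4
    · exact h2
  have hde : ∀ m, rst ![x, y] (dv e' (D.F m)) = 0 := by
    intro m
    rw [← hrel m, he', dv_add, dv_add, dv_smul, dv_smul, dv_smul, map_add, map_add, rst_smul,
      rst_smul, rst_smul]
    have e0 : rst ![x, y] (dv x (D.F m)) = pderiv 0 (rst ![x, y] (D.F m)) := by
      rw [pderiv_rst]; rfl
    have e1 : rst ![x, y] (dv y (D.F m)) = pderiv 1 (rst ![x, y] (D.F m)) := by
      rw [pderiv_rst]; rfl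
    rw [e0, e1, smul_eq_C_mul, smul_eq_C_mul, smul_eq_C_mul]
  let t : Fin 4 → TB L c := ![fun m => (rst ![x, y] (D.F m), 0),
    fun m => (X 1 * pderiv 0 (rst ![x, y] (D.F m)), 0),
    fun m => (0, pderiv 0 (rst ![x, y] (D.F m))), fun m => (0, pderiv 1 (rst ![x, y] (D.F m)))]
  refine fin_count D hn hs hind hk t (fun δ => ?_) (fun a b => ?_) δ hδk
  · have e1 : (fun m => (dco δ (rst ![x, y] (D.F m)),
        dco δ (rst ![x, y] (dv e' (D.F m)))) : TB L c) = (δ t0 / t0) • t 0 := by
      funext m
      refine Prod.ext ?_ ?_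
      · change dco δ (rst ![x, y] (D.F m)) = (δ t0 / t0) • rst ![x, y] (D.F m)
        by_cases hm : m = m0
        · rw [hm, hf, smul_monomial, smul_eq_mul, div_mul_cancel₀ _ ht]
          ext I
          rw [coeff_dco, coeff_monomial, coeff_monomial]
          split_ifs with h1
          · rfl
          · rw [map_zero]
        · rw [hf0 m hm, dco_zero, smul_zero]
      · change dco δ (rst ![x, y] (dv e' (D.F m))) = (δ t0 / t0) • 0
        rw [hde, dco_zero, smul_zero]
    rw [e1]
    exact Submodule.smul_mem _ _ (Submodule.subset_span ⟨0, rfl⟩)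
  · have e1 : (fun m => (op a (rst ![x, y] (D.F m)), op a (rst ![x, y] (dv e' (D.F m))) +
        C (b 0) * pderiv 0 (rst ![x, y] (D.F m)) + C (b 1) * pderiv 1 (rst ![x, y] (D.F m)) +
        C (b 2) * rst ![x, y] (dv e' (D.F m))) : TB L c) =
        (a 0 * j + a 2 * i) • t 0 + a 1 • t 1 + b 0 • t 2 + b 1 • t 3 := by
      funext m
      refine Prod.ext ?_ ?_
      · change op a (rst ![x, y] (D.F m)) = (a 0 * j + a 2 * i) • rst ![x, y] (D.F m) +
          a 1 • (X 1 * pderiv 0 (rst ![x, y] (D.F m))) + b 0 • 0 + b 1 • 0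
        by_cases hm : m = m0
        · rw [hm]
          unfold op
          rw [mono_e0 hf, mono_e1 hf]
          simp only [smul_eq_C_mul, C_add, C_mul, smul_zero, add_zero]
          ring
        · rw [hf0 m hm, op_zero_right]
          simp
      · change op a (rst ![x, y] (dv e' (D.F m))) +
          C (b 0) * pderiv 0 (rst ![x, y] (D.F m)) + C (b 1) * pderiv 1 (rst ![x, y] (D.F m)) +
          C (b 2) * rst ![x, y] (dv e' (D.F m)) = (a 0 * j + a 2 * i) • 0 + a 1 • 0 +
            b 0 • pderiv 0 (rst ![x, y] (D.F m)) + b 1 • pderiv 1 (rst ![x, y] (D.F m))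
        rw [hde, op_zero_right]
        simp only [smul_eq_C_mul, smul_zero, mul_zero, add_zero, zero_add]
    rw [e1]
    refine Submodule.add_mem _ (Submodule.add_mem _ (Submodule.add_mem _
      (Submodule.smul_mem _ _ ?_) (Submodule.smul_mem _ _ ?_)) (Submodule.smul_mem _ _ ?_))
      (Submodule.smul_mem _ _ ?_)
    · exact Submodule.subset_span ⟨0, rfl⟩
    · exact Submodule.subset_span ⟨1, rfl⟩
    · exact Submodule.subset_span ⟨2, rfl⟩
    · exact Submodule.subset_span ⟨3, rfl⟩

end

end Pool.Agent.T2C.H65
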