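import Pool.Agent.Lib.MP_c7af3c_ag.T2C.H65.H
import Pool.Agent.Lib.MP_c7af3c_ag.T2.H65.Line

/-!
# MP_c7af3c_ag, project T2C (tuples): row LINE (helper65)

In the situation `Sit` (`n = c + 3`, `sum d = n + 2`, `d m >= 2`) the bounded columns and the
`V_x(G)`, `G` zero on a line through `x`, are not contained in a space `<x, kappa>`.
-/

set_option autoImplicit false

namespace Pool.Agent.T2C.H65

open MvPolynomial Pool.Agent.Gen Pool.Agent.Sharp.H75 Pool.Agent.T2.H65 Module

section

variable {L : Type} [Field L] {n c : ℕ} {d : Fin c → ℕ} (D : DSys L n c d)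
  {x y : Fin (n + 1) → L}

theorem VT_VT (z : Fin (n + 1) → L) (G : Tup L n c) : Sharp.VT D z G = VT D z G := by
  rw [Sharp.VT_apply, VT_eq]

theorem GF_ten (p q : Fin (n + 1)) :
    GF D (0, ten (_root_.Pi.single q 1) (_root_.Pi.single p 1), 0) =
      fun m => X q * pderiv p (D.F m) := by
  classical
  funext m
  have h1 : (lf (_root_.Pi.single q 1) : MvPolynomial (Fin (n + 1)) L) = X q := by
    unfold lf
    rw [Finset.sum_eq_single q]
    · rw [_root_.Pi.single_eq_same, C_1, one_mul]
    · intro r _ hr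
      rw [_root_.Pi.single_eq_of_ne hr, C_0, zero_mul]
    · intro h; exact absurd (Finset.mem_univ _) h
  have h2 : dv (_root_.Pi.single p 1) (D.F m) = pderiv p (D.F m) := by
    rw [dv_eq, Finset.sum_eq_single p]
    · rw [_root_.Pi.single_eq_same, C_1, one_mul]
    · intro r _ hr
      rw [_root_.Pi.single_eq_of_ne hr, C_0, zero_mul]
    · intro h; exact absurd (Finset.mem_univ _) h
  rw [GF_apply, af_ten, h1, h2]
  simp

theorem WT_nv (z : Fin (n + 1) → L) (p q : Fin (n + 1)) :
    Sharp.WT D z p q = nv D z (0, ten (_root_.Pi.single q 1) (_root_.Pi.single p 1), 0) := by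
  classical
  have h0 : nv D z (0, ten (_root_.Pi.single q 1) (_root_.Pi.single p 1), 0) =
      VT D z (GF D (0, ten (_root_.Pi.single q 1) (_root_.Pi.single p 1), 0)) +
        mvL z (ten (_root_.Pi.single q 1) (_root_.Pi.single p 1)) := rfl
  rw [h0, GF_ten, mvL_ten]
  unfold Sharp.WT
  rw [VT_VT]
  have h3 : dt (_root_.Pi.single q (1 : L)) z = z q := by
    unfold dt
    rw [Finset.sum_eq_single q]
    · rw [_root_.Pi.single_eq_same, one_mul]
    · intro r _ hr
      rw [_root_.Pi.single_eq_of_ne hr, zero_mul]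
    · intro h; exact absurd (Finset.mem_univ _) h
  rw [h3]
  exact add_comm _ _

theorem E_sum (E : Fin (n + 1) → Fin (n + 1) → L) :
    ((0, E, 0) : GE L n c) =
      ∑ p, ∑ q, E p q • (0, ten (_root_.Pi.single q 1) (_root_.Pi.single p 1), 0) := by
  classical
  apply Prod.ext
  · simp only [Prod.fst_sum, Prod.smul_fst, smul_zero, Finset.sum_const_zero]
  · apply Prod.ext
    · simp only [Prod.snd_sum, Prod.fst_sum, Prod.smul_snd, Prod.smul_fst]
      funext a b
      simp only [Finset.sum_apply, _root_.Pi.smul_apply, smul_eq_mul, ten]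
      rw [Finset.sum_eq_single a]
      · rw [Finset.sum_eq_single b]
        · simp
        · intro q _ hq
          simp [hq]
        · intro h; exact absurd (Finset.mem_univ _) h
      · intro p _ hp
        refine Finset.sum_eq_zero fun q _ => ?_
        simp [hp]
      · intro h; exact absurd (Finset.mem_univ _) h
    · simp only [Prod.snd_sum, Prod.smul_snd, smul_zero, Finset.sum_const_zero]

theorem nv_E_mem {S : Submodule L (Fin (n + 1) → L)} {z : Fin (n + 1) → L}
    (h : ∀ p q, Sharp.WT D z p q ∈ S) (E : Fin (n + 1) → Fin (n + 1) → L) :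
    nv D z (0, E, 0) ∈ S := by
  rw [E_sum, map_sum]
  refine Submodule.sum_mem _ fun p _ => ?_
  rw [map_sum]
  refine Submodule.sum_mem _ fun q _ => ?_
  rw [map_smul, ← WT_nv]
  exact S.smul_mem _ (h p q)

/-- the columns of the matrices of forms -/
theorem nv_B_mem {S : Submodule L (Fin (n + 1) → L)} {z : Fin (n + 1) → L}
    (h : ∀ (m m' : Fin c) (I : Fin (n + 1) →₀ ℕ), d m' ≤ d m → I.degree = d m - d m' →
      VT D z (_root_.Pi.single m (monomial I 1 * D.F m')) ∈ S) {B : MB L n c} (hB : BH d B) :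
    nv D z (0, 0, B) ∈ S := by
  classical
  have h0 : nv D z (0, 0, B) = VT D z (bT B D.F) := by
    have h1 : nv D z (0, 0, B) = VT D z (GF D (0, 0, B)) + mvL z 0 := rfl
    rw [h1, map_zero, add_zero]
    congr 1
    funext m
    rw [GF_apply, bT_apply]
    simp [af, lf]
  have h2 : bT B D.F = ∑ m, ∑ m', ∑ I ∈ (B m m').support,
      coeff I (B m m') • (_root_.Pi.single m (monomial I 1 * D.F m') : Tup L n c) := by
    funext k
    rw [Finset.sum_apply, Finset.sum_eq_single k]
    · rw [bT_apply, Finset.sum_apply]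
      refine Finset.sum_congr rfl fun m' _ => ?_
      rw [Finset.sum_apply]
      conv_lhs => rw [(B k m').as_sum, Finset.sum_mul]
      refine Finset.sum_congr rfl fun I _ => ?_
      rw [_root_.Pi.smul_apply, _root_.Pi.single_eq_same, ← smul_mul_assoc, smul_monomial,
        smul_eq_mul, mul_one]
    · intro m _ hm
      rw [Finset.sum_apply]
      refine Finset.sum_eq_zero fun m' _ => ?_
      rw [Finset.sum_apply]
      refine Finset.sum_eq_zero fun I _ => ?_
      rw [_root_.Pi.smul_apply, _root_.Pi.single_eq_of_ne (Ne.symm hm), smul_zero]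
    · intro h; exact absurd (Finset.mem_univ _) h
  rw [h0, h2, map_sum]
  refine Submodule.sum_mem _ fun m _ => ?_
  rw [map_sum]
  refine Submodule.sum_mem _ fun m' _ => ?_
  rw [map_sum]
  refine Submodule.sum_mem _ fun I hI => ?_
  rw [map_smul]
  refine S.smul_mem _ ?_
  rcases lt_or_ge (d m) (d m') with hlt | hge
  · rw [(hB m m').2 hlt] at hI
    simp at hI
  · exact h m m' I hge (degree_of_hom (hB m m').1 (mem_support_iff.1 hI))

/-- the rank of the variation of the line -/
theorem rank_of_SL (h : 6 ≤ finrank L (Lines.SL D x y)) :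
    2 ≤ finrank L ((IP d ![x, y]).map (ff D x y)) := by
  classical
  let q : (Fin 2 × Fin (n + 1) → L) →ₗ[L] ((Fin (n + 1) → L) ⧸ Submodule.span L {x}) ×
      ((Fin (n + 1) → L) ⧸ Submodule.span L (Set.range ![x, y])) :=
    ((Submodule.span L {x}).mkQ.comp (LinearMap.funLeft L L fun p => ((0 : Fin 2), p))).prod
      ((Submodule.span L (Set.range ![x, y])).mkQ.comp
        (LinearMap.funLeft L L fun p => ((1 : Fin 2), p)))
  have hq : ∀ w, q w = ((Submodule.span L {x}).mkQ fun p => w (0, p),
    (Submodule.span L (Set.range ![x, y])).mkQ fun p => w (1, p)) := fun w => rfl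
  set S := Lines.SL D x y with hS
  have hrc := rank_pair_comm (LinearMap.id : (Fin 2 × Fin (n + 1) → L) →ₗ[L] _) q S
  have e1 : (S ⊓ LinearMap.ker (LinearMap.id : (Fin 2 × Fin (n + 1) → L) →ₗ[L] _)).map q = ⊥ := by
    rw [LinearMap.ker_id, inf_bot_eq, Submodule.map_bot]
  rw [e1, finrank_bot, Submodule.map_id, Submodule.map_id] at hrc
  -- the kernel
  have hker : finrank L (S ⊓ LinearMap.ker q : Submodule L (Fin 2 × Fin (n + 1) → L)) ≤ 3 := by
    let w : Fin 3 → (Fin 2 × Fin (n + 1) → L) :=
      ![Lines.PP x y (0, 0), Lines.PP x y (1, 0), Lines.PP x y (1, 1)]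
    have hle : (S ⊓ LinearMap.ker q : Submodule L (Fin 2 × Fin (n + 1) → L)) ≤
        Submodule.span L (Set.range w) := by
      rintro v ⟨_, hv⟩
      have hv0 := LinearMap.mem_ker.1 hv
      rw [hq, Prod.mk_eq_zero, Submodule.mkQ_apply, Submodule.mkQ_apply,
        Submodule.Quotient.mk_eq_zero, Submodule.Quotient.mk_eq_zero] at hv0
      obtain ⟨⟨a, ha⟩, hv1⟩ := And.imp_left (Submodule.mem_span_singleton.1) hv0
      have hr : Set.range ![x, y] = {x, y} := by
        rw [Matrix.range_cons, Matrix.range_cons, Matrix.range_empty, Set.union_empty,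
          Set.singleton_union]
      rw [hr, Submodule.mem_span_pair] at hv1
      obtain ⟨b, s, hbc⟩ := hv1
      have hvw : v = a • w 0 + b • w 1 + s • w 2 := by
        funext ⟨i, p⟩
        have ha' := congrFun ha p
        have hb' := congrFun hbc p
        fin_cases i
        · simp [w, Lines.PP]
          simpa using ha'.symm
        · simp [w, Lines.PP]
          simpa using hb'.symm
      rw [hvw]
      exact Submodule.add_mem _ (Submodule.add_mem _
        (Submodule.smul_mem _ _ (Submodule.subset_span ⟨0, rfl⟩))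
        (Submodule.smul_mem _ _ (Submodule.subset_span ⟨1, rfl⟩)))
        (Submodule.smul_mem _ _ (Submodule.subset_span ⟨2, rfl⟩))
    refine le_trans (Submodule.finrank_mono hle) ?_
    have := finrank_range_le_card (R := L) w
    rwa [Fintype.card_fin, Set.finrank] at this
  -- the image
  have him : S.map q ≤ (IP d ![x, y]).map (ff D x y) ⊔
      Submodule.span L {q (Lines.PP x y (0, 1))} := by
    rw [hS, Lines.SL, Submodule.map_span, Submodule.span_le]
    rintro _ ⟨v, hv, rfl⟩
    rcases hv with (⟨⟨i, j⟩, rfl⟩ | ⟨p, r, rfl⟩) | ⟨G, hG, hG0, rfl⟩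
    · by_cases h1 : i = 0 ∧ j = 1
      · rw [h1.1, h1.2]
        exact Submodule.mem_sup_right (Submodule.mem_span_singleton_self _)
      · have : q (Lines.PP x y (i, j)) = 0 := by
          rw [hq, Prod.mk_eq_zero, Submodule.mkQ_apply, Submodule.mkQ_apply,
            Submodule.Quotient.mk_eq_zero, Submodule.Quotient.mk_eq_zero]
          have z : ∀ (a b k : Fin 2), k ≠ a → (fun p => Lines.PP x y (a, b) (k, p)) = 0 := by
            intro a b k hk
            funext p
            simp [Lines.PP, hk]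
          have hx : ∀ a : Fin 2, (fun p => Lines.PP x y (a, 0) (a, p)) = x := by
            intro a; funext p; simp [Lines.PP]
          have hy : ∀ a : Fin 2, (fun p => Lines.PP x y (a, 1) (a, p)) = y := by
            intro a; funext p; simp [Lines.PP]
          fin_cases i <;> fin_cases j
          · change (fun p => Lines.PP x y (0, 0) (0, p)) ∈ _ ∧
              (fun p => Lines.PP x y (0, 0) (1, p)) ∈ _
            rw [hx, z 0 0 1 (by decide)]
            exact ⟨Submodule.mem_span_singleton_self x, Submodule.zero_mem _⟩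
          · exact absurd ⟨rfl, rfl⟩ h1
          · change (fun p => Lines.PP x y (1, 0) (0, p)) ∈ _ ∧
              (fun p => Lines.PP x y (1, 0) (1, p)) ∈ _
            rw [hx, z 1 0 0 (by decide)]
            exact ⟨Submodule.zero_mem _, x_mem2⟩
          · change (fun p => Lines.PP x y (1, 1) (0, p)) ∈ _ ∧
              (fun p => Lines.PP x y (1, 1) (1, p)) ∈ _
            rw [hy, z 1 1 0 (by decide)]
            exact ⟨Submodule.zero_mem _, y_mem2⟩
        rw [this]
        exact Submodule.zero_mem _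
    · refine Submodule.mem_sup_left (Submodule.mem_map.2
        ⟨(0, ten (_root_.Pi.single r 1) (_root_.Pi.single p 1), 0), ?_, ?_⟩)
      · exact mem_IP.2 ⟨⟨fun _ => isHomogeneous_zero _ _ _, BH_zero⟩, fun _ => map_zero _⟩
      · rw [hq]
        have e2 : (fun s => Lines.WW D x y p r (0, s)) = Sharp.WT D x p r := by
          funext s; simp [Lines.WW, Lines.pr]
        have e3 : (fun s => Lines.WW D x y p r (1, s)) = Sharp.WT D y p r := by
          funext s; simp [Lines.WW, Lines.pr]
        rw [e2, e3, WT_nv, WT_nv]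
        rfl
    · refine Submodule.mem_sup_left (Submodule.mem_map.2 ⟨(G, 0, 0), ?_, ?_⟩)
      · exact mem_IP.2 ⟨Gd_left hG, fun m => rst_of_lineP x y (hG m) (hG0 m)⟩
      · rw [hq]
        have e2 : (fun s => Lines.VV D x y G (0, s)) = VT D x G := by
          rw [← VT_VT]
          funext s; simp [Lines.VV, Lines.pr]
        have e3 : (fun s => Lines.VV D x y G (1, s)) = VT D y G := by
          rw [← VT_VT]
          funext s; simp [Lines.VV, Lines.pr]
        rw [e2, e3, ← nv_zero_right, ← nv_zero_right]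
        rfl
  have h5 := Submodule.finrank_mono him
  have h6 := Submodule.finrank_add_le_finrank_add_finrank ((IP d ![x, y]).map (ff D x y))
    (Submodule.span L {q (Lines.PP x y (0, 1))})
  have h7 := finrank_span_one (L := L) (q (Lines.PP x y (0, 1)))
  omega

end

/-! ### the module -/

section

variable {Ω : Type} [Field Ω] [CharZero Ω] {k : Subfield Ω} {Γ : Type}
  [LinearOrderedCommGroupWithZero Γ] {S : T2.Sizes Ω k Γ} {n c : ℕ} {d : Fin c → ℕ}
  {D : DSys Ω n c d} {x : Fin (n + 1) → Ω} {j0 : Fin (n + 1)}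

theorem line (hn : n = c + 3) (hs : ∑ m, d m = n + 2) (hd2 : ∀ m, 2 ≤ d m) (h : T2.Sit S D x j0)
    {y : Fin (n + 1) → Ω} (hxy : LinearIndependent Ω ![x, y]) (κ : Fin (n + 1) → Ω)
    (hbW : ∀ p q, Sharp.WT D x p q ∈ Submodule.span Ω {x, κ})
    (hbB : ∀ (m m' : Fin c) (I : Fin (n + 1) →₀ ℕ), d m' ≤ d m → I.degree = d m - d m' →
      VT D x (_root_.Pi.single m (monomial I 1 * D.F m')) ∈ Submodule.span Ω {x, κ})
    (hV0 : ∀ G : Tup Ω n c, Hom d G → (∀ m, Sharp.lineP (G m) x y = 0) →
      VT D x G ∈ Submodule.span Ω {x, κ}) : False := by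
  classical
  set U := Submodule.span Ω {x, κ} with hU
  have hUr : finrank Ω U ≤ 2 := by
    have h1 : ({x, κ} : Set (Fin (n + 1) → Ω)) = Set.range ![x, κ] := by
      rw [Matrix.range_cons, Matrix.range_cons, Matrix.range_empty, Set.union_empty,
        Set.singleton_union]
    rw [hU, h1]
    exact finrank_spanr _
  have hWE : ∀ (E : Fin (n + 1) → Fin (n + 1) → Ω) (B : MB Ω n c), BH d B →
      nv D x (0, E, B) ∈ U := by
    intro E B hB
    have h1 : ((0, E, B) : GE Ω n c) = (0, E, 0) + (0, 0, B) := by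
      rw [Prod.mk_add_mk, Prod.mk_add_mk, add_zero, add_zero, zero_add]
    rw [h1, map_add]
    exact U.add_mem (nv_E_mem D hbW E) (nv_B_mem D hbB hB)
  obtain ⟨φ, hφ⟩ := rst_dual ![x, y] hxy
  have ha0 : dt (φ 1) x = 0 := by have := hφ 1 0; simpa using this
  have ha1 : dt (φ 1) y = 1 := by have := hφ 1 1; simpa using this
  obtain ⟨e, he⟩ : ∃ e : Fin c → ℕ, ∀ m, d m = e m + 1 :=
    ⟨fun m => d m - 1, fun m => by
      have := hd2 m
      change d m = d m - 1 + 1
      omega⟩
  have hsub : ∀ μ : Ω, ∀ j, ![x, y] j ∈ Submodule.span Ω (Set.range ![x, y + μ • x]) := by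
    intro μ j
    fin_cases j
    · exact x_mem2
    · have h9 := Submodule.sub_mem _ (y_mem2 (x := x) (y := y + μ • x))
        (Submodule.smul_mem _ μ (x_mem2 (x := x) (y := y + μ • x)))
      rw [add_sub_cancel_right] at h9
      exact h9
  have hsub' : ∀ μ : Ω, ∀ j, ![x, y + μ • x] j ∈ Submodule.span Ω (Set.range ![x, y]) := by
    intro μ j
    fin_cases j
    · exact x_mem2
    · exact Submodule.add_mem _ y_mem2 (Submodule.smul_mem _ _ x_mem2)
  -- the frames
  have main : ∀ μ : Ω, ∃ e0 : Fin (n + 1) → Ω, Frm D x (y + μ • x) e0 := by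
    intro μ
    have hxy' : LinearIndependent Ω ![x, y + μ • x] := by
      rw [LinearIndependent.pair_iff] at hxy ⊢
      intro s t hst
      have h1 : (s + t * μ) • x + t • y = 0 := by
        rw [← hst, smul_add, add_smul, smul_smul]
        abel
      have h2 := hxy _ _ h1
      refine ⟨?_, h2.2⟩
      have := h2.1
      rw [h2.2, zero_mul, add_zero] at this
      exact this
    have hV' : ∀ G : Tup Ω n c, Hom d G → (∀ m, rst ![x, y + μ • x] (G m) = 0) →
        VT D x G ∈ U := fun G hG h0 =>
      hV0 G hG fun m => lineP_of_rst x y (rst_span (hsub μ) (h0 m))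
    have ha1' : dt (φ 1) (y + μ • x) = 1 := by
      rw [dt_add, dt_smul, ha0, ha1, mul_zero, add_zero]
    have hR : 2 ≤ finrank Ω (RR D x (φ 1) U e) := by
      have := finrank_RR D x (φ 1) U he h.hj0 hxy' ha0 ha1' (fun E => hWE E 0 BH_zero) hV'
      omega
    have hρ : 2 ≤ finrank Ω ((IP d ![x, y + μ • x]).map (ff D x (y + μ • x))) :=
      rank_of_SL D (h.hline _ hxy')
    obtain ⟨e0, he0, h2, hN, hM, htv⟩ := exists_e0 D h.comm he ha0 ha1' hU hWE hV' hR hρ
    have hE : ∀ (E : Fin (n + 1) → Fin (n + 1) → Ω) (B : MB Ω n c), BH d B →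
        ff D x (y + μ • x) (0, E, B) = 0 := by
      intro E B hB
      rw [hN (0, E, B) (mem_IP.2 ⟨⟨fun _ => isHomogeneous_zero _ _ _, hB⟩, fun _ => map_zero _⟩)]
      change VT D x (mulT (lf (φ 1)) (dvT e0 0)) ∈ U
      rw [map_zero, map_zero, map_zero]
      exact U.zero_mem
    refine ⟨e0, ⟨?_, hE, fun E B hB => ?_, fun G hG hf => ?_, fun G hG hG0 hf hG1 => ?_⟩⟩
    · have h7 := (linearIndependent_finSnoc (v := ![x, y + μ • x]) (x := e0)).2 ⟨hxy', he0⟩
      have h8 : ![x, y + μ • x, e0] = Fin.snoc (α := fun _ => Fin (n + 1) → Ω)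
          ![x, y + μ • x] e0 := by
        funext j
        fin_cases j <;> rfl
      rw [h8]
      exact h7
    · refine hM (0, E, B) (mem_IP.2 ⟨⟨fun _ => isHomogeneous_zero _ _ _, hB⟩,
        fun _ => map_zero _⟩) fun m => ?_
      change rst ![x, y + μ • x] (dv e0 0) = 0
      rw [map_zero, map_zero]
    · refine rel1 D ?_ hxy' hE h2 G hG hf
      rw [Finset.sum_add_distrib, hs]
      simp
      omega
    · exact rel2 D he hs.le hV' he0 hN hM htv hE G hG hG0 hf hG1
  -- the contradiction: the point is not constant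
  have fin : ¬ ∀ δ : Derivation ℤ Ω Ω, (∀ m I, δ (coeff I (D.F m)) = 0) →
      (fun p => δ (x p)) ∈ Submodule.span Ω {x} := by
    intro hc
    obtain ⟨i1, hi1⟩ := h.xk
    apply hi1
    refine T2.H95.mem_of_der k (fun z hz => ?_) (x i1) fun δ hδ => ?_
    · obtain ⟨p, hp, hpz⟩ := hz
      refine h.kalg z (p.map (algebraMap k Ω)) ?_ ?_ ?_
      · exact (Polynomial.map_ne_zero_iff (algebraMap k Ω).injective).2 hp
      · intro j
        rw [Polynomial.coeff_map]
        exact (p.coeff j).2
      · rw [Polynomial.eval_map_algebraMap]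
        exact hpz
    · have h8 := hc δ fun m I => hδ _ (h.kF m I)
      obtain ⟨s, hs⟩ := Submodule.mem_span_singleton.1 h8
      have h9 := congrFun hs j0
      rw [_root_.Pi.smul_apply, h.hj0, smul_eq_mul, mul_one] at h9
      have h10 : δ (1 : Ω) = 0 := δ.map_one_eq_zero
      rw [h10] at h9
      have h11 := congrFun hs i1
      rw [h9, zero_smul] at h11
      exact h11.symm
  apply fin
  intro δ hδ
  obtain ⟨m0, hm0⟩ := h.hno y hxy
  have hf0 : rst ![x, y] (D.F m0) ≠ 0 := fun h0 => hm0 (lineP_of_rst x y h0)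
  obtain ⟨e0, h0⟩ := main 0
  rw [zero_smul, add_zero] at h0
  have hmax := h0.max hf0
  have hzero : ∀ m, d m < d m0 → rst ![x, y] (D.F m) = 0 := by
    intro m hm
    by_contra hne
    exact absurd (h0.max hne m0) (not_le.2 hm)
  obtain ⟨J, hJ⟩ : ∃ J, d m0 = J + 2 := ⟨d m0 - 2, by have := hd2 m0; omega⟩
  by_cases htwo : ∃ m1, m1 ≠ m0 ∧ d m1 = d m0
  · -- two components of maximal degree
    obtain ⟨m1, hm1, hd1⟩ := htwo
    obtain ⟨t0, t1, ht0, ht1⟩ := h0.pure hf0 (Ne.symm hm1) hd1 (by omega)
    have hlt : ∀ m, m ≠ m0 → m ≠ m1 → d m < d m0 := by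
      intro m h1 h2
      refine lt_of_le_of_ne (hmax m) fun h3 => ?_
      exact h0.two hf0 (Ne.symm hm1) (Ne.symm h1) (Ne.symm h2) hd1 h3
    have ht00 : t0 ≠ 0 := by
      intro h1
      apply hf0
      rw [ht0, h1, C_0, zero_mul]
    refine h0.power hn hs he (m0 := m0) (m1 := m1) (J := J) hJ (by rw [hd1, hJ])
      (γ := fun m => if m = m0 then t0 else if m = m1 then t1 else 0) ?_ (fun m => ?_)
      (fun m h1 h2 => ?_) δ hδ
    · rw [if_pos rfl]
      exact ht00
    · by_cases h1 : m = m0
      · rw [if_pos h1, h1, ht0, hJ]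
      · rw [if_neg h1]
        by_cases h2 : m = m1
        · rw [if_pos h2, h2, ht1, hJ]
        · rw [if_neg h2, C_0, zero_mul]
          exact hzero m (hlt m h1 h2)
    · refine ⟨?_, h0.gzero (m0 := m0) (hlt m h1 h2) (hzero m (hlt m h1 h2))⟩
      change (if m = m0 then t0 else if m = m1 then t1 else 0) = 0
      rw [if_neg h1, if_neg h2]
  · -- one component of maximal degree
    push Not at htwo
    have hlt : ∀ m, m ≠ m0 → d m < d m0 := fun m hm =>
      lt_of_le_of_ne (hmax m) (htwo m hm)
    obtain ⟨g, hg, hrel⟩ := h0.rel m0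
    obtain ⟨μ, i, hi, t, ht, hf⟩ := exists_muk (by omega) (D.hom m0) hxy hf0 hg hrel
    obtain ⟨e1, h1⟩ := main μ
    have hz : ∀ m, m ≠ m0 → rst ![x, y + μ • x] (D.F m) = 0 := fun m hm =>
      rst_span (hsub' μ) (hzero m (hlt m hm))
    -- the point `x` is a zero
    have hi0 : i ≠ 0 := by
      intro h2
      rw [h2] at hf
      have h5 : ((eval (![1, 0] : Fin 2 → Ω)).comp
          ((rst ![x, y + μ • x]) : MvPolynomial (Fin (n + 1)) Ω →+* MvPolynomial (Fin 2) Ω)) =
          eval x := by
        apply MvPolynomial.ringHom_ext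
        · intro r
          simp
        · intro i
          simp [rst_X]
      have h6 := congrArg (fun f : MvPolynomial (Fin (n + 1)) Ω →+* Ω => f (D.F m0)) h5
      change eval ![1, 0] (rst ![x, y + μ • x] (D.F m0)) = eval x (D.F m0) at h6
      rw [hf, h.h0 m0, eval_monomial, Finsupp.prod_fintype _ _ (fun i => pow_zero _),
        Fin.prod_univ_two, m2_0, m2_1] at h6
      simp at h6
      exact ht h6
    rcases Nat.lt_or_ge i (d m0) with hlt' | hge
    · exact h1.mono hn hs he (j := d m0 - i) hi0 (by omega) ht hf hz δ hδ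
    · have hi' : i = d m0 := by omega
      have hf' : rst ![x, y + μ • x] (D.F m0) = C t * X 1 ^ (J + 2) := by
        rw [hf, hi', Nat.sub_self, hJ]
        have h2 : (Finsupp.single 1 (J + 2) : Fin 2 →₀ ℕ) = m2 0 (J + 2) := by
          unfold m2
          rw [Finsupp.single_zero, zero_add]
        rw [X_pow_eq_monomial, C_mul_monomial, mul_one, h2]
      refine h1.power hn hs he (m0 := m0) (m1 := m0) (J := J) hJ hJ
        (γ := fun m => if m = m0 then t else 0) ?_ (fun m => ?_) (fun m h2 _ => ?_) δ hδ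
      · rw [if_pos rfl]
        exact ht
      · by_cases h2 : m = m0
        · rw [if_pos h2, h2, hf']
        · rw [if_neg h2, C_0, zero_mul]
          exact hz m h2
      · refine ⟨?_, h1.gzero (m0 := m0) (hlt m h2) (hz m h2)⟩
        change (if m = m0 then t else 0) = 0
        rw [if_neg h2]

end

end Pool.Agent.T2C.H65
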