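import Pool.Agent.Lib.MP_c7af3c_ag.T2.H65.LineE

/-!
# MP_c7af3c_ag, project T2C (tuples): covariant derivatives (helper65)

A triple `g = (G, E, B)` of a tuple of forms, a matrix and a matrix of forms acts on vectors by
`nv D v g = D_(G + E * F + B F) v + E v` and on forms by `nF D g H = D_(G + E * F + B F) H - E * H`.
Leibniz rules, bracket.
-/

set_option autoImplicit false

namespace Pool.Agent.T2C.H65

open MvPolynomial Pool.Agent.Gen Pool.Agent.Sharp.H75 Pool.Agent.T2.H65

/-! ### covariant derivatives -/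

section nab

variable {L : Type} [Field L] {n c : ℕ} {d : Fin c → ℕ} (D : DSys L n c d)

/-- matrices of forms -/
abbrev MB (L : Type) [Field L] (n c : ℕ) : Type := Fin c → Fin c → MvPolynomial (Fin (n + 1)) L

/-- triples of a tuple of forms, a matrix and a matrix of forms -/
abbrev GE (L : Type) [Field L] (n c : ℕ) : Type :=
  Tup L n c × (Fin (n + 1) → Fin (n + 1) → L) × MB L n c

/-- `B_(m, m')` has degree `d m - d m'` -/
def BH (d : Fin c → ℕ) (B : MB L n c) : Prop :=
  ∀ m m', (B m m').IsHomogeneous (d m - d m') ∧ (d m < d m' → B m m' = 0)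

/-- the action of a matrix of forms on tuples -/
noncomputable def bT (B : MB L n c) (H : Tup L n c) : Tup L n c := fun m => ∑ m', B m m' * H m'

theorem bT_apply (B : MB L n c) (H : Tup L n c) (m : Fin c) : bT B H m = ∑ m', B m m' * H m' := rfl

theorem bT_hom {B : MB L n c} (hB : BH d B) {H : Tup L n c} (hH : Hom d H) : Hom d (bT B H) := by
  intro m
  refine IsHomogeneous.sum _ _ _ fun m' _ => ?_
  rcases lt_or_ge (d m) (d m') with h | h
  · rw [(hB m m').2 h, zero_mul]
    exact isHomogeneous_zero _ _ _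
  · have h1 := (hB m m').1.mul (hH m')
    rwa [Nat.sub_add_cancel h] at h1

/-- the action of matrices of forms on `F`, linear -/
noncomputable def bL (H : Tup L n c) : MB L n c →ₗ[L] Tup L n c where
  toFun B := bT B H
  map_add' B B' := by
    funext m
    simp only [bT_apply, Pi.add_apply, add_mul, Finset.sum_add_distrib]
  map_smul' a B := by
    funext m
    simp only [bT_apply, Pi.smul_apply, smul_mul_assoc, Finset.smul_sum, RingHom.id_apply]

theorem bL_apply (H : Tup L n c) (B : MB L n c) : bL H B = bT B H := rfl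

/-- the tuple `E * F` -/
noncomputable def afT (F : Tup L n c) : (Fin (n + 1) → Fin (n + 1) → L) →ₗ[L] Tup L n c :=
  LinearMap.pi fun m => afL (F m)

theorem afT_apply (F : Tup L n c) (E : Fin (n + 1) → Fin (n + 1) → L) (m : Fin c) :
    afT F E m = af E (F m) := rfl

/-- the tuple `G + E * F + B F` -/
noncomputable def GF : GE L n c →ₗ[L] Tup L n c :=
  (LinearMap.fst L _ _) + (afT D.F).comp ((LinearMap.fst L _ _).comp (LinearMap.snd L _ _)) +
    (bL D.F).comp ((LinearMap.snd L _ _).comp (LinearMap.snd L _ _))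

theorem GF_apply (g : GE L n c) (m : Fin c) :
    GF D g m = g.1 m + af g.2.1 (D.F m) + ∑ m', g.2.2 m m' * D.F m' := rfl

/-- the derivation `D_(G + E * F + B F)` -/
noncomputable def nD (g : GE L n c) : Derivation ℤ L L := DG D (GF D g)

/-- the action on vectors, as a linear map in the triple -/
noncomputable def nv (v : Fin (n + 1) → L) : GE L n c →ₗ[L] (Fin (n + 1) → L) :=
  (VT D v).comp (GF D) + (mvL v).comp ((LinearMap.fst L _ _).comp (LinearMap.snd L _ _))

/-- the action on forms -/
noncomputable def nF (g : GE L n c) (H : MvPolynomial (Fin (n + 1)) L) :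
    MvPolynomial (Fin (n + 1)) L := dco (nD D g) H - af g.2.1 H

/-- the action on tuples -/
noncomputable def nT (g : GE L n c) (H : Tup L n c) : Tup L n c :=
  fun m => nF D g (H m) - ∑ m', g.2.2 m m' * H m'

theorem nT_apply (g : GE L n c) (H : Tup L n c) (m : Fin c) :
    nT D g H m = nF D g (H m) - ∑ m', g.2.2 m m' * H m' := rfl

theorem nD_apply (v : Fin (n + 1) → L) (g : GE L n c) (p : Fin (n + 1)) :
    nD D g (v p) = VT D v (GF D g) p := by
  unfold nD
  rw [← VT_apply]

theorem nv_apply (v : Fin (n + 1) → L) (g : GE L n c) (p : Fin (n + 1)) :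
    nv D v g p = nD D g (v p) + dt (g.2.1 p) v := by
  rw [nD_apply]
  rfl

theorem GF_zero_right (G : Tup L n c) : GF D (G, 0, 0) = G := by
  funext m
  rw [GF_apply]
  simp [af, lf]

theorem nv_zero_right (v : Fin (n + 1) → L) (G : Tup L n c) :
    nv D v (G, 0, 0) = VT D v G := by
  funext p
  rw [nv_apply, nD_apply, GF_zero_right]
  simp [dt]

theorem nv_add (u v : Fin (n + 1) → L) (g : GE L n c) :
    nv D (u + v) g = nv D u g + nv D v g := by
  funext p
  rw [Pi.add_apply, nv_apply, nv_apply, nv_apply, Pi.add_apply, map_add, dt_add]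
  ring

theorem nv_smul (a : L) (v : Fin (n + 1) → L) (g : GE L n c) :
    nv D (a • v) g = nD D g a • v + a • nv D v g := by
  funext p
  rw [Pi.add_apply, Pi.smul_apply, Pi.smul_apply, nv_apply, nv_apply, Pi.smul_apply, smul_eq_mul,
    Derivation.leibniz, dt_smul]
  simp only [smul_eq_mul]
  ring

theorem nv_zero (g : GE L n c) : nv D (0 : Fin (n + 1) → L) g = 0 := by
  funext p
  rw [nv_apply]
  simp [dt]

/-- a triple stabilises a space of vectors -/
def Stab (g : GE L n c) (S : Submodule L (Fin (n + 1) → L)) : Prop := ∀ v ∈ S, nv D v g ∈ S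

theorem stab_span {g : GE L n c} {s : Set (Fin (n + 1) → L)}
    (h : ∀ v ∈ s, nv D v g ∈ Submodule.span L s) : Stab D g (Submodule.span L s) := by
  intro v hv
  induction hv using Submodule.span_induction with
  | mem v hv => exact h v hv
  | zero => rw [nv_zero]; exact Submodule.zero_mem _
  | add u v _ _ hu hv => rw [nv_add]; exact Submodule.add_mem _ hu hv
  | smul a v hv0 hv =>
    rw [nv_smul]
    exact Submodule.add_mem _ (Submodule.smul_mem _ _ hv0) (Submodule.smul_mem _ _ hv)

/-- the first Leibniz rule -/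
theorem dco_rst_nab {r : ℕ} (P : Fin r → Fin (n + 1) → L) (g : GE L n c)
    (H : MvPolynomial (Fin (n + 1)) L) :
    dco (nD D g) (rst P H) = rst P (nF D g H) + ∑ i, X i * rst P (dv (nv D (P i) g) H) := by
  rw [dco_rst, nF, map_sub, rst_af]
  have h : ∀ i, X i * rst P (dv (nv D (P i) g) H) =
      X i * rst P (dv (fun p => nD D g (P i p)) H) + X i * rst P (dv (mvL (P i) g.2.1) H) := by
    intro i
    have h1 : nv D (P i) g = (fun p => nD D g (P i p)) + mvL (P i) g.2.1 := by
      funext p
      rw [nv_apply]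
      rfl
    rw [h1, dv_add, map_add, mul_add]
  simp only [h, Finset.sum_add_distrib]
  ring

/-- the second Leibniz rule -/
theorem nF_dv (g : GE L n c) (v : Fin (n + 1) → L) (H : MvPolynomial (Fin (n + 1)) L) :
    nF D g (dv v H) = dv (nv D v g) H + dv v (nF D g H) := by
  unfold nF
  have h1 : nv D v g = (fun p => nD D g (v p)) + mvL v g.2.1 := by
    funext p
    rw [nv_apply]
    rfl
  rw [map_sub, af_dv, h1, dv_add, dco_dv]
  ring

theorem af_mul (E : Fin (n + 1) → Fin (n + 1) → L) (A B : MvPolynomial (Fin (n + 1)) L) :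
    af E (A * B) = af E A * B + A * af E B := by
  unfold af
  rw [Finset.sum_mul, Finset.mul_sum, ← Finset.sum_add_distrib]
  refine Finset.sum_congr rfl fun p _ => ?_
  rw [Derivation.leibniz, smul_eq_mul, smul_eq_mul]
  ring

theorem af_add' (E : Fin (n + 1) → Fin (n + 1) → L) (A B : MvPolynomial (Fin (n + 1)) L) :
    af E (A + B) = af E A + af E B := by
  unfold af
  rw [← Finset.sum_add_distrib]
  refine Finset.sum_congr rfl fun p _ => ?_
  rw [map_add, mul_add]

theorem af_sum' {ι : Type} (s : Finset ι) (E : Fin (n + 1) → Fin (n + 1) → L)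
    (A : ι → MvPolynomial (Fin (n + 1)) L) : af E (∑ i ∈ s, A i) = ∑ i ∈ s, af E (A i) := by
  unfold af
  simp only [map_sum, Finset.mul_sum]
  rw [Finset.sum_comm]

/-- the derivations commute up to the bracket: `[D_G, D_H]` -/
theorem DG_br (hc : Lines.Comm D) {G H : Tup L n c} (hG : Hom d G) (hH : Hom d H) (f : L) :
    DG D G (DG D H f) - DG D H (DG D G f) =
      DG D ((fun m => dco (DG D G) (H m)) - fun m => dco (DG D H) (G m)) f := by
  have h0 : Sharp.H75.Comm D := fun m I m' J _ _ f => hc m I m' J f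
  exact DG_comm h0 hG hH f

/-- homogeneous triples -/
def Gd (d : Fin c → ℕ) (g : GE L n c) : Prop := Hom d g.1 ∧ BH d g.2.2

theorem GF_hom {g : GE L n c} (hg : Gd d g) : Hom d (GF D g) := by
  intro m
  have h := ((hg.1 m).add (af_hom g.2.1 (D.hom m))).add (bT_hom hg.2 D.hom m)
  exact h

/-- the bracket of two triples -/
noncomputable def br (g h : GE L n c) : GE L n c :=
  (nT D g h.1 - nT D h g.1, (fun p q => nD D g (h.2.1 p q) - nD D h (g.2.1 p q) +
    (dt (g.2.1 p) (fun r => h.2.1 r q) - dt (h.2.1 p) (fun r => g.2.1 r q))),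
    fun m m' => nF D g (h.2.2 m m') - nF D h (g.2.2 m m') -
      ∑ k, (g.2.2 m k * h.2.2 k m' - h.2.2 m k * g.2.2 k m'))

theorem nF_hom {g : GE L n c} {H : MvPolynomial (Fin (n + 1)) L} {e : ℕ} (hH : H.IsHomogeneous e) :
    (nF D g H).IsHomogeneous e := by
  unfold nF
  have h1 := dco_hom (nD D g) hH
  have h2 := af_hom g.2.1 hH
  exact h1.sub h2

theorem nF_zero (g : GE L n c) : nF D g 0 = 0 := by
  unfold nF
  rw [dco_zero]
  simp [af]

theorem nT_hom {g : GE L n c} (hg : BH d g.2.2) {H : Tup L n c} (hH : Hom d H) :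
    Hom d (nT D g H) := fun m => (nF_hom D (hH m)).sub (bT_hom hg hH m)

theorem nF_F {g : GE L n c} (hg : Gd d g) (m : Fin c) :
    nF D g (D.F m) = g.1 m + ∑ m', g.2.2 m m' * D.F m' := by
  unfold nF nD
  rw [dco_F D (GF_hom D hg) m, GF_apply]
  ring

theorem GF_br {g h : GE L n c} (hg : Gd d g) (hh : Gd d h) (m : Fin c) :
    dco (nD D g) (GF D h m) - dco (nD D h) (GF D g m) = GF D (br D g h) m := by
  have h1 : ∀ {g : GE L n c}, Gd d g → ∀ m, dco (nD D g) (D.F m) = GF D g m := by
    intro g hg m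
    exact dco_F D (GF_hom D hg) m
  have h3 : af (fun p q => nD D g (h.2.1 p q) - nD D h (g.2.1 p q) +
      (dt (g.2.1 p) (fun r => h.2.1 r q) - dt (h.2.1 p) (fun r => g.2.1 r q))) (D.F m) =
      af (fun p q => nD D g (h.2.1 p q)) (D.F m) - af (fun p q => nD D h (g.2.1 p q)) (D.F m) +
        (af h.2.1 (af g.2.1 (D.F m)) - af g.2.1 (af h.2.1 (D.F m))) := by
    rw [af_comm]
    simp only [← afL_apply]
    rw [← map_sub, ← map_add]
    rfl
  rw [GF_apply D (br D g h)]
  have e1 : ∀ (g h : GE L n c), Gd d g → dco (nD D g) (GF D h m) =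
      dco (nD D g) (h.1 m) + af (fun p q => nD D g (h.2.1 p q)) (D.F m) + af h.2.1 (g.1 m) +
        af h.2.1 (af g.2.1 (D.F m)) + (∑ k, af h.2.1 (g.2.2 m k) * D.F k) +
        (∑ k, g.2.2 m k * af h.2.1 (D.F k)) + (∑ k, dco (nD D g) (h.2.2 m k) * D.F k) +
        (∑ k, h.2.2 m k * g.1 k) + (∑ k, h.2.2 m k * af g.2.1 (D.F k)) +
        ∑ k, (∑ l, h.2.2 m l * g.2.2 l k) * D.F k := by
    intro g h hg
    rw [GF_apply D h, dco_add, dco_add, dco_af, h1 hg, GF_apply D g, af_add', af_add', dco_sum,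
      af_sum']
    simp only [af_mul, dco_mul, h1 hg, GF_apply D g, mul_add, Finset.sum_add_distrib]
    have e2 : ∑ k, h.2.2 m k * ∑ l, g.2.2 k l * D.F l =
        ∑ k, (∑ l, h.2.2 m l * g.2.2 l k) * D.F k := by
      simp only [Finset.mul_sum, Finset.sum_mul]
      rw [Finset.sum_comm]
      refine Finset.sum_congr rfl fun k _ => Finset.sum_congr rfl fun l _ => ?_
      ring
    rw [e2]
    ring
  rw [e1 g h hg, e1 h g hh]
  unfold br
  simp only [Pi.sub_apply, nT_apply]
  rw [h3]
  unfold nF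
  simp only [sub_mul, Finset.sum_sub_distrib, Finset.sum_mul]
  ring

/-- the bracket -/
theorem nv_br (hc : Lines.Comm D) {g h : GE L n c} (hg : Gd d g) (hh : Gd d h)
    (v : Fin (n + 1) → L) :
    nv D (nv D v h) g - nv D (nv D v g) h = nv D v (br D g h) := by
  funext p
  have h1 := DG_br D hc (GF_hom D hg) (GF_hom D hh) (v p)
  have e0 : ((fun m => dco (DG D (GF D g)) (GF D h m)) - fun m => dco (DG D (GF D h)) (GF D g m)) =
      GF D (br D g h) := by
    funext m
    exact GF_br D hg hh m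
  rw [e0, show (DG D (GF D g)) = nD D g from rfl, show (DG D (GF D h)) = nD D h from rfl,
    show (DG D (GF D (br D g h))) = nD D (br D g h) from rfl] at h1
  rw [Pi.sub_apply, nv_apply D (nv D v h) g, nv_apply D (nv D v g) h, nv_apply D v (br D g h),
    nv_apply D v h, nv_apply D v g, ← h1, map_add, map_add]
  have h2 : ∀ (δ : Derivation ℤ L L) (a u : Fin (n + 1) → L), δ (dt a u) =
      dt (fun q => δ (a q)) u + dt a (fun q => δ (u q)) := by
    intro δ a u
    unfold dt
    rw [map_sum, ← Finset.sum_add_distrib]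
    refine Finset.sum_congr rfl fun q _ => ?_
    rw [Derivation.leibniz]
    simp only [smul_eq_mul]
    ring
  have h3 : ∀ (g h : GE L n c), dt (g.2.1 p) (nv D v h) =
      dt (g.2.1 p) (fun q => nD D h (v q)) + dt (fun q => dt (g.2.1 p) (fun r => h.2.1 r q)) v := by
    intro g h
    have : nv D v h = (fun q => nD D h (v q)) + fun q => dt (h.2.1 q) v := by
      funext q
      rw [nv_apply]
      rfl
    rw [this, dt_add]
    congr 1
    unfold dt
    simp only [Finset.mul_sum, Finset.sum_mul]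
    rw [Finset.sum_comm]
    refine Finset.sum_congr rfl fun q _ => Finset.sum_congr rfl fun r _ => ?_
    ring
  rw [h2, h2, h3 g h, h3 h g]
  have h4 : dt ((br D g h).2.1 p) v = dt (fun q => nD D g (h.2.1 p q)) v -
      dt (fun q => nD D h (g.2.1 p q)) v + (dt (fun q => dt (g.2.1 p) (fun r => h.2.1 r q)) v -
        dt (fun q => dt (h.2.1 p) (fun r => g.2.1 r q)) v) := by
    unfold br dt
    simp only
    rw [← Finset.sum_sub_distrib, ← Finset.sum_sub_distrib, ← Finset.sum_add_distrib]
    refine Finset.sum_congr rfl fun q _ => ?_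
    ring
  rw [h4]
  ring

theorem br_fst (g h : GE L n c) : (br D g h).1 = nT D g h.1 - nT D h g.1 := rfl

theorem mul_BH {B B' : MB L n c} (hB : BH d B) (hB' : BH d B') (m m' k : Fin c) :
    (B m k * B' k m').IsHomogeneous (d m - d m') ∧ (d m < d m' → B m k * B' k m' = 0) := by
  constructor
  · rcases lt_or_ge (d m) (d k) with h | h
    · rw [(hB m k).2 h, zero_mul]
      exact isHomogeneous_zero _ _ _
    · rcases lt_or_ge (d k) (d m') with h' | h'
      · rw [(hB' k m').2 h', mul_zero]
        exact isHomogeneous_zero _ _ _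
      · have h1 := (hB m k).1.mul (hB' k m').1
        have h2 : d m - d k + (d k - d m') = d m - d m' := by omega
        rwa [h2] at h1
  · intro h0
    rcases lt_or_ge (d m) (d k) with h | h
    · rw [(hB m k).2 h, zero_mul]
    · rw [(hB' k m').2 (by omega), mul_zero]

theorem br_Gd {g h : GE L n c} (hg : Gd d g) (hh : Gd d h) : Gd d (br D g h) := by
  refine ⟨fun m => (nT_hom D hg.2 hh.1 m).sub (nT_hom D hh.2 hg.1 m), fun m m' => ⟨?_, ?_⟩⟩
  · change (nF D g (h.2.2 m m') - nF D h (g.2.2 m m') -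
      ∑ k, (g.2.2 m k * h.2.2 k m' - h.2.2 m k * g.2.2 k m')).IsHomogeneous _
    refine ((nF_hom D (hh.2 m m').1).sub (nF_hom D (hg.2 m m').1)).sub ?_
    refine IsHomogeneous.sum _ _ _ fun k _ => ?_
    exact (mul_BH hg.2 hh.2 m m' k).1.sub (mul_BH hh.2 hg.2 m m' k).1
  · intro h0
    change (nF D g (h.2.2 m m') - nF D h (g.2.2 m m') -
      ∑ k, (g.2.2 m k * h.2.2 k m' - h.2.2 m k * g.2.2 k m')) = 0
    rw [(hh.2 m m').2 h0, (hg.2 m m').2 h0, nF_zero, nF_zero, sub_zero, zero_sub, neg_eq_zero]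
    refine Finset.sum_eq_zero fun k _ => ?_
    rw [(mul_BH hg.2 hh.2 m m' k).2 h0, (mul_BH hh.2 hg.2 m m' k).2 h0, sub_zero]

theorem stab_br (hc : Lines.Comm D) {g h : GE L n c} (hg : Gd d g)
    (hh : Gd d h) {S : Submodule L (Fin (n + 1) → L)} (h1 : Stab D g S)
    (h2 : Stab D h S) : Stab D (br D g h) S := by
  intro v hv
  rw [← nv_br D hc hg hh]
  exact Submodule.sub_mem _ (h1 _ (h2 v hv)) (h2 _ (h1 v hv))

/-- a form zero on a stable space stays zero on it -/
theorem rst_nF_zero {r : ℕ} {P : Fin r → Fin (n + 1) → L} {g : GE L n c}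
    {H : MvPolynomial (Fin (n + 1)) L} (h0 : rst P H = 0)
    (hg : ∀ i, nv D (P i) g ∈ Submodule.span L (Set.range P)) : rst P (nF D g H) = 0 := by
  have h1 := dco_rst_nab D P g H
  rw [h0, dco_zero] at h1
  have h2 : ∑ i, X i * rst P (dv (nv D (P i) g) H) = 0 :=
    Finset.sum_eq_zero fun i _ => by rw [rst_dv_of_mem P h0 (hg i), mul_zero]
  rw [h2, add_zero] at h1
  exact h1.symm

/-- a form zero on the space, all directions but one stable -/
theorem rst_nF_one {r : ℕ} {P : Fin r → Fin (n + 1) → L} {g : GE L n c}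
    {H : MvPolynomial (Fin (n + 1)) L} (h0 : rst P H = 0) (k : Fin r)
    (hg : ∀ i, i ≠ k → nv D (P i) g ∈ Submodule.span L (Set.range P)) :
    rst P (nF D g H) = - (X k * rst P (dv (nv D (P k) g) H)) := by
  have h1 := dco_rst_nab D P g H
  rw [h0, dco_zero] at h1
  rw [Finset.sum_eq_single k (fun i _ hi => by rw [rst_dv_of_mem P h0 (hg i hi), mul_zero])
    (fun h => absurd (Finset.mem_univ _) h)] at h1
  linear_combination -h1

/-- the derivative in the direction `e` -/
theorem rst_dv_nF {r : ℕ} {P : Fin r → Fin (n + 1) → L} {g : GE L n c}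
    {H : MvPolynomial (Fin (n + 1)) L} {e : Fin (n + 1) → L} (h0 : rst P (dv e H) = 0)
    (hg : ∀ i, nv D (P i) g ∈ Submodule.span L (Set.range P)) :
    rst P (dv e (nF D g H)) = - rst P (dv (nv D e g) H) := by
  have h1 := rst_nF_zero D h0 hg
  rw [nF_dv, map_add] at h1
  linear_combination h1

theorem rst_bT {r : ℕ} {P : Fin r → Fin (n + 1) → L} {B : MB L n c} {H : Tup L n c}
    (h0 : ∀ m, rst P (H m) = 0) (m : Fin c) : rst P (∑ m', B m m' * H m') = 0 := by
  rw [map_sum]
  refine Finset.sum_eq_zero fun k _ => ?_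
  rw [map_mul, h0, mul_zero]

theorem rst_dv_bT {r : ℕ} {P : Fin r → Fin (n + 1) → L} {B : MB L n c} {H : Tup L n c}
    {e : Fin (n + 1) → L} (h0 : ∀ m, rst P (H m) = 0) (h1 : ∀ m, rst P (dv e (H m)) = 0)
    (m : Fin c) : rst P (dv e (∑ m', B m m' * H m')) = 0 := by
  rw [map_sum, map_sum]
  refine Finset.sum_eq_zero fun k _ => ?_
  rw [Derivation.leibniz, smul_eq_mul, smul_eq_mul, map_add, map_mul, map_mul, h0, h1, mul_zero,
    zero_mul, add_zero]

end nab

end Pool.Agent.T2C.H65
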